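import Pool.Agent.H.MP_ac3185_nt.V6.Val
import Pool.Agent.H.MP_ac3185_nt.V2.Count

/-! The index of a subgroup which is detected by a quadratic character, and covers by cosets. -/

set_option autoImplicit false

open NumberField IsDedekindDomain

namespace Pool.Agent.H.MP_ac3185_nt

universe u

section cover

variable {X : Type*} [AddCommGroup X]

/-- `G` is covered by at most `n` cosets `t + D` with `t` in `G`. -/
def CosetCover (G D : AddSubgroup X) (n : ℕ) : Prop :=
  ∃ T : Finset X, T.card ≤ n ∧ (∀ t ∈ T, t ∈ G) ∧ ∀ y ∈ G, ∃ t ∈ T, y - t ∈ D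

theorem v8_cover_refl (G : AddSubgroup X) {D : AddSubgroup X} (h : G ≤ D) : CosetCover G D 1 :=
  ⟨{0}, by simp, fun t ht => by rw [Finset.mem_singleton.1 ht]; exact G.zero_mem,
    fun y hy => ⟨0, Finset.mem_singleton_self 0, by rw [sub_zero]; exact h hy⟩⟩

theorem v8_cover_of_index (G D : AddSubgroup X) (n : ℕ) (h0 : D.relIndex G ≠ 0)
    (h1 : D.relIndex G ≤ n) : CosetCover G D n := by
  classical
  let E : AddSubgroup G := D.addSubgroupOf G
  have hEi : E.index = D.relIndex G := rfl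
  rw [← hEi] at h0 h1
  have hfin : Finite (G ⧸ E) := (Nat.card_ne_zero.1 h0).2
  let _ := Fintype.ofFinite (G ⧸ E)
  let F : G ⧸ E → X := fun q => ((q.out : G) : X)
  refine ⟨Finset.univ.image F, ?_, ?_, ?_⟩
  · refine Finset.card_image_le.trans ?_
    rw [Finset.card_univ, ← Nat.card_eq_fintype_card]
    exact h1
  · intro t ht
    obtain ⟨q, -, rfl⟩ := Finset.mem_image.1 ht
    exact (q.out : G).2
  · intro y hy
    let y' : G := ⟨y, hy⟩
    have h2 : -(y' : G ⧸ E).out + y' ∈ E := by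
      rw [← QuotientAddGroup.eq, QuotientAddGroup.out_eq']
    refine ⟨F (y' : G ⧸ E), Finset.mem_image_of_mem F (Finset.mem_univ _), ?_⟩
    have h4 : -(((y' : G ⧸ E).out : G) : X) + y ∈ D := h2
    rwa [neg_add_eq_sub] at h4

/-- Composition of two steps. -/
theorem v8_cover_comp {G G' D D' E : AddSubgroup X} {n n' : ℕ} (hD : D ≤ D')
    (hG : G ≤ G') (h1 : CosetCover G (D ⊔ E) n) (h2 : CosetCover G' (D' ⊔ G) n') :
    CosetCover G' (D' ⊔ E) (n * n') := by
  classical
  obtain ⟨T1, hT1, g1, k1⟩ := h1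
  obtain ⟨T2, hT2, g2, k2⟩ := h2
  refine ⟨(T1 ×ˢ T2).image fun p => p.1 + p.2, ?_, ?_, ?_⟩
  · refine Finset.card_image_le.trans ?_
    rw [Finset.card_product]
    exact Nat.mul_le_mul hT1 hT2
  · intro t ht
    obtain ⟨⟨t1, t2⟩, hp, rfl⟩ := Finset.mem_image.1 ht
    obtain ⟨ht1, ht2⟩ := Finset.mem_product.1 hp
    exact G'.add_mem (hG (g1 t1 ht1)) (g2 t2 ht2)
  · intro y hy
    obtain ⟨t2, ht2, h3⟩ := k2 y hy
    obtain ⟨d', hd', g, hg, h4⟩ := AddSubgroup.mem_sup.1 h3
    obtain ⟨t1, ht1, h5⟩ := k1 g hg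
    refine ⟨t1 + t2, Finset.mem_image.2 ⟨(t1, t2), Finset.mem_product.2 ⟨ht1, ht2⟩, rfl⟩, ?_⟩
    have h6 : y - (t1 + t2) = d' + (g - t1) := by
      rw [← sub_sub, sub_right_comm, ← h4]
      abel
    rw [h6]
    exact AddSubgroup.add_mem _ (AddSubgroup.mem_sup_left hd') (sup_le_sup_right hD E h5)

end cover

variable {K : Type u} [Field K] [NumberField K]

/-- The index of `D` in `G`, for a function `c` on `G` with values in the elements of `LF` with square
norm to `F`, additive modulo squares, such that `c(P)` is a square only for `P` in `D`. -/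
theorem v8_index (L F : IntermediateField K (AlgebraicClosure K)) [FiniteDimensional K L]
    [FiniteDimensional K F] (hodd : Odd (Module.finrank K L)) (hT : TransOn L F.fixingSubgroup)
    {X : Type*} [AddCommGroup X] (G D : AddSubgroup X) (S : Finset (HeightOneSpectrum (𝓞 F)))
    (Y : Set (L ⊔ F : IntermediateField K (AlgebraicClosure K))) (n : ℕ)
    (hY : CoveredBy (L ⊔ F) Y n)
    (c : X → (L ⊔ F : IntermediateField K (AlgebraicClosure K)))
    (h0 : ∀ P, c P ≠ 0)
    (h1 : ∀ P ∈ G, ∃ d ∈ F, normG L F.fixingSubgroup (c P : AlgebraicClosure K) = d * d)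
    (h2 : ∀ P ∈ G, ∀ Q ∈ G, IsSquare (c P * c Q * c (P + Q)))
    (h3 : ∀ P ∈ G, IsSquare (c P) → P ∈ D)
    (h4 : ∀ P ∈ G, (∀ v ∈ S, ∀ 𝔓, PrimeOver F 𝔓 v →
      EvenAt (L ⊔ F) 𝔓 (c P : AlgebraicClosure K)) → c P ∈ Y) :
    D.relIndex G ≠ 0 ∧ D.relIndex G ≤ n * 2 ^ excessOver L F S := by
  classical
  let D' : AddSubgroup G := D.addSubgroupOf G
  obtain ⟨E, hE0, hE, hEm⟩ := v6_even_subgroup L F hodd hT (A := G) (fun P => c P)
    (fun P => h0 P) (fun P => h1 P P.2) (fun P Q => h2 P P.2 Q Q.2) S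
  obtain ⟨T, hT', hTX⟩ := hY
  have hpick : ∀ P : E, ∃ t : T, (t : (L ⊔ F : IntermediateField K (AlgebraicClosure K))) ≠ 0 ∧
      IsSquare (c ((P : G) : X) *
        (t : (L ⊔ F : IntermediateField K (AlgebraicClosure K)))) := by
    intro P
    obtain ⟨t, ht, ht0, hs⟩ := hTX _ (h4 ((P : G) : X) (P : G).2 ((hEm P).1 P.2))
    exact ⟨⟨t, ht⟩, ht0, hs⟩
  choose g hg0 hg using hpick
  have hsep : ∀ x y : E, g x = g y → (x : G) - y ∈ D' := by
    intro x y hxy
    have e1 := hg x
    have e2 := hg y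
    rw [← hxy] at e2
    set P := ((x : G) : X) with hP
    set Q := ((y : G) : X) with hQ
    have hPm := (x : G).2
    have hQm := (y : G).2
    have hPQm : P - Q ∈ G := sub_mem hPm hQm
    have e3 := h2 (P - Q) hPQm Q hQm
    rw [sub_add_cancel] at e3
    -- the classes of `c P` and `c Q` are equal
    have e4 : IsSquare (c (P - Q)) := by
      obtain ⟨a, ha⟩ := e1
      obtain ⟨b, hb⟩ := e2
      obtain ⟨d, hd⟩ := e3
      have ht := hg0 x
      have hcP := h0 P
      have hcQ := h0 Q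
      generalize (g x : (L ⊔ F : IntermediateField K (AlgebraicClosure K))) = w0 at ha hb ht
      refine ⟨d * w0 / (a * b), ?_⟩
      have hab : a * b ≠ 0 := by
        intro h
        have h5 : (c P * w0) * (c Q * w0) = (a * b) * (a * b) := by
          rw [ha, hb]
          ring
        rw [h, mul_zero] at h5
        exact mul_ne_zero (mul_ne_zero hcP ht) (mul_ne_zero hcQ ht) h5
      have h6 : d * w0 / (a * b) * (d * w0 / (a * b)) = (d * d) * (w0 * w0) / ((a * a) * (b * b)) := by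
        field_simp
      rw [h6, ← hd, ← ha, ← hb]
      field_simp
    exact h3 (P - Q) hPQm e4
  obtain ⟨i1, i2⟩ := v2c_index D' E g hsep
  have hTc : Nat.card T ≤ n := by
    rw [Nat.card_eq_fintype_card, Fintype.card_coe]
    exact hT'
  have hmul : D'.relIndex E * E.index = (D' ⊓ E).index := by
    rw [← AddSubgroup.inf_relIndex_right, AddSubgroup.relIndex_mul_index inf_le_right]
  have hne : (D' ⊓ E).index ≠ 0 := by
    rw [← hmul]
    exact mul_ne_zero i1 hE0
  have hdvd : D'.index ∣ (D' ⊓ E).index := AddSubgroup.index_dvd_of_le inf_le_left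
  have hDi : D'.index = D.relIndex G := rfl
  rw [← hDi]
  refine ⟨fun h => hne (Nat.eq_zero_of_zero_dvd (h ▸ hdvd)), ?_⟩
  calc D'.index ≤ (D' ⊓ E).index := Nat.le_of_dvd (Nat.pos_of_ne_zero hne) hdvd
    _ = D'.relIndex E * E.index := hmul.symm
    _ ≤ n * 2 ^ excessOver L F S := Nat.mul_le_mul (i2.trans hTc) hE

end Pool.Agent.H.MP_ac3185_nt
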