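import Pool.Agent.H.MP_ac3185_nt.V8.Defs
import Pool.Agent.H.MP_ac3185_nt.V6.Split

/-! The sign of an element of `N'` modulo `H`, and traces modulo `N'`. -/

set_option autoImplicit false

open CategoryTheory AlgebraicGeometry NumberField IsDedekindDomain
open scoped MonObj

namespace Pool.Agent.H.MP_ac3185_nt

universe u

section sign

variable {K : Type u} [Field K] {A : Over (Spec (.of K))} [GrpObj A] [IsAbVar A]
  {F : IntermediateField K (AlgebraicClosure K)}
  {N N' H : AddSubgroup (Pts A (AlgebraicClosure K))}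

theorem v8_sg_add (hf : ModFrame F N N' H) {x y : Pts A (AlgebraicClosure K)} (hx : x ∈ N')
    (hy : y ∈ N') : sgH H (x + y) = sgH H x * sgH H y := by
  by_cases h1 : x ∈ H
  · by_cases h2 : y ∈ H
    · rw [sgH_mem h1, sgH_mem h2, sgH_mem (H.add_mem h1 h2), one_mul]
    · rw [sgH_mem h1, sgH_not h2, sgH_not (fun h => h2 (by
        have := H.sub_mem h h1
        rwa [add_sub_cancel_left] at this)), one_mul]
  · by_cases h2 : y ∈ H
    · rw [sgH_not h1, sgH_mem h2, sgH_not (fun h => h1 (by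
        have := H.sub_mem h h2
        rwa [add_sub_cancel_right] at this)), mul_one]
    · rw [sgH_not h1, sgH_not h2, sgH_mem (hf.index x hx y hy h1 h2)]
      ring

theorem v8_sg_sub (hf : ModFrame F N N' H) {x y : Pts A (AlgebraicClosure K)} (hx : x ∈ N')
    (hy : y ∈ N') : sgH H (x - y) = sgH H x * sgH H y := by
  rw [sub_eq_add_neg, v8_sg_add hf hx (N'.neg_mem hy), sgH_neg]

theorem v8_sg_sum (hf : ModFrame F N N' H) {I : Type*} (J : Finset I)
    (x : I → Pts A (AlgebraicClosure K)) (hx : ∀ i ∈ J, x i ∈ N') :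
    sgH H (∑ i ∈ J, x i) = ∏ i ∈ J, sgH H (x i) := by
  classical
  induction J using Finset.induction_on with
  | empty => rw [Finset.sum_empty, Finset.prod_empty, sgH_mem H.zero_mem]
  | insert i J hi ih =>
    have h1 : ∑ i ∈ J, x i ∈ N' :=
      N'.sum_mem fun j hj => hx j (Finset.mem_insert_of_mem hj)
    rw [Finset.sum_insert hi, Finset.prod_insert hi,
      v8_sg_add hf (hx i (Finset.mem_insert_self i J)) h1,
      ih fun j hj => hx j (Finset.mem_insert_of_mem hj)]

theorem v8_act_mem (hf : ModFrame F N N' H) {s : AlgebraicClosure K ≃ₐ[K] AlgebraicClosure K}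
    (hs : s ∈ F.fixingSubgroup) (x : Pts A (AlgebraicClosure K)) : act A s x ∈ H ↔ x ∈ H := by
  constructor
  · intro h
    have h1 := hf.stab s⁻¹ (inv_mem hs) _ h
    rwa [← v2s_act_mul, inv_mul_cancel, v2s_act_one] at h1
  · exact hf.stab s hs x

theorem v8_sg_act (hf : ModFrame F N N' H) {s : AlgebraicClosure K ≃ₐ[K] AlgebraicClosure K}
    (hs : s ∈ F.fixingSubgroup) (x : Pts A (AlgebraicClosure K)) :
    sgH H (act A s x) = sgH H x := by
  by_cases h : x ∈ H
  · rw [sgH_mem h, sgH_mem ((v8_act_mem hf hs x).2 h)]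
  · rw [sgH_not h, sgH_not (fun h' => h ((v8_act_mem hf hs x).1 h'))]

theorem v8_mem_shadow (hf : ModFrame F N N' H) (x : Pts A (AlgebraicClosure K))
    (g : AlgebraicClosure K ≃ₐ[K] AlgebraicClosure K) :
    (g : (AlgebraicClosure K ≃ₐ[K] AlgebraicClosure K) ⧸ F.fixingSubgroup) ∈ shadow F H x ↔
      act A g⁻¹ x ∉ H := by
  constructor
  · rintro ⟨g', hg', h⟩
    have h1 : g'⁻¹ * g ∈ F.fixingSubgroup := QuotientGroup.eq.1 hg'
    intro h2
    apply h
    have h3 := hf.stab _ h1 _ h2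
    rwa [← v2s_act_mul, mul_assoc, mul_inv_cancel, mul_one] at h3
  · exact fun h => ⟨g, rfl, h⟩

/-- `2 N' ≤ N`. -/
theorem v8_two (hf : ModFrame F N N' H) {x : Pts A (AlgebraicClosure K)} (hx : x ∈ N') :
    x + x ∈ N := by
  have h0 : ∀ y ∈ N', y + y ∈ H := by
    intro y hy
    by_cases h : y ∈ H
    · exact H.add_mem h h
    · exact hf.index y hy y hy h h
  refine hf.core _ (N'.add_mem hx hx) fun g => ?_
  rw [v8_act_add]
  exact h0 _ (hf.stabN' g x hx)

/-- The elements of the Galois group which act trivially on `N' / N`. -/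
noncomputable def v8Triv (hf : ModFrame F N N' H) :
    Subgroup (AlgebraicClosure K ≃ₐ[K] AlgebraicClosure K) where
  carrier := {s | ∀ x ∈ N', act A s x - x ∈ N}
  one_mem' := by
    intro x _
    rw [v2s_act_one, sub_self]
    exact N.zero_mem
  mul_mem' := by
    intro s t hs ht x hx
    rw [v6_act_diff]
    exact N.add_mem (hf.stabN s _ (ht x hx)) (hs x hx)
  inv_mem' := by
    intro s hs x hx
    have h1 := N.neg_mem (hf.stabN s⁻¹ _ (hs x hx))
    rw [v2s_act_sub, ← v2s_act_mul, inv_mul_cancel, v2s_act_one, neg_sub] at h1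
    exact h1

theorem v8_mem_triv (hf : ModFrame F N N' H) {s : AlgebraicClosure K ≃ₐ[K] AlgebraicClosure K} :
    s ∈ v8Triv hf ↔ ∀ x ∈ N', act A s x - x ∈ N := Iff.rfl

theorem v8_triv_conj (hf : ModFrame F N N' H)
    {s w : AlgebraicClosure K ≃ₐ[K] AlgebraicClosure K} (hw : w ∈ v8Triv hf) :
    s * w * s⁻¹ ∈ v8Triv hf := by
  intro x hx
  have h1 := hf.stabN s _ (hw _ (hf.stabN' s⁻¹ x hx))
  rw [v2s_act_sub, ← v2s_act_mul, ← v2s_act_mul, ← v2s_act_mul, mul_inv_cancel, v2s_act_one] at h1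
  exact h1

/-- The trace of a point rational over `L` modulo `N'`, with representatives in `G`, is rational over
`G` modulo `N'`. -/
theorem v8_trace (L : IntermediateField K (AlgebraicClosure K))
    (G : Subgroup (AlgebraicClosure K ≃ₐ[K] AlgebraicClosure K))
    (hN' : ∀ s, ∀ x ∈ N', act A s x ∈ N')
    [Fintype ((AlgebraicClosure K ≃ₐ[K] AlgebraicClosure K) ⧸ L.fixingSubgroup)]
    (ρ : (AlgebraicClosure K ≃ₐ[K] AlgebraicClosure K) ⧸ L.fixingSubgroup →
      AlgebraicClosure K ≃ₐ[K] AlgebraicClosure K)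
    (hρ : ∀ q, ρ q ∈ G)
    (hρ' : ∀ q,
      (ρ q : (AlgebraicClosure K ≃ₐ[K] AlgebraicClosure K) ⧸ L.fixingSubgroup) = q)
    (b : Pts A (AlgebraicClosure K)) (hb : b ∈ ratPts A (L.fixingSubgroup ⊓ G) N') :
    ∑ q, act A (ρ q) b ∈ ratPts A G N' := by
  intro g hg
  have h2 : ∀ q, act A g (act A (ρ q) b) - act A (ρ (g • q)) b ∈ N' := by
    intro q
    have h1 : ((g * ρ q : AlgebraicClosure K ≃ₐ[K] AlgebraicClosure K) :
        (AlgebraicClosure K ≃ₐ[K] AlgebraicClosure K) ⧸ L.fixingSubgroup) = g • q := by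
      rw [← smul_eq_mul, ← MulAction.Quotient.smul_coe, hρ']
    have h3 : (ρ (g • q))⁻¹ * (g * ρ q) ∈ L.fixingSubgroup := by
      rw [← QuotientGroup.eq, hρ', h1]
    have h4 : (ρ (g • q))⁻¹ * (g * ρ q) ∈ G :=
      G.mul_mem (G.inv_mem (hρ _)) (G.mul_mem hg (hρ q))
    have h5 := hN' (ρ (g • q)) _ (hb _ ⟨h3, h4⟩)
    rw [v2s_act_sub, ← v2s_act_mul, mul_inv_cancel_left, v2s_act_mul] at h5
    exact h5
  have e2 : ∑ q, act A (ρ (g • q)) b = ∑ q, act A (ρ q) b :=
    Equiv.sum_comp (MulAction.toPerm g) (fun q : (AlgebraicClosure K ≃ₐ[K]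
      AlgebraicClosure K) ⧸ L.fixingSubgroup => act A (ρ q) b)
  have h3 : act A g (∑ q, act A (ρ q) b) - ∑ q, act A (ρ q) b =
      ∑ q, (act A g (act A (ρ q) b) - act A (ρ (g • q)) b) := by
    rw [v2s_act_sum, Finset.sum_sub_distrib, e2]
  rw [h3]
  exact N'.sum_mem fun q _ => h2 q

end sign

end Pool.Agent.H.MP_ac3185_nt
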