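import Pool.Agent.H.MP_ac3185_nt.V8.Div
import Pool.Agent.H.MP_ac3185_nt.V6.Count

/-! Counting in one layer, and composition of the layers. -/

set_option autoImplicit false

open CategoryTheory AlgebraicGeometry NumberField IsDedekindDomain
open scoped MonObj

namespace Pool.Agent.H.MP_ac3185_nt

universe u

variable {K : Type u} [Field K] [NumberField K]

/-- The conclusion of `modGen`. -/
def GenFor (L F : IntermediateField K (AlgebraicClosure K)) (A : Over (Spec (.of K))) [GrpObj A]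
    [IsAbVar A] (N N' H : AddSubgroup (Pts A (AlgebraicClosure K))) : Prop :=
  ∃ c : Pts A (AlgebraicClosure K) → (L ⊔ F : IntermediateField K (AlgebraicClosure K)),
    (∀ P, c P ≠ 0) ∧
    (∀ P ∈ ratPts A L.fixingSubgroup N',
      ∃ d ∈ F, normG L F.fixingSubgroup (c P : AlgebraicClosure K) = d * d) ∧
    (∀ Ω : Set ((AlgebraicClosure K ≃ₐ[K] AlgebraicClosure K) ⧸ F.fixingSubgroup),
      (∀ x ∈ N', Even (Ω ∩ shadow F H x).ncard) →
      ∀ P ∈ ratPts A L.fixingSubgroup N', ∃ d : AlgebraicClosure K,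
        (∀ s ∈ L.fixingSubgroup, (∀ q ∈ Ω, s • q ∈ Ω) → s d = d) ∧
        ∏ᶠ q ∈ Ω, repG F L.fixingSubgroup q (c P : AlgebraicClosure K) = d * d) ∧
    (∀ P ∈ ratPts A L.fixingSubgroup N', ∀ Q ∈ ratPts A L.fixingSubgroup N',
      IsSquare (c P * c Q * c (P + Q))) ∧
    (∀ 𝔓, EtaleQuot F N' H 𝔓 → ∀ P ∈ ratPts A L.fixingSubgroup N', UnrAt (L ⊔ F) 𝔓 (c P)) ∧
    (∀ S 𝔓, EvenQuot L F N' H S 𝔓 → ∀ P ∈ ratPts A L.fixingSubgroup N',
      (∀ v ∈ S, ∀ 𝔔, PrimeOver F 𝔔 v → EvenAt (L ⊔ F) 𝔔 (c P)) → EvenAt (L ⊔ F) 𝔓 (c P)) ∧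
    (∀ e : AlgebraicClosure K →+* ℂ, (∀ x ∈ L ⊔ F, starRingEnd ℂ (e x) = e x) →
      (∀ s ∈ F.fixingSubgroup, (∀ z, e (s z) = starRingEnd ℂ (e z)) →
        ∀ x, act A s x - x ∈ N' → act A s x - x ∈ H) →
      ∀ P ∈ ratPts A L.fixingSubgroup N', ∃ t : ℝ, 0 < t ∧ e (c P) = t) ∧
    (∀ P ∈ ratPts A L.fixingSubgroup N', IsSquare (c P) →
      P ∈ ratPts A ⊤ N' ⊔ ratPts A L.fixingSubgroup N)

omit [NumberField K] in
/-- `L` and `F` are linearly disjoint. -/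
theorem v8_transOn (L F : IntermediateField K (AlgebraicClosure K)) {A : Over (Spec (.of K))}
    [GrpObj A] [IsAbVar A] {N N' H : AddSubgroup (Pts A (AlgebraicClosure K))}
    (hf : ModFrame F N N' H)
    (hlin : ∀ s, ∃ t ∈ L.fixingSubgroup, ∀ x ∈ N', act A (t⁻¹ * s) x - x ∈ N) :
    TransOn L F.fixingSubgroup := by
  intro s
  obtain ⟨t, ht, hw⟩ := hlin s⁻¹
  have h1 : t⁻¹ * s⁻¹ ∈ F.fixingSubgroup := hf.sub _ hw
  refine ⟨(t⁻¹ * s⁻¹)⁻¹, inv_mem h1, ?_⟩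
  have h2 : ((t⁻¹ * s⁻¹)⁻¹)⁻¹ * s = t⁻¹ := by group
  rw [h2]
  exact inv_mem ht

/-- One layer. -/
theorem v8_layer (L F : IntermediateField K (AlgebraicClosure K)) [FiniteDimensional K L]
    [FiniteDimensional K F] (hodd : Odd (Module.finrank K L)) (ρ : ℕ)
    (Rel : Set (Set ((AlgebraicClosure K ≃ₐ[K] AlgebraicClosure K) ⧸ F.fixingSubgroup)))
    (T : Set (HeightOneSpectrum (𝓞 F))) (R : Set (F →+* ℂ))
    (hρ : SquareClasses (frameClasses L F Rel T R) (2 ^ ρ)) (S : Finset (HeightOneSpectrum (𝓞 F)))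
    {A : Over (Spec (.of K))} [GrpObj A] [IsAbVar A]
    {N N' H : AddSubgroup (Pts A (AlgebraicClosure K))} (hf : LayerAt L F Rel T R S N N' H)
    (hgen : GenFor L F A N N' H) :
    CosetCover (ratPts A L.fixingSubgroup N')
      (ratPts A ⊤ N' ⊔ ratPts A L.fixingSubgroup N) (2 ^ (ρ + excessOver L F S)) := by
  obtain ⟨c, h0, h1, h1', h2, h3, h4, h5, h6⟩ := hgen
  obtain ⟨i1, i2⟩ := v8_index L F hodd (v8_transOn L F hf.toModFrame hf.lin)
    (ratPts A L.fixingSubgroup N') (ratPts A ⊤ N' ⊔ ratPts A L.fixingSubgroup N) S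
    (frameClasses L F Rel T R) (2 ^ ρ)
    (v2c_covered hρ fun a ha => ha.1) c h0 h1 h2 h6 (by
      intro P hP hS
      refine ⟨h0 P, h1 P hP, fun Ω hΩ => h1' Ω (hf.rel Ω hΩ) P hP, fun v 𝔓 hv hcase => ?_,
        fun v 𝔓 hv hv2 hvT => ?_, fun e heR he => h5 e he
          (fun s hsF hs => hf.real e s heR hsF hs) P hP⟩
      · have h𝔓 := v6_finPrime hv
        by_cases hvT : v ∈ T
        · exact h3 𝔓 (hf.etale v hvT 𝔓 hv) P hP
        · have hv2 : (2 : 𝓞 F) ∉ v.asIdeal := hcase.resolve_right hvT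
          have h2' : (2 : 𝓞 (AlgebraicClosure K)) ∉ 𝔓 := fun h => hv2 ((v6_two_mem hv).1 h)
          by_cases hvS : v ∈ S
          · exact vu_unr (L ⊔ F) h𝔓 h2' (c P).2 (hS v hvS 𝔓 hv)
          · rcases hf.away v hvS hv2 with h | h
            · exact h3 𝔓 (h 𝔓 hv) P hP
            · exact vu_unr (L ⊔ F) h𝔓 h2' (c P).2 (h4 S 𝔓 (h 𝔓 hv) P hP hS)
      · by_cases hvS : v ∈ S
        · exact hS v hvS 𝔓 hv
        · exact h4 S 𝔓 (hf.two v hvS hvT hv2 𝔓 hv) P hP hS)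
  refine v8_cover_of_index _ _ _ i1 (i2.trans (le_of_eq ?_))
  rw [pow_add]

/-- All layers. -/
theorem v8_chain (L : IntermediateField K (AlgebraicClosure K)) [FiniteDimensional K L]
    (hodd : Odd (Module.finrank K L)) (A : Over (Spec (.of K))) [GrpObj A] [IsAbVar A]
    (hgen : ∀ (F : IntermediateField K (AlgebraicClosure K)) [FiniteDimensional K F]
      (N N' H : AddSubgroup (Pts A (AlgebraicClosure K))), ModFrame F N N' H →
      (∀ s, ∃ t ∈ L.fixingSubgroup, ∀ x ∈ N', act A (t⁻¹ * s) x - x ∈ N) → GenFor L F A N N' H)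
    (N : AddSubgroup (Pts A (AlgebraicClosure K))) (b : ℕ) (hc : ModChain L A N b) :
    CosetCover (ratPts A L.fixingSubgroup N)
      (ratPts A ⊤ N ⊔ ratPts A L.fixingSubgroup ⊥) (2 ^ b) := by
  induction hc with
  | zero => exact v8_cover_refl _ le_sup_right
  | step N N' H b ρ F Rel T R S _ hf hρ ih =>
    have hle : N ≤ N' := fun x hx => hf.le' (hf.le hx)
    have h1 := v8_cover_comp (ratPts_mono A ⊤ hle) (ratPts_mono A L.fixingSubgroup hle) ih
      (v8_layer L F hodd ρ Rel T R hρ S hf (hgen F N N' H hf.toModFrame hf.lin))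
    rwa [← pow_add] at h1

end Pool.Agent.H.MP_ac3185_nt
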