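import Pool.Agent.H.MP_ac3185_nt.V8.Sign

/-! Parallel transfer, for subgroups of `A(Kbar)`: the element attached to a point which is rational
over `L` modulo `N'`. -/

set_option autoImplicit false

open CategoryTheory AlgebraicGeometry NumberField IsDedekindDomain
open scoped MonObj

namespace Pool.Agent.H.MP_ac3185_nt

universe u

section pt

variable {K : Type u} [Field K] {A : Over (Spec (.of K))} [GrpObj A] [IsAbVar A]
  (L F M : IntermediateField K (AlgebraicClosure K))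
  {N N' H : AddSubgroup (Pts A (AlgebraicClosure K))}

/-- The elements `s` of `Gal(Kbar/F)` with `s b - b` in `H`. -/
noncomputable def v8PtStab (hf : ModFrame F N N' H) (b : Pts A (AlgebraicClosure K)) :
    Subgroup (AlgebraicClosure K ≃ₐ[K] AlgebraicClosure K) where
  carrier := {s | s ∈ F.fixingSubgroup ∧ act A s b - b ∈ H}
  one_mem' := by
    refine ⟨one_mem _, ?_⟩
    rw [v2s_act_one, sub_self]
    exact H.zero_mem
  mul_mem' := by
    rintro s t ⟨hs, hs'⟩ ⟨ht, ht'⟩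
    refine ⟨mul_mem hs ht, ?_⟩
    rw [v6_act_diff]
    exact H.add_mem (hf.stab s hs _ ht') hs'
  inv_mem' := by
    rintro s ⟨hs, hs'⟩
    refine ⟨inv_mem hs, ?_⟩
    have h1 := hf.stab s⁻¹ (inv_mem hs) _ hs'
    rw [v2s_act_sub, ← v2s_act_mul, inv_mul_cancel, v2s_act_one] at h1
    have h2 := H.neg_mem h1
    rwa [neg_sub] at h2

theorem v8_sup {s : AlgebraicClosure K ≃ₐ[K] AlgebraicClosure K} :
    s ∈ (L ⊔ F ⊔ M).fixingSubgroup ↔
      s ∈ L.fixingSubgroup ∧ s ∈ F.fixingSubgroup ∧ s ∈ M.fixingSubgroup := by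
  rw [IntermediateField.fixingSubgroup_sup, IntermediateField.fixingSubgroup_sup]
  exact ⟨fun h => ⟨h.1.1, h.1.2, h.2⟩, fun h => ⟨⟨h.1, h.2.1⟩, h.2.2⟩⟩

/-- The quadratic character attached to a point. -/
theorem v8_data [CharZero K] [FiniteDimensional K L] [FiniteDimensional K F]
    [FiniteDimensional K M] (hf : ModFrame F N N' H) (b : Pts A (AlgebraicClosure K))
    (hb : b ∈ ratPts A (L.fixingSubgroup ⊓ M.fixingSubgroup) N') :
    ∃ r : AlgebraicClosure K, r ≠ 0 ∧ ∀ s ∈ L.fixingSubgroup, s ∈ F.fixingSubgroup →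
      s ∈ M.fixingSubgroup → s r = sgH H (act A s b - b) * r := by
  have hfd1 : FiniteDimensional K (L ⊔ F : IntermediateField K (AlgebraicClosure K)) :=
    IntermediateField.finiteDimensional_sup L F
  have hfd : FiniteDimensional K (L ⊔ F ⊔ M : IntermediateField K (AlgebraicClosure K)) :=
    IntermediateField.finiteDimensional_sup _ M
  obtain ⟨E, hE, hEb⟩ := vf_finite A b
  let U := v8PtStab F hf b ⊓ (L ⊔ F ⊔ M).fixingSubgroup
  have hsup : ∀ s ∈ (L ⊔ F ⊔ M).fixingSubgroup, s ∈ L.fixingSubgroup ∧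
      s ∈ F.fixingSubgroup ∧ s ∈ M.fixingSubgroup := fun s hs => (v8_sup L F M).1 hs
  obtain ⟨r, hr, hr1, hr2⟩ := vk_kummer (L ⊔ F ⊔ M) E U inf_le_right (fun s hs hs' => by
      refine ⟨⟨(hsup s hs).2.1, ?_⟩, hs⟩
      have h1 : act A s b = b := hEb s hs'
      rw [h1, sub_self]
      exact H.zero_mem) (by
    intro s hs t ht hsN htN
    refine ⟨⟨mul_mem (hsup s hs).2.1 (hsup t ht).2.1, ?_⟩, mul_mem hs ht⟩
    rw [v6_act_diff]
    refine hf.index _ (hf.stabN' s _ (hb t ⟨(hsup t ht).1, (hsup t ht).2.2⟩)) _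
      (hb s ⟨(hsup s hs).1, (hsup s hs).2.2⟩) ?_ ?_
    · intro h
      exact htN ⟨⟨(hsup t ht).2.1, (v8_act_mem hf (hsup s hs).2.1 _).1 h⟩, ht⟩
    · intro h
      exact hsN ⟨⟨(hsup s hs).2.1, h⟩, hs⟩)
  refine ⟨r, hr, fun s hs hs' hs'' => ?_⟩
  have hs2 : s ∈ (L ⊔ F ⊔ M).fixingSubgroup := (v8_sup L F M).2 ⟨hs, hs', hs''⟩
  by_cases h : act A s b - b ∈ H
  · rw [sgH_mem h, one_mul]
    exact hr1 s ⟨⟨hs', h⟩, hs2⟩
  · rw [sgH_not h, neg_mul, one_mul]
    exact hr2 s hs2 fun h' => h h'.1.2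

/-- Parallel transfer from `Gal(Kbar/L) ∩ G` to `G`, for a subgroup `G` of `Gal(Kbar/F)`. -/
theorem v8_par (hf : ModFrame F N N' H)
    (G : Subgroup (AlgebraicClosure K ≃ₐ[K] AlgebraicClosure K)) (hGF : G ≤ F.fixingSubgroup)
    [Fintype ((AlgebraicClosure K ≃ₐ[K] AlgebraicClosure K) ⧸ L.fixingSubgroup)]
    (ρ : (AlgebraicClosure K ≃ₐ[K] AlgebraicClosure K) ⧸ L.fixingSubgroup →
      AlgebraicClosure K ≃ₐ[K] AlgebraicClosure K)
    (hρ : ∀ q, ρ q ∈ G ∧
      (ρ q : (AlgebraicClosure K ≃ₐ[K] AlgebraicClosure K) ⧸ L.fixingSubgroup) = q)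
    (r : AlgebraicClosure K) (b : Pts A (AlgebraicClosure K))
    (hb : b ∈ ratPts A (L.fixingSubgroup ⊓ G) N')
    (h : ∀ s ∈ L.fixingSubgroup, s ∈ G → s r = sgH H (act A s b - b) * r)
    (g : AlgebraicClosure K ≃ₐ[K] AlgebraicClosure K) (hg : g ∈ G) :
    g (∏ q, ρ q r) = sgH H (act A g (∑ q, act A (ρ q) b) - ∑ q, act A (ρ q) b) *
      ∏ q, ρ q r := by
  classical
  let w : (AlgebraicClosure K ≃ₐ[K] AlgebraicClosure K) ⧸ L.fixingSubgroup →
    AlgebraicClosure K ≃ₐ[K] AlgebraicClosure K := fun q => (ρ (g • q))⁻¹ * (g * ρ q)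
  have hw : ∀ q, w q ∈ L.fixingSubgroup ∧ w q ∈ G := by
    intro q
    constructor
    · show (ρ (g • q))⁻¹ * (g * ρ q) ∈ L.fixingSubgroup
      have h1 : ((g * ρ q : AlgebraicClosure K ≃ₐ[K] AlgebraicClosure K) :
          (AlgebraicClosure K ≃ₐ[K] AlgebraicClosure K) ⧸ L.fixingSubgroup) = g • q := by
        rw [← smul_eq_mul, ← MulAction.Quotient.smul_coe, (hρ q).2]
      rw [← QuotientGroup.eq, (hρ _).2, h1]
    · exact mul_mem (inv_mem (hρ _).1) (mul_mem hg (hρ q).1)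
  have hgw : ∀ q, g * ρ q = ρ (g • q) * w q := fun q => by
    show g * ρ q = ρ (g • q) * ((ρ (g • q))⁻¹ * (g * ρ q))
    rw [mul_inv_cancel_left]
  have h1 : ∀ q, g (ρ q r) = sgH H (act A (w q) b - b) * ρ (g • q) r := by
    intro q
    rw [← AlgEquiv.mul_apply, hgw, AlgEquiv.mul_apply, h _ (hw q).1 (hw q).2, map_mul, sgH_gal]
  have h2 : ∀ q, act A g (act A (ρ q) b) =
      act A (ρ (g • q)) b + act A (ρ (g • q)) (act A (w q) b - b) := by
    intro q
    rw [← v2s_act_mul, hgw, v2s_act_mul, v2s_act_sub]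
    abel
  have e1 : ∏ q, ρ (g • q) r = ∏ q, ρ q r :=
    Equiv.prod_comp (MulAction.toPerm g) (fun q : (AlgebraicClosure K ≃ₐ[K]
        AlgebraicClosure K) ⧸ L.fixingSubgroup => ρ q r)
  have e2 : ∑ q, act A (ρ (g • q)) b = ∑ q, act A (ρ q) b :=
    Equiv.sum_comp (MulAction.toPerm g) (fun q : (AlgebraicClosure K ≃ₐ[K]
        AlgebraicClosure K) ⧸ L.fixingSubgroup => act A (ρ q) b)
  have h3 : act A g (∑ q, act A (ρ q) b) - ∑ q, act A (ρ q) b =
      ∑ q, act A (ρ (g • q)) (act A (w q) b - b) := by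
    rw [v2s_act_sum, Finset.sum_congr rfl fun q _ => h2 q, Finset.sum_add_distrib, e2,
      add_sub_cancel_left]
  rw [h3, map_prod, Finset.prod_congr rfl fun q _ => h1 q, Finset.prod_mul_distrib, e1,
    v8_sg_sum hf _ _ fun q _ => hf.stabN' _ _ (hb _ (hw q))]
  congr 1
  exact Finset.prod_congr rfl fun q _ => (v8_sg_act hf (hGF (hρ _).1) _).symm

/-- The sum of the conjugates of `P` under the representatives of `Gal(Kbar/K) / Gal(Kbar/L)` in
`G`. -/
noncomputable def v8Tr (A : Over (Spec (.of K))) [GrpObj A] [IsAbVar A]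
    (L : IntermediateField K (AlgebraicClosure K))
    (G : Subgroup (AlgebraicClosure K ≃ₐ[K] AlgebraicClosure K))
    (P : Pts A (AlgebraicClosure K)) : Pts A (AlgebraicClosure K) :=
  ∑ᶠ q : (AlgebraicClosure K ≃ₐ[K] AlgebraicClosure K) ⧸ L.fixingSubgroup, act A (repG L G q) P

theorem v8_tr_add [CharZero K] [FiniteDimensional K L]
    (G : Subgroup (AlgebraicClosure K ≃ₐ[K] AlgebraicClosure K))
    (P Q : Pts A (AlgebraicClosure K)) :
    v8Tr A L G (P + Q) = v8Tr A L G P + v8Tr A L G Q := by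
  have hfi := vn_finiteIndex L
  let _ := L.fixingSubgroup.fintypeQuotientOfFiniteIndex
  unfold v8Tr
  rw [finsum_eq_sum_of_fintype, finsum_eq_sum_of_fintype, finsum_eq_sum_of_fintype,
    ← Finset.sum_add_distrib]
  exact Finset.sum_congr rfl fun q _ => v8_act_add A _ P Q

/-- The element attached to a point `P`: with `β = P + Tr P`. -/
theorem v8_pt [CharZero K] [FiniteDimensional K L] [FiniteDimensional K F]
    [FiniteDimensional K M] (hodd : Odd (Module.finrank K L))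
    (hT : TransOn L (F.fixingSubgroup ⊓ M.fixingSubgroup)) (hf : ModFrame F N N' H)
    (P : Pts A (AlgebraicClosure K))
    (hP : P ∈ ratPts A (L.fixingSubgroup ⊓ M.fixingSubgroup) N') :
    ∃ u : AlgebraicClosure K, u ≠ 0 ∧
      v8Tr A L (F.fixingSubgroup ⊓ M.fixingSubgroup) P ∈
        ratPts A (F.fixingSubgroup ⊓ M.fixingSubgroup) N' ∧
      (∀ s ∈ L.fixingSubgroup, s ∈ F.fixingSubgroup → s ∈ M.fixingSubgroup → s u =
        sgH H (act A s (P + v8Tr A L (F.fixingSubgroup ⊓ M.fixingSubgroup) P) -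
          (P + v8Tr A L (F.fixingSubgroup ⊓ M.fixingSubgroup) P)) * u) ∧
      ∃ d, FixG (F.fixingSubgroup ⊓ M.fixingSubgroup) d ∧
        normG L (F.fixingSubgroup ⊓ M.fixingSubgroup) (u * u) = d * d := by
  have hfi := vn_finiteIndex L
  let _ := L.fixingSubgroup.fintypeQuotientOfFiniteIndex
  set G := F.fixingSubgroup ⊓ M.fixingSubgroup with hG
  have hPG : P ∈ ratPts A (L.fixingSubgroup ⊓ G) N' := fun s hs => hP s ⟨hs.1, hs.2.2⟩
  obtain ⟨r, hr, h⟩ := v8_data L F M hf P hP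
  obtain ⟨R, hR⟩ : ∃ R, R = ∏ q, repG L G q r := ⟨_, rfl⟩
  obtain ⟨S, hS⟩ : ∃ S, S = ∑ q, act A (repG L G q) P := ⟨_, rfl⟩
  have hTr : v8Tr A L G P = S := by
    rw [hS]
    exact finsum_eq_sum_of_fintype _
  have hSker : S ∈ ratPts A G N' := by
    rw [hS]
    exact v8_trace L G hf.stabN' _ (fun q => (v4_rep L G hT q).1)
      (fun q => (v4_rep L G hT q).2) P hPG
  have hRS : ∀ g ∈ G, g R = sgH H (act A g S - S) * R := by
    intro g hg
    rw [hR, hS]
    exact v8_par L F hf G inf_le_left _ (v4_rep L G hT) r P hPG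
      (fun s hs hs' => h s hs hs'.1 hs'.2) g hg
  have hnr : normG L G r = R := by
    rw [hR]
    exact finprod_eq_prod_of_fintype _
  have hR0 : R ≠ 0 := by
    rw [← hnr]
    exact v4_norm_ne L G hr
  have hsg : ∀ x : Pts A (AlgebraicClosure K), sgH H x * sgH H x = 1 := sgH_mul_self
  have hNa : normG L G (r * r) = R * R := by
    rw [v4_norm_mul, hnr]
  have hNfix : FixG G (R * R) := by
    intro g hg
    rw [map_mul, hRS g hg]
    have h1 := hsg (act A g S - S)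
    calc _ = sgH H (act A g S - S) * sgH H (act A g S - S) * (R * R) := by ring
      _ = R * R := by rw [h1, one_mul]
  refine ⟨r * R, mul_ne_zero hr hR0, ?_, ?_, ?_⟩
  · rw [hTr]
    exact hSker
  · intro s hs hs' hs''
    rw [hTr]
    have h1 : act A s (P + S) - (P + S) = (act A s P - P) + (act A s S - S) := by
      rw [v8_act_add]
      abel
    rw [h1, v8_sg_add hf (hP s ⟨hs, hs''⟩) (hSker s ⟨hs', hs''⟩), map_mul, h s hs hs' hs'',
      hRS s ⟨hs', hs''⟩]
    ring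
  · obtain ⟨k, hk⟩ := hodd
    refine ⟨(R * R) ^ (k + 1), fun s hs => by rw [map_pow, hNfix s hs], ?_⟩
    have h1 : r * R * (r * R) = (r * r) * (R * R) := by ring
    rw [h1, v4_norm_mul, hNa, v4_norm_pow L G hT hNfix, hk]
    ring

end pt

end Pool.Agent.H.MP_ac3185_nt
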