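import Pool.Agent.H.MP_ac3185_nt.Points

/-! Membership. -/

set_option autoImplicit false

open CategoryTheory AlgebraicGeometry NumberField IsDedekindDomain
open scoped MonObj

namespace Pool.Agent.H.MP_ac3185_nt

universe u

section field

variable {K : Type u} [Field K]

/-- `x` is in the subgroup `N` of `A(Kbar)`. -/
abbrev InSub {A : Over (Spec (.of K))} [GrpObj A] [IsAbVar A]
    (N : AddSubgroup (Pts A (AlgebraicClosure K))) (x : Pts A (AlgebraicClosure K)) : Prop :=
  x ∈ N

end field

end Pool.Agent.H.MP_ac3185_nt
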