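import Pool.Agent.H.MP_ac3185_nt.V6.Defs
import Pool.Agent.H.MP_ac3185_nt.V8.InSub

/-! Definitions for the descent along Galois stable subgroups `N ≤ N'` of `A(Kbar)` with `2 N' ≤ N`. -/

set_option autoImplicit false

open CategoryTheory AlgebraicGeometry NumberField IsDedekindDomain
open scoped MonObj

namespace Pool.Agent.H.MP_ac3185_nt

universe u

section field

variable {K : Type u} [Field K]

theorem v8_act_add (A : Over (Spec (.of K))) [GrpObj A] [IsAbVar A]
    (s : AlgebraicClosure K ≃ₐ[K] AlgebraicClosure K) (x y : Pts A (AlgebraicClosure K)) :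
    act A s (x + y) = act A s x + act A s y :=
  map_add (galHom A s) x y

/-- The points `x` of `A(Kbar)` whose class in `A(Kbar) / N` is fixed by the subgroup `S` of the
Galois group: `s x - x ∈ N` for all `s` in `S`. -/
def ratPts (A : Over (Spec (.of K))) [GrpObj A] [IsAbVar A]
    (S : Subgroup (AlgebraicClosure K ≃ₐ[K] AlgebraicClosure K))
    (N : AddSubgroup (Pts A (AlgebraicClosure K))) : AddSubgroup (Pts A (AlgebraicClosure K)) where
  carrier := {x | ∀ s ∈ S, act A s x - x ∈ N}
  zero_mem' := by
    intro s _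
    have h : act A s 0 = 0 := map_zero (galHom A s)
    rw [h, sub_zero]
    exact N.zero_mem
  add_mem' := by
    intro x y hx hy s hs
    have h : act A s (x + y) - (x + y) = (act A s x - x) + (act A s y - y) := by
      rw [v8_act_add]
      abel
    rw [h]
    exact N.add_mem (hx s hs) (hy s hs)
  neg_mem' := by
    intro x hx s hs
    have h : act A s (-x) - (-x) = -(act A s x - x) := by
      have h1 : act A s (-x) = -act A s x := map_neg (galHom A s) x
      rw [h1]
      abel
    rw [h]
    exact N.neg_mem (hx s hs)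

theorem mem_ratPts {A : Over (Spec (.of K))} [GrpObj A] [IsAbVar A]
    {S : Subgroup (AlgebraicClosure K ≃ₐ[K] AlgebraicClosure K)}
    {N : AddSubgroup (Pts A (AlgebraicClosure K))} {x : Pts A (AlgebraicClosure K)} :
    x ∈ ratPts A S N ↔ ∀ s ∈ S, act A s x - x ∈ N := Iff.rfl

/-- `N ≤ H ≤ N'` are subgroups of `A(Kbar)`, where `N` and `N'` are stable under the Galois group of
`K`, `H` has index at most `2` in `N'` and is stable under `Gal(Kbar/F)`, and the conjugates of `H`
have intersection `N` (so `N' / N` is killed by `2`); the automorphisms of `Kbar` which act trivially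
on `N' / N` fix `F`.
Examples: (1) `N' / N` of order `2`, `H = N`, `F = K`; (2) `N' / N` is a simple Galois module killed by
`2`, `H` any subgroup of index `2` of `N'` containing `N`, `F` the field fixed by its stabilizer; for
instance `N = 0`, `N' = A[2]` for an elliptic curve `A` without `K`-rational points of order `2`,
`H = {0, t}`, `F = K(t)`; (3) `N = 0`, `N' = A[2]` for the Jacobian `A` of the curve `y² = f(x)`, where
`f` is irreducible of odd degree: `F = K(α)` for a root `α` of `f`, and `H` consists of the subsets of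
the set of the roots with an even number of elements which do not contain `α`. -/
structure ModFrame (F : IntermediateField K (AlgebraicClosure K))
    {A : Over (Spec (.of K))} [GrpObj A] [IsAbVar A]
    (N N' H : AddSubgroup (Pts A (AlgebraicClosure K))) : Prop where
  stabN : ∀ s x, InSub N x → InSub N (act A s x)
  stabN' : ∀ s x, InSub N' x → InSub N' (act A s x)
  le : ∀ ⦃x⦄, InSub N x → InSub H x
  le' : ∀ ⦃x⦄, InSub H x → InSub N' x
  index : ∀ x, InSub N' x → ∀ y, InSub N' y → ¬ InSub H x → ¬ InSub H y → InSub H (x + y)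
  stab : ∀ s ∈ F.fixingSubgroup, ∀ x, InSub H x → InSub H (act A s x)
  core : ∀ x, InSub N' x → (∀ g, InSub H (act A g x)) → InSub N x
  sub : ∀ s, (∀ x, InSub N' x → InSub N (act A s x - x)) → s ∈ F.fixingSubgroup

/-- The quotient `N' / H` is etale at `𝔓`: there is a homomorphism on `A(Kbar)` which is constant on
the orbits of the elements of `Gal(Kbar/F)` in the inertia group of `𝔓`, and whose kernel meets `N'` in
a subgroup of `H`. -/
def EtaleQuot (F : IntermediateField K (AlgebraicClosure K)) {A : Over (Spec (.of K))} [GrpObj A]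
    [IsAbVar A] (N' H : AddSubgroup (Pts A (AlgebraicClosure K)))
    (𝔓 : Ideal (𝓞 (AlgebraicClosure K))) : Prop :=
  ∃ (R : Type u) (_ : AddCommGroup R) (r : Pts A (AlgebraicClosure K) →+ R),
    (∀ s ∈ inertia K 𝔓, s ∈ F.fixingSubgroup → ∀ x, r (act A s x) = r x) ∧
      ∀ x, InSub N' x → r x = 0 → InSub H x

/-- If the class of `x` modulo `N'` is rational over `L`, and `s x - x` lies in `H` exactly for the `s`
in `Gal(Kbar/LF)` which fix `z`, where `a = z²` is in `LF`, and if `a` has even valuation at the places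
of `LF` above the places of `F` in `S`, then `a` has even valuation at the place of `LF` below `𝔓`. -/
def EvenQuot (L F : IntermediateField K (AlgebraicClosure K)) {A : Over (Spec (.of K))} [GrpObj A]
    [IsAbVar A] (N' H : AddSubgroup (Pts A (AlgebraicClosure K)))
    (S : Finset (HeightOneSpectrum (𝓞 F))) (𝔓 : Ideal (𝓞 (AlgebraicClosure K))) : Prop :=
  ∀ (x : Pts A (AlgebraicClosure K)) (z : AlgebraicClosure K), z ≠ 0 → z * z ∈ L ⊔ F →
    (∀ s ∈ L.fixingSubgroup, InSub N' (act A s x - x)) →
    (∀ s ∈ (L ⊔ F).fixingSubgroup, InSub H (act A s x - x) ↔ s z = z) →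
    (∀ v ∈ S, ∀ 𝔔, PrimeOver F 𝔔 v → EvenAt (L ⊔ F) 𝔔 (z * z)) → EvenAt (L ⊔ F) 𝔓 (z * z)

end field

section numberField

variable {K : Type u} [Field K] [NumberField K]

/-- `N ≤ H ≤ N'` are subgroups of `A(Kbar)` with `ModFrame F N N' H` such that: `L` is linearly
disjoint from the field given by the automorphisms which act trivially on `N' / N`; for all `Ω` in
`Rel` and `x` in `N'` the number of the classes `g Gal(Kbar/F)` in `Ω` with `g⁻¹ x ∉ H` is even;
`N' / H` is etale at the places of `F` in `T`; at the other places above `2` outside `S` its fibres are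
even; at the finite places outside `S` which do not lie above `2`, `N' / H` is etale or the fibres are
even; if `s x - x` is in `N'` for a complex conjugation `s` in `Gal(Kbar/F)` above an embedding in `R`,
then it is in `H`. -/
structure LayerAt (L F : IntermediateField K (AlgebraicClosure K))
    (Rel : Set (Set ((AlgebraicClosure K ≃ₐ[K] AlgebraicClosure K) ⧸ F.fixingSubgroup)))
    (T : Set (HeightOneSpectrum (𝓞 F))) (R : Set (F →+* ℂ)) (S : Finset (HeightOneSpectrum (𝓞 F)))
    {A : Over (Spec (.of K))} [GrpObj A] [IsAbVar A]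
    (N N' H : AddSubgroup (Pts A (AlgebraicClosure K))) : Prop extends ModFrame F N N' H where
  lin : ∀ s, ∃ t ∈ L.fixingSubgroup, ∀ x, InSub N' x → InSub N (act A (t⁻¹ * s) x - x)
  rel : ∀ Ω ∈ Rel, ∀ x, InSub N' x → Even (Ω ∩ shadow F H x).ncard
  etale : ∀ v ∈ T, ∀ 𝔓, PrimeOver F 𝔓 v → EtaleQuot F N' H 𝔓
  two : ∀ v ∉ S, v ∉ T → 2 ∈ v.asIdeal → ∀ 𝔓, PrimeOver F 𝔓 v → EvenQuot L F N' H S 𝔓
  away : ∀ v ∉ S, 2 ∉ v.asIdeal → (∀ 𝔓, PrimeOver F 𝔓 v → EtaleQuot F N' H 𝔓) ∨
    ∀ 𝔓, PrimeOver F 𝔓 v → EvenQuot L F N' H S 𝔓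
  real : ∀ (e : AlgebraicClosure K →+* ℂ) (s : AlgebraicClosure K ≃ₐ[K] AlgebraicClosure K),
    e.comp (algebraMap F (AlgebraicClosure K)) ∈ R → s ∈ F.fixingSubgroup →
    (∀ z, e (s z) = starRingEnd ℂ (e z)) →
    ∀ x, InSub N' (act A s x - x) → InSub H (act A s x - x)

/-- `ModChain L A N b`: there are subgroups `0 = N_0 ≤ ⋯ ≤ N_r = N` of `A(Kbar)` such that
`LayerAt L F Rel T R S N_(i-1) N_i H` holds for all `i` (where `F`, `H`, `Rel`, `T`, `R`, `S` depend on
`i`), and `b` is the sum over `i` of the numbers `ρ + ∑ (g_v - 1)`, `v ∈ S`, where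
`frameClasses L F Rel T R` consists of at most `2 ^ ρ` classes modulo squares, and `g_v` is the number
of places of `LF` above the place `v` of `F`. -/
inductive ModChain (L : IntermediateField K (AlgebraicClosure K))
    (A : Over (Spec (.of K))) [GrpObj A] [IsAbVar A] :
    AddSubgroup (Pts A (AlgebraicClosure K)) → ℕ → Prop
  | zero : ModChain L A ⊥ 0
  | step (N N' H : AddSubgroup (Pts A (AlgebraicClosure K))) (b ρ : ℕ)
      (F : IntermediateField K (AlgebraicClosure K)) [FiniteDimensional K F]
      (Rel : Set (Set ((AlgebraicClosure K ≃ₐ[K] AlgebraicClosure K) ⧸ F.fixingSubgroup)))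
      (T : Set (HeightOneSpectrum (𝓞 F))) (R : Set (F →+* ℂ))
      (S : Finset (HeightOneSpectrum (𝓞 F))) :
      ModChain L A N b → LayerAt L F Rel T R S N N' H →
      SquareClasses (frameClasses L F Rel T R) (2 ^ ρ) →
      ModChain L A N' (b + (ρ + excessOver L F S))

end numberField

end Pool.Agent.H.MP_ac3185_nt
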