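import Pool.Agent.H.MP_ac3185_nt.V8.Index
import Pool.Agent.H.MP_ac3185_nt.V8.Defs
import Pool.Agent.H.MP_ac3185_nt.V.DivK

/-! Points which are Galois invariant modulo a subgroup, and division by `n`. -/

set_option autoImplicit false

open CategoryTheory AlgebraicGeometry NumberField IsDedekindDomain
open scoped MonObj

namespace Pool.Agent.H.MP_ac3185_nt

universe u

section field

variable {K : Type u} [Field K]

theorem mem_ratPts_bot {A : Over (Spec (.of K))} [GrpObj A] [IsAbVar A]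
    {S : Subgroup (AlgebraicClosure K ≃ₐ[K] AlgebraicClosure K)}
    {x : Pts A (AlgebraicClosure K)} :
    x ∈ ratPts A S ⊥ ↔ ∀ s ∈ S, act A s x = x := by
  rw [mem_ratPts]
  exact forall₂_congr fun s _ => by rw [AddSubgroup.mem_bot, sub_eq_zero]

theorem ratPts_anti (A : Over (Spec (.of K))) [GrpObj A] [IsAbVar A]
    {S S' : Subgroup (AlgebraicClosure K ≃ₐ[K] AlgebraicClosure K)} (h : S ≤ S')
    (N : AddSubgroup (Pts A (AlgebraicClosure K))) : ratPts A S' N ≤ ratPts A S N :=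
  fun _ hx s hs => hx s (h hs)

theorem ratPts_mono (A : Over (Spec (.of K))) [GrpObj A] [IsAbVar A]
    (S : Subgroup (AlgebraicClosure K ≃ₐ[K] AlgebraicClosure K))
    {N N' : AddSubgroup (Pts A (AlgebraicClosure K))} (h : N ≤ N') :
    ratPts A S N ≤ ratPts A S N' :=
  fun _ hx s hs => h (hx s hs)

/-- `A(L)` is the union of at most `2 ^ b` cosets `t + (A(K) + n A(L))`. -/
def MulBound (A : Over (Spec (.of K))) [GrpObj A] [IsAbVar A]
    (L : IntermediateField K (AlgebraicClosure K)) (n b : ℕ) : Prop :=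
  ∃ T : Finset (Pts A (AlgebraicClosure K)), T.card ≤ 2 ^ b ∧
    (∀ t ∈ T, ∀ s ∈ L.fixingSubgroup, act A s t = t) ∧
    ∀ y, (∀ s ∈ L.fixingSubgroup, act A s y = y) → ∃ t ∈ T, ∃ y₀ x,
      (∀ s, act A s y₀ = y₀) ∧ (∀ s ∈ L.fixingSubgroup, act A s x = x) ∧ y = t + (y₀ + n • x)

theorem v8_act_smul (A : Over (Spec (.of K))) [GrpObj A] [IsAbVar A]
    (s : AlgebraicClosure K ≃ₐ[K] AlgebraicClosure K) (n : ℕ) (x : Pts A (AlgebraicClosure K)) :
    act A s (n • x) = n • act A s x := map_nsmul (galHom A s) n x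

/-- Division by `n`. -/
theorem v8_div (A : Over (Spec (.of K))) [GrpObj A] [IsAbVar A]
    (S G : Subgroup (AlgebraicClosure K ≃ₐ[K] AlgebraicClosure K)) (n : ℕ)
    (N : AddSubgroup (Pts A (AlgebraicClosure K))) (hN : ∀ x, x ∈ N ↔ n • x = 0)
    (hdiv : ∀ x : Pts A (AlgebraicClosure K), ∃ y, n • y = x) (k : ℕ)
    (hc : CosetCover (ratPts A S N) (ratPts A G N ⊔ ratPts A S ⊥) k) :
    ∃ T : Finset (Pts A (AlgebraicClosure K)), T.card ≤ k ∧
      (∀ t ∈ T, ∀ s ∈ S, act A s t = t) ∧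
      ∀ y, (∀ s ∈ S, act A s y = y) → ∃ t ∈ T, ∃ y₀ x,
        (∀ s ∈ G, act A s y₀ = y₀) ∧ (∀ s ∈ S, act A s x = x) ∧ y = t + (y₀ + n • x) := by
  classical
  obtain ⟨T, hT, hT1, hT2⟩ := hc
  have hfix : ∀ (H : Subgroup (AlgebraicClosure K ≃ₐ[K] AlgebraicClosure K))
      (x : Pts A (AlgebraicClosure K)), x ∈ ratPts A H N ↔ ∀ s ∈ H, act A s (n • x) = n • x := by
    intro H x
    rw [mem_ratPts]
    refine forall₂_congr fun s _ => ?_
    rw [hN, smul_sub, v8_act_smul, sub_eq_zero]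
  refine ⟨T.image fun t => n • t, Finset.card_image_le.trans hT, ?_, ?_⟩
  · intro t ht
    obtain ⟨t', ht', rfl⟩ := Finset.mem_image.1 ht
    exact (hfix S t').1 (hT1 t' ht')
  · intro y hy
    obtain ⟨b, rfl⟩ := hdiv y
    obtain ⟨t, ht, h1⟩ := hT2 b ((hfix S b).2 hy)
    obtain ⟨d, hd, e, he, h2⟩ := AddSubgroup.mem_sup.1 h1
    refine ⟨n • t, Finset.mem_image_of_mem _ ht, n • d, e, (hfix G d).1 hd,
      mem_ratPts_bot.1 he, ?_⟩
    rw [← smul_add, h2, ← smul_add]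
    congr 1
    abel

/-- The multiplication by `n` on `A`, as a morphism. -/
noncomputable def mulMor (A : Over (Spec (.of K))) [GrpObj A] [IsAbVar A] (n : ℕ) : A ⟶ A :=
  (𝟙 A : A ⟶ A) ^ n

theorem v8_mulMor (A : Over (Spec (.of K))) [GrpObj A] [IsAbVar A] (n : ℕ)
    (x : Pts A (AlgebraicClosure K)) : onPts (mulMor A n) x = n • x := by
  have h1 : (Additive.toMul x : specOver K (AlgebraicClosure K) ⟶ A) ≫ mulMor A n =
      (Additive.toMul x : specOver K (AlgebraicClosure K) ⟶ A) ^ n := by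
    unfold mulMor
    rw [MonObj.comp_pow, Category.comp_id]
  exact congrArg Additive.ofMul h1

theorem v8_quotBound (A : Over (Spec (.of K))) [GrpObj A] [IsAbVar A]
    (L : IntermediateField K (AlgebraicClosure K)) (n b : ℕ) :
    QuotBound L (mulMor A n) b ↔ MulBound A L n b := by
  unfold QuotBound MulBound
  simp only [v8_mulMor]

/-- From the cover of the points invariant modulo `A[n]` to the cover of `A(L)`. -/
theorem v8_mulBound (A : Over (Spec (.of K))) [GrpObj A] [IsAbVar A]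
    (L : IntermediateField K (AlgebraicClosure K)) (n b : ℕ)
    (N : AddSubgroup (Pts A (AlgebraicClosure K))) (hN : ∀ x, x ∈ N ↔ n • x = 0)
    (hdiv : ∀ x : Pts A (AlgebraicClosure K), ∃ y, n • y = x)
    (hc : CosetCover (ratPts A L.fixingSubgroup N)
      (ratPts A ⊤ N ⊔ ratPts A L.fixingSubgroup ⊥) (2 ^ b)) : MulBound A L n b := by
  obtain ⟨T, hT, h1, h2⟩ := v8_div A L.fixingSubgroup ⊤ n N hN hdiv _ hc
  refine ⟨T, hT, h1, fun y hy => ?_⟩
  obtain ⟨t, ht, y0, x, h3, h4, h5⟩ := h2 y hy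
  exact ⟨t, ht, y0, x, fun s => h3 s (Subgroup.mem_top s), h4, h5⟩

end field

end Pool.Agent.H.MP_ac3185_nt
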