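import Pool.Agent.H.MP_ac3185_nt.W.Cx
import Pool.Agent.H.MP_ac3185_nt.V2.RootR

/-! The change of the root number without hypotheses on the abelian variety, for extensions of odd
degree which are unramified at the places of bad reduction. -/

set_option autoImplicit false

open CategoryTheory AlgebraicGeometry NumberField IsDedekindDomain
open scoped MonObj

namespace Pool.Agent.H.MP_ac3185_nt

universe u

variable {K : Type u} [Field K] [NumberField K]

/-- The local root numbers over the unramified extensions of even degree are equal. -/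
theorem v8_evenSign (A : Over (Spec (.of K))) [GrpObj A] [IsAbVar A] (W : LocalSigns K)
    (hW : IsRootNumbers A W) (v : HeightOneSpectrum (𝓞 K)) : ∃ r : ℕ, EvenSign W v r := by
  obtain ⟨a, b, hab⟩ := hW.unramified v
  by_cases h : b = -1
  · refine ⟨1, fun L _ w 𝔓 hw h𝔓 hL he => ?_⟩
    rw [(hab L w 𝔓 hw h𝔓 hL).2 he, h, pow_one]
  · refine ⟨0, fun L _ w 𝔓 hw h𝔓 hL he => ?_⟩
    rw [pow_zero]
    have h1 := (hab L w 𝔓 hw h𝔓 hL).2 he
    rcases hW.sign L w with h2 | h2
    · exact h2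
    · exact absurd (h1.symm.trans h2) h

/-- A finite set of places which contains the places of bad reduction. -/
theorem v8_bad (A : Over (Spec (.of K))) [GrpObj A] [IsAbVar A] :
    ∃ S : Finset (HeightOneSpectrum (𝓞 K)), ∀ v ∉ S, ∀ 𝔓, Above 𝔓 v → GoodAt A 𝔓 := by
  obtain ⟨N, hN, h⟩ := gc_good A
  have hN0 : Ideal.span {(N : 𝓞 K)} ≠ 0 := by
    rw [Ne, Ideal.zero_eq_bot, Ideal.span_singleton_eq_bot]
    exact_mod_cast hN
  have hfin : {v : HeightOneSpectrum (𝓞 K) | (N : 𝓞 K) ∈ v.asIdeal}.Finite := by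
    refine (Ideal.finite_factors hN0).subset ?_
    intro v hv
    show v.asIdeal ∣ Ideal.span {(N : 𝓞 K)}
    rw [Ideal.dvd_span_singleton]
    exact hv
  refine ⟨hfin.toFinset, fun v hv 𝔓 h𝔓 ℓ _ hℓ => h v (fun hNv => hv ?_) 𝔓 h𝔓 ℓ hℓ⟩
  rw [Set.Finite.mem_toFinset]
  exact hNv

/-- For every abelian variety `A / K` there are a finite set `S` of places (the places of bad
reduction) and natural numbers `a v` (for instance the exponents of the conductor), such that
`w(A/L) = (-1) ^ e w(A/K)`, `e = g (#∞_L + #∞_K) + ∑ a v (g_v - 1)`, for all extensions `L / K` of odd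
degree which are unramified at `S`. -/
theorem v8_sign_all (A : Over (Spec (.of K))) [GrpObj A] [IsAbVar A] :
    ∃ S : Finset (HeightOneSpectrum (𝓞 K)), (∀ v ∉ S, ∀ 𝔓, Above 𝔓 v → GoodAt A 𝔓) ∧
      ∀ W : LocalSigns K, IsRootNumbers A W →
      (∀ v, ∃ r, EvenSign W v r) ∧
      ∀ a : HeightOneSpectrum (𝓞 K) → ℕ, (∀ v ∈ S, EvenSign W v (a v)) →
        ∀ (L : IntermediateField K (AlgebraicClosure K)) [FiniteDimensional K L],
          Odd (Module.finrank K L) → (∀ v ∈ S, UnrIn L v) → ∀ g : ℕ,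
            signOver W g L = (-1) ^ signChange L g S a * signOver W g ⊥ := by
  obtain ⟨S, hS⟩ := v8_bad A
  refine ⟨S, hS, fun W hW => ⟨v8_evenSign A W hW, fun a ha L _ hodd hL g => ?_⟩⟩
  exact v2t_sign L hodd A g W hW S a (fun v hv => Or.inr (Or.inr ⟨ha v hv, hL v hv⟩))
    (fun v hv 𝔓 h𝔓 => Or.inl (hS v hv 𝔓 h𝔓))

end Pool.Agent.H.MP_ac3185_nt
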