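import Pool.Agent.H.MP_ac3185_nt.V2.Val

/-! The elements of a number field with even valuations lie in finitely many classes modulo squares
(finiteness of the class group, and Dirichlet's theorem on units). -/

set_option autoImplicit false

open NumberField IsDedekindDomain UniqueFactorizationMonoid
open scoped nonZeroDivisors

namespace Pool.Agent.H.MP_ac3185_nt

universe u

section numberField

variable {M : Type u} [Field M] [NumberField M]

/-- The units modulo squares are finitely many classes. -/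
theorem fincl_units (M : Type u) [Field M] [NumberField M] :
    ∃ E : Finset (𝓞 M)ˣ, ∀ ε : (𝓞 M)ˣ, ∃ η ∈ E, ∃ u : (𝓞 M)ˣ, ε = η * (u * u) := by
  classical
  let N : Subgroup (𝓞 M)ˣ := (powMonoidHom 2 : (𝓞 M)ˣ →* (𝓞 M)ˣ).range
  have hfg : Group.FG (𝓞 M)ˣ := Group.fg_iff_monoid_fg.2 inferInstance
  have hq : Group.FG ((𝓞 M)ˣ ⧸ N) := QuotientGroup.fg N
  have hfin : Finite ((𝓞 M)ˣ ⧸ N) := by
    refine CommGroup.finite_of_fg_isMulTorsion _ ?_
    intro x
    induction x using QuotientGroup.induction_on with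
    | H z =>
      refine isOfFinOrder_iff_pow_eq_one.2 ⟨2, by norm_num, ?_⟩
      rw [← QuotientGroup.mk_pow]
      exact (QuotientGroup.eq_one_iff _).2 ⟨z, rfl⟩
  have hft : Fintype ((𝓞 M)ˣ ⧸ N) := Fintype.ofFinite _
  refine ⟨Finset.univ.image fun q : (𝓞 M)ˣ ⧸ N => q.out, fun ε => ?_⟩
  refine ⟨(ε : (𝓞 M)ˣ ⧸ N).out, Finset.mem_image_of_mem _ (Finset.mem_univ _), ?_⟩
  have h1 : ((ε : (𝓞 M)ˣ ⧸ N).out)⁻¹ * ε ∈ N := QuotientGroup.eq.1 (Quotient.out_eq' _)
  obtain ⟨u, hu⟩ := h1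
  refine ⟨u, ?_⟩
  have h2 : u ^ 2 = ((ε : (𝓞 M)ˣ ⧸ N).out)⁻¹ * ε := hu
  rw [← sq, h2, mul_inv_cancel_left]

/-- An integer with even valuations generates the square of an ideal. -/
theorem fincl_sqrt {c : 𝓞 M} (hc : c ≠ 0)
    (h : ∀ w : HeightOneSpectrum (𝓞 M), Even (vOrd w (c : M))) :
    ∃ J : Ideal (𝓞 M), J ≠ 0 ∧ Ideal.span {c} = J * J := by
  classical
  have hs : Ideal.span {c} ≠ 0 := by
    rwa [Ne, Ideal.zero_eq_bot, Ideal.span_singleton_eq_bot]
  obtain ⟨s, hs1⟩ := Multiset.exists_smul_of_dvd_count (normalizedFactors (Ideal.span {c}))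
    (k := 2) (by
      intro P hP
      have hPp : Prime P := prime_of_normalized_factor P hP
      have hw := h ⟨P, Ideal.isPrime_of_prime hPp, hPp.ne_zero⟩
      rw [vOrd_int _ hc] at hw
      exact even_iff_two_dvd.1 (by exact_mod_cast hw))
  have h1 : (normalizedFactors (Ideal.span {c})).prod = Ideal.span {c} :=
    associated_iff_eq.1 (prod_normalizedFactors hs)
  have h2 : Ideal.span {c} = s.prod * s.prod := by
    rw [← h1, hs1, Multiset.prod_nsmul, sq]
  refine ⟨s.prod, ?_, h2⟩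
  intro h0
  rw [h0, mul_zero] at h2
  exact hs h2

/-- Two integers which generate squares of ideals in the same class differ by a unit and a square. -/
theorem fincl_class {c c' : 𝓞 M} {J J' : (Ideal (𝓞 M))⁰}
    (h : Ideal.span {c} = (J : Ideal (𝓞 M)) * J) (h' : Ideal.span {c'} = (J' : Ideal (𝓞 M)) * J')
    (hJ : ClassGroup.mk0 J = ClassGroup.mk0 J') :
    ∃ (ε : (𝓞 M)ˣ) (u : M), u ≠ 0 ∧ (c : M) = ((ε : 𝓞 M) : M) * (c' : M) * (u * u) := by
  obtain ⟨x, y, hx, hy, hxy⟩ := ClassGroup.mk0_eq_mk0_iff.1 hJ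
  have h1 : Ideal.span {y * y * c'} = Ideal.span {x * x * c} := by
    rw [← Ideal.span_singleton_mul_span_singleton, ← Ideal.span_singleton_mul_span_singleton,
      ← Ideal.span_singleton_mul_span_singleton, ← Ideal.span_singleton_mul_span_singleton, h, h']
    calc Ideal.span {y} * Ideal.span {y} * ((J' : Ideal (𝓞 M)) * J') =
        (Ideal.span {y} * J') * (Ideal.span {y} * J') := by ring
      _ = (Ideal.span {x} * J) * (Ideal.span {x} * J) := by rw [hxy]
      _ = _ := by ring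
  obtain ⟨ε, hε⟩ := Ideal.span_singleton_eq_span_singleton.1 h1
  have hxM : (x : M) ≠ 0 := fun h => hx (RingOfIntegers.ext h)
  have hyM : (y : M) ≠ 0 := fun h => hy (RingOfIntegers.ext h)
  refine ⟨ε, (y : M) / x, div_ne_zero hyM hxM, ?_⟩
  have h2 : ((y * y * c' * (ε : 𝓞 M) : 𝓞 M) : M) = ((x * x * c : 𝓞 M) : M) := by rw [hε]
  have h3 : (y : M) * y * c' * ((ε : 𝓞 M) : M) = (x : M) * x * c := h2
  field_simp
  linear_combination -h3

/-- The elements with even valuations lie in finitely many classes modulo squares. -/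
theorem fincl_main (M : Type u) [Field M] [NumberField M] :
    ∃ T : Finset M, ∀ c : M, c ≠ 0 → (∀ w : HeightOneSpectrum (𝓞 M), Even (vOrd w c)) →
      ∃ t ∈ T, ∃ u : M, u ≠ 0 ∧ c = t * (u * u) := by
  classical
  obtain ⟨E, hE⟩ := fincl_units M
  let P : ClassGroup (𝓞 M) → 𝓞 M → Prop := fun κ c =>
    ∃ J : (Ideal (𝓞 M))⁰, Ideal.span {c} = (J : Ideal (𝓞 M)) * J ∧ ClassGroup.mk0 J = κ
  let r : ClassGroup (𝓞 M) → 𝓞 M := fun κ => if h : ∃ c, P κ c then h.choose else 0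
  have hr : ∀ κ c, P κ c → P κ (r κ) := by
    intro κ c h
    have h1 : ∃ c, P κ c := ⟨c, h⟩
    show P κ (if h : ∃ c, P κ c then h.choose else 0)
    rw [dif_pos h1]
    exact h1.choose_spec
  refine ⟨(Finset.univ ×ˢ E).image fun p => (((p.2 : 𝓞 M) : M) * (r p.1 : M)), ?_⟩
  intro c hc hev
  -- an integral representative
  obtain ⟨x, y, hy, rfl⟩ := IsFractionRing.div_surjective (A := 𝓞 M) c
  have hy0 : y ≠ 0 := nonZeroDivisors.ne_zero hy
  have hx0 : x ≠ 0 := by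
    rintro rfl
    exact hc (by rw [map_zero, zero_div])
  have hxM : (x : M) ≠ 0 := fun h => hx0 (RingOfIntegers.ext h)
  have hyM : (y : M) ≠ 0 := fun h => hy0 (RingOfIntegers.ext h)
  have hco : ((x * y : 𝓞 M) : M) = (x : M) / (y : M) * ((y : M) * y) := by
    have : ((x * y : 𝓞 M) : M) = (x : M) * y := rfl
    rw [this]
    field_simp
  have hxy : ∀ w : HeightOneSpectrum (𝓞 M), Even (vOrd w ((x * y : 𝓞 M) : M)) := by
    intro w
    rw [hco, vOrd_mul w (div_ne_zero hxM hyM) (mul_ne_zero hyM hyM), vOrd_mul w hyM hyM]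
    exact (hev w).add ⟨_, rfl⟩
  obtain ⟨J, hJ0, hJ⟩ := fincl_sqrt (mul_ne_zero hx0 hy0) hxy
  let J1 : (Ideal (𝓞 M))⁰ := ⟨J, mem_nonZeroDivisors_iff_ne_zero.2 hJ0⟩
  have hP : P (ClassGroup.mk0 J1) (x * y) := ⟨J1, hJ, rfl⟩
  obtain ⟨J2, hJ2, hcl⟩ := hr _ _ hP
  obtain ⟨ε, u, hu, hcu⟩ := fincl_class (J := J1) hJ hJ2 hcl.symm
  obtain ⟨η, hη, v, hv⟩ := hE ε
  refine ⟨((η : 𝓞 M) : M) * (r (ClassGroup.mk0 J1) : M), Finset.mem_image.2
    ⟨(ClassGroup.mk0 J1, η), Finset.mem_product.2 ⟨Finset.mem_univ _, hη⟩, rfl⟩,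
    ((v : 𝓞 M) : M) * u / y, ?_, ?_⟩
  · have hv0 : ((v : 𝓞 M) : M) ≠ 0 := fun h => v.ne_zero (RingOfIntegers.ext h)
    exact div_ne_zero (mul_ne_zero hv0 hu) hyM
  · have h1 : ((ε : 𝓞 M) : M) = ((η : 𝓞 M) : M) * (((v : 𝓞 M) : M) * ((v : 𝓞 M) : M)) := by
      rw [hv]
      rfl
    rw [hco, h1] at hcu
    show (x : M) / (y : M) = _
    field_simp
    field_simp at hcu
    linear_combination hcu

end numberField

section bar

variable {K : Type u} [Field K] [NumberField K]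

/-- The elements of `E` which have even valuation at all finite places lie in finitely many classes
modulo squares. -/
theorem v8_finite_classes (E : IntermediateField K (AlgebraicClosure K)) [FiniteDimensional K E] :
    ∃ ρ : ℕ, SquareClasses {a : E | a ≠ 0 ∧
      ∀ 𝔓 : Ideal (𝓞 (AlgebraicClosure K)), FinPrime 𝔓 → EvenAt E 𝔓 (a : AlgebraicClosure K)}
      (2 ^ ρ) := by
  have _ : NumberField E := NumberField.of_module_finite K E
  obtain ⟨T, hT⟩ := fincl_main E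
  refine ⟨T.card, T, Nat.lt_two_pow_self.le, ?_⟩
  rintro a ⟨ha, hev⟩
  refine hT a ha fun w => ?_
  obtain ⟨𝔓, h1, h2⟩ := v2_prime E (v := w.under (𝓞 K)) ⟨w, rfl⟩
  refine (evenAt_iff E h2 ha).1 (hev 𝔓 ⟨h1.1, ?_⟩)
  rintro rfl
  apply w.ne_bot
  rw [← h2.2]
  exact Ideal.comap_bot_of_injective _
    (FaithfulSMul.algebraMap_injective (𝓞 E) (𝓞 (AlgebraicClosure K)))

end bar

end Pool.Agent.H.MP_ac3185_nt
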