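import Pool.Agent.H.MP_ac3185_nt.V2.Count
import Pool.Agent.H.MP_ac3185_nt.V6.Defs
import Pool.Agent.H.MP_ac3185_nt.V8.FinCl

/-! If `E(√a) / E` is unramified at a place, then `a` has even valuation there. -/

set_option autoImplicit false

open NumberField IsDedekindDomain
open scoped Pointwise

namespace Pool.Agent.H.MP_ac3185_nt

universe u

section res

variable {K : Type u} [Field K] [NumberField K]

/-- An automorphism in the decomposition group of `𝔓` which acts trivially on the residue field of `E`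
acts on the residue field of `𝔓` like an automorphism over `E` (so it is the product of an automorphism
over `E` and an element of the inertia group). -/
theorem v8_res_surj (E : IntermediateField K (AlgebraicClosure K))
    (𝔓 : Ideal (𝓞 (AlgebraicClosure K))) [𝔓.IsPrime]
    (s : AlgebraicClosure K ≃ₐ[K] AlgebraicClosure K) (hs : s • 𝔓 = 𝔓)
    (hE : ∀ x : 𝓞 E, s • algebraMap (𝓞 E) (𝓞 (AlgebraicClosure K)) x -
      algebraMap (𝓞 E) (𝓞 (AlgebraicClosure K)) x ∈ 𝔓) :
    ∃ g ∈ E.fixingSubgroup, g • 𝔓 = 𝔓 ∧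
      ∀ x : 𝓞 (AlgebraicClosure K), g • x - s • x ∈ 𝔓 := by
  have hG : IsGalois K (AlgebraicClosure K) := IsAlgClosure.isGalois K (AlgebraicClosure K)
  have hG' : IsGalois E (AlgebraicClosure K) :=
    IsGalois.tower_top_of_isGalois K E (AlgebraicClosure K)
  let _ : TopologicalSpace (𝓞 (AlgebraicClosure K)) := ⊥
  have _ : DiscreteTopology (𝓞 (AlgebraicClosure K)) := ⟨rfl⟩
  have _ : ContinuousSMul (AlgebraicClosure K ≃ₐ[E] AlgebraicClosure K)
      (𝓞 (AlgebraicClosure K)) := by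
    rw [continuousSMul_iff_stabilizer_isOpen]
    intro x
    have h1 := stabilizer_isOpen_of_isIntegral (K := E) (x : AlgebraicClosure K)
    have h2 : (MulAction.stabilizer (AlgebraicClosure K ≃ₐ[E] AlgebraicClosure K) x :
        Set (AlgebraicClosure K ≃ₐ[E] AlgebraicClosure K)) =
        MulAction.stabilizer (AlgebraicClosure K ≃ₐ[E] AlgebraicClosure K)
          (x : AlgebraicClosure K) := by
      ext g
      rw [SetLike.mem_coe, SetLike.mem_coe, MulAction.mem_stabilizer_iff,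
        MulAction.mem_stabilizer_iff]
      constructor
      · intro hh
        rw [AlgEquiv.smul_def, ← coe_gal_smul, hh]
      · intro hh
        exact RingOfIntegers.ext hh
    rw [h2]
    exact h1
  have _ : Algebra.IsInvariant (𝓞 E) (𝓞 (AlgebraicClosure K))
      (AlgebraicClosure K ≃ₐ[E] AlgebraicClosure K) := invariant
  set P : Ideal (𝓞 E) := 𝔓.comap (algebraMap (𝓞 E) (𝓞 (AlgebraicClosure K))) with hP
  have hover : 𝔓.LiesOver P := ⟨rfl⟩
  let f : 𝓞 (AlgebraicClosure K) ≃+* 𝓞 (AlgebraicClosure K) :=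
    MulSemiringAction.toRingEquiv (AlgebraicClosure K ≃ₐ[K] AlgebraicClosure K)
      (𝓞 (AlgebraicClosure K)) s
  have hf : 𝔓 = 𝔓.map (f : 𝓞 (AlgebraicClosure K) →+* 𝓞 (AlgebraicClosure K)) := by
    conv_lhs => rw [← hs]
    rfl
  let q : (𝓞 (AlgebraicClosure K) ⧸ 𝔓) ≃+* (𝓞 (AlgebraicClosure K) ⧸ 𝔓) :=
    Ideal.quotientEquiv 𝔓 𝔓 f hf
  have hq : ∀ x, q (Ideal.Quotient.mk 𝔓 x) = Ideal.Quotient.mk 𝔓 (s • x) := fun x => rfl
  let σ : (𝓞 (AlgebraicClosure K) ⧸ 𝔓) ≃ₐ[𝓞 E ⧸ P] (𝓞 (AlgebraicClosure K) ⧸ 𝔓) :=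
    AlgEquiv.ofRingEquiv (f := q) (by
      intro r
      obtain ⟨x, rfl⟩ := Ideal.Quotient.mk_surjective r
      show q (Ideal.Quotient.mk 𝔓 (algebraMap (𝓞 E) (𝓞 (AlgebraicClosure K)) x)) =
        Ideal.Quotient.mk 𝔓 (algebraMap (𝓞 E) (𝓞 (AlgebraicClosure K)) x)
      rw [hq]
      exact Ideal.Quotient.eq.2 (hE x))
  obtain ⟨g, hg⟩ := Ideal.Quotient.stabilizerHom_surjective_of_profinite
    (G := AlgebraicClosure K ≃ₐ[E] AlgebraicClosure K) P 𝔓 σ
  refine ⟨g.1.restrictScalars K, ?_, ?_, ?_⟩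
  · rw [IntermediateField.mem_fixingSubgroup_iff]
    intro x hx
    exact g.1.commutes ⟨x, hx⟩
  · refine plb_smul_eq (g := g.1.restrictScalars K) fun x => ?_
    have h1 : g.1 • 𝔓 = 𝔓 := g.2
    have h2 : g.1 • x ∈ g.1 • 𝔓 ↔ x ∈ 𝔓 := Ideal.smul_mem_pointwise_smul_iff
    rw [h1] at h2
    exact h2
  · intro x
    have h1 : (Ideal.Quotient.stabilizerHom 𝔓 P
        (AlgebraicClosure K ≃ₐ[E] AlgebraicClosure K) g) (Ideal.Quotient.mk 𝔓 x) =
        σ (Ideal.Quotient.mk 𝔓 x) := by rw [hg]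
    exact Ideal.Quotient.eq.1 h1

end res

section val

variable {M : Type u} [Field M] [NumberField M]

/-- If `α² - β² a` is an integer and `a` has odd valuation, then `4 β² a` has positive valuation. -/
theorem unreven_val (w : HeightOneSpectrum (𝓞 M)) {a α β : M} (ha : a ≠ 0)
    (hodd : ¬ Even (vOrd w a)) (hN : w.valuation M (α ^ 2 - β ^ 2 * a) ≤ 1) :
    w.valuation M (4 * (β ^ 2 * a)) < 1 := by
  by_cases hβ : β = 0
  · rw [hβ]
    norm_num
  have h4 : w.valuation M (4 : M) ≤ 1 := by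
    have h := w.valuation_le_one (K := M) (4 : 𝓞 M)
    have e : algebraMap (𝓞 M) M 4 = 4 := map_ofNat (algebraMap (𝓞 M) M) 4
    exact (congrArg (w.valuation M) e).ge.trans h
  have hB0 : β ^ 2 * a ≠ 0 := mul_ne_zero (pow_ne_zero 2 hβ) ha
  have hBodd : ¬ Even (vOrd w (β ^ 2 * a)) := by
    rw [vOrd_mul w (pow_ne_zero 2 hβ) ha, vOrd_pow]
    intro h
    apply hodd
    have h1 : Even (((2 : ℕ) : ℤ) * vOrd w β) := ⟨vOrd w β, by push_cast; ring⟩
    exact (Int.even_add.1 h).1 h1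
  have hB1 : w.valuation M (β ^ 2 * a) ≠ 1 := by
    intro h
    apply hBodd
    unfold vOrd
    rw [h, WithZero.log_one, neg_zero]
    exact ⟨0, rfl⟩
  have hne : w.valuation M (α ^ 2) ≠ w.valuation M (β ^ 2 * a) := by
    intro h
    have hα : α ≠ 0 := by
      rintro rfl
      rw [zero_pow two_ne_zero, map_zero] at h
      exact hB0 ((map_eq_zero _).1 h.symm)
    apply hBodd
    have h1 : vOrd w (β ^ 2 * a) = vOrd w (α ^ 2) := by
      unfold vOrd
      rw [h]
    rw [h1, vOrd_pow]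
    exact ⟨vOrd w α, by push_cast; ring⟩
  have hB : w.valuation M (β ^ 2 * a) ≤ 1 := by
    by_contra hcon
    push Not at hcon
    rcases lt_or_gt_of_ne hne with h | h
    · rw [Valuation.map_sub_eq_of_lt_right _ h] at hN
      exact absurd hN (not_le.2 hcon)
    · rw [Valuation.map_sub_eq_of_lt_left _ h] at hN
      exact absurd hN (not_le.2 (hcon.trans h))
  rw [map_mul]
  exact (mul_le_of_le_one_left' h4).trans_lt (lt_of_le_of_ne hB hB1)

end val

section move

variable {K : Type u} [Field K] [NumberField K]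

theorem unreven_mem (F : IntermediateField K (AlgebraicClosure K)) (x : AlgebraicClosure K)
    (hx : ∀ σ ∈ F.fixingSubgroup, σ x = x) : x ∈ F := by
  have hG : IsGalois K (AlgebraicClosure K) := IsAlgClosure.isGalois K (AlgebraicClosure K)
  have h1 : x ∈ IntermediateField.fixedField F.fixingSubgroup := by
    rw [IntermediateField.mem_fixedField_iff]
    exact hx
  rwa [InfiniteGalois.fixedField_fixingSubgroup] at h1

/-- Let `z² = a` have odd valuation at the place of `E` below `𝔓`. An automorphism over `E` which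
moves `z` acts trivially on the residue field of `E(z)`. -/
theorem unreven_triv (E : IntermediateField K (AlgebraicClosure K)) [NumberField E]
    {𝔓 : Ideal (𝓞 (AlgebraicClosure K))} {w : HeightOneSpectrum (𝓞 E)} (hw : PrimeOver E 𝔓 w)
    {a : E} (ha : a ≠ 0) (hodd : ¬ Even (vOrd w a)) {z : AlgebraicClosure K}
    (hz : z * z = (a : AlgebraicClosure K)) {s : AlgebraicClosure K ≃ₐ[K] AlgebraicClosure K}
    (hsE : s ∈ E.fixingSubgroup) (hsz : s z = -z) (x : 𝓞 (AlgebraicClosure K))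
    (hx : ∀ g ∈ E.fixingSubgroup, g z = z → g (x : AlgebraicClosure K) = x) : s • x - x ∈ 𝔓 := by
  have hP : 𝔓.IsPrime := hw.1
  have hz0 : z ≠ 0 := by
    rintro rfl
    apply ha
    apply Subtype.ext
    rw [← hz, mul_zero]
    rfl
  have hpm : ∀ g ∈ E.fixingSubgroup, g z = z ∨ g z = -z := by
    intro g hg
    have h1 : (g z) * (g z) = z * z := by
      rw [← map_mul, hz]
      exact (IntermediateField.mem_fixingSubgroup_iff E g).1 hg _ a.2
    exact mul_self_eq_mul_self_iff.1 h1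
  have hsiz : s⁻¹ z = -z := by
    have h1 : s⁻¹ (s z) = z := by
      rw [← AlgEquiv.mul_apply, inv_mul_cancel, AlgEquiv.one_apply]
    rw [hsz, map_neg] at h1
    exact neg_eq_iff_eq_neg.1 h1
  set X : AlgebraicClosure K := (x : AlgebraicClosure K) with hX
  set Y : AlgebraicClosure K := s X with hY
  have hgX : ∀ g ∈ E.fixingSubgroup, g z = -z → g X = Y := by
    intro g hg hgz
    have h1 : (s⁻¹ * g) z = z := by
      rw [AlgEquiv.mul_apply, hgz, map_neg, hsiz, neg_neg]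
    have h2 := hx (s⁻¹ * g) (mul_mem (inv_mem hsE) hg) h1
    rw [AlgEquiv.mul_apply] at h2
    have h3 : s (s⁻¹ (g X)) = g X := by
      rw [← AlgEquiv.mul_apply, mul_inv_cancel, AlgEquiv.one_apply]
    rw [← h3, h2]
  have hgY1 : ∀ g ∈ E.fixingSubgroup, g z = z → g Y = Y := by
    intro g hg hgz
    have h1 : (g * s) z = -z := by
      rw [AlgEquiv.mul_apply, hsz, map_neg, hgz]
    have h2 := hgX (g * s) (mul_mem hg hsE) h1
    rwa [AlgEquiv.mul_apply] at h2
  have hgY2 : ∀ g ∈ E.fixingSubgroup, g z = -z → g Y = X := by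
    intro g hg hgz
    have h1 : (g * s) z = z := by
      rw [AlgEquiv.mul_apply, hsz, map_neg, hgz, neg_neg]
    have h2 := hx (g * s) (mul_mem hg hsE) h1
    rwa [AlgEquiv.mul_apply] at h2
  have hα : (X + Y) / 2 ∈ E := by
    refine unreven_mem E _ fun g hg => ?_
    rw [map_div₀, map_add, map_ofNat]
    rcases hpm g hg with h | h
    · rw [hx g hg h, hgY1 g hg h]
    · rw [hgX g hg h, hgY2 g hg h, add_comm]
  have hβ : (X - Y) / (2 * z) ∈ E := by
    refine unreven_mem E _ fun g hg => ?_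
    rw [map_div₀, map_sub, map_mul, map_ofNat]
    rcases hpm g hg with h | h
    · rw [hx g hg h, hgY1 g hg h, h]
    · rw [hgX g hg h, hgY2 g hg h, h, mul_neg, div_neg, ← neg_div, neg_sub]
  set α : E := ⟨(X + Y) / 2, hα⟩ with hαd
  set β : E := ⟨(X - Y) / (2 * z), hβ⟩ with hβd
  have hNE : ((α ^ 2 - β ^ 2 * a : E) : AlgebraicClosure K) = X * Y := by
    show ((X + Y) / 2) ^ 2 - ((X - Y) / (2 * z)) ^ 2 * (a : AlgebraicClosure K) = X * Y
    rw [← hz]
    field_simp
    ring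
  have hDE : ((4 * (β ^ 2 * a) : E) : AlgebraicClosure K) = (X - Y) ^ 2 := by
    show (4 : AlgebraicClosure K) * (((X - Y) / (2 * z)) ^ 2 * (a : AlgebraicClosure K)) =
      (X - Y) ^ 2
    rw [← hz]
    field_simp
    ring
  have hint : ∀ (c : E) (y : 𝓞 (AlgebraicClosure K)), (c : AlgebraicClosure K) = y →
      ∃ n : 𝓞 E, (n : E) = c := by
    intro c y hc
    have h1 : IsIntegral ℤ (algebraMap E (AlgebraicClosure K) c) := by
      show IsIntegral ℤ (c : AlgebraicClosure K)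
      rw [hc]
      exact RingOfIntegers.isIntegral_coe y
    exact ⟨⟨c, (isIntegral_algebraMap_iff (algebraMap E (AlgebraicClosure K)).injective).1 h1⟩,
      rfl⟩
  obtain ⟨n, hn⟩ := hint (α ^ 2 - β ^ 2 * a) (x * s • x) hNE
  obtain ⟨d, hd⟩ := hint (4 * (β ^ 2 * a)) ((x - s • x) ^ 2) hDE
  have h1 : w.valuation E (4 * (β ^ 2 * a)) < 1 := by
    refine unreven_val w (α := α) (β := β) ha hodd ?_
    rw [← hn]
    exact w.valuation_le_one (K := E) n
  have h2 : d ∈ w.asIdeal := by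
    refine (w.valuation_lt_one_iff_mem (K := E) d).1 ?_
    show w.valuation E (d : E) < 1
    rw [hd]
    exact h1
  have h3 : algebraMap (𝓞 E) (𝓞 (AlgebraicClosure K)) d ∈ 𝔓 := by
    rw [← hw.2] at h2
    exact h2
  have h4 : algebraMap (𝓞 E) (𝓞 (AlgebraicClosure K)) d = (x - s • x) ^ 2 := by
    apply RingOfIntegers.ext
    show ((d : E) : AlgebraicClosure K) = _
    rw [hd, hDE]
    rfl
  rw [h4] at h3
  have h5 := hP.mem_of_pow_mem 2 h3
  have h6 := neg_mem h5
  rwa [neg_sub] at h6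

/-- If `z² = a` has odd valuation at the place of `E` below `𝔓`, then the inertia group of `𝔓` over `E`
moves `z`. -/
theorem v8_inertia_moves (E : IntermediateField K (AlgebraicClosure K)) [NumberField E]
    {𝔓 : Ideal (𝓞 (AlgebraicClosure K))} {w : HeightOneSpectrum (𝓞 E)} (hw : PrimeOver E 𝔓 w)
    {a : E} (ha : a ≠ 0) (hodd : ¬ Even (vOrd w a)) {z : AlgebraicClosure K}
    (hz : z * z = (a : AlgebraicClosure K)) :
    ∃ s ∈ inertia K 𝔓, s ∈ E.fixingSubgroup ∧ s z ≠ z := by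
  have hP : 𝔓.IsPrime := hw.1
  have hz0 : z ≠ 0 := by
    rintro rfl
    apply ha
    apply Subtype.ext
    rw [← hz, mul_zero]
    rfl
  have hzz : -z ≠ z := by
    intro h
    have h1 : 2 * z = 0 := by linear_combination -h
    rcases mul_eq_zero.1 h1 with h2 | h2
    · exact two_ne_zero h2
    · exact hz0 h2
  -- an automorphism which moves `z`
  obtain ⟨s₀, hs₀E, hs₀z⟩ : ∃ s ∈ E.fixingSubgroup, s z = -z := by
    by_contra hcon
    push Not at hcon
    have h1 : z ∈ E := unreven_mem E z fun g hg => by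
      have h1 : (g z) * (g z) = z * z := by
        rw [← map_mul, hz]
        exact (IntermediateField.mem_fixingSubgroup_iff E g).1 hg _ a.2
      exact (mul_self_eq_mul_self_iff.1 h1).resolve_right (hcon g hg)
    apply hodd
    have h2 : a = ⟨z, h1⟩ * ⟨z, h1⟩ := Subtype.ext hz.symm
    exact vOrd_even_of_isSquare w ha ⟨_, h2⟩
  have hs₀i : s₀⁻¹ z = -z := by
    have h1 : s₀⁻¹ (s₀ z) = z := by
      rw [← AlgEquiv.mul_apply, inv_mul_cancel, AlgEquiv.one_apply]
    rw [hs₀z, map_neg] at h1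
    exact neg_eq_iff_eq_neg.1 h1
  set E₁ : IntermediateField K (AlgebraicClosure K) := E ⊔ IntermediateField.adjoin K {z} with hE₁
  have hE₁le : E₁.fixingSubgroup ≤ E.fixingSubgroup :=
    IntermediateField.fixingSubgroup_le le_sup_left
  have hzE₁ : z ∈ E₁ :=
    (le_sup_right : IntermediateField.adjoin K {z} ≤ E₁)
      (IntermediateField.mem_adjoin_simple_self K z)
  have hfix : ∀ g ∈ E.fixingSubgroup, g z = z → g ∈ E₁.fixingSubgroup := by
    intro g hg hgz
    rw [hE₁, IntermediateField.fixingSubgroup_sup]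
    refine ⟨hg, ?_⟩
    have h1 : Subgroup.zpowers g ≤ (IntermediateField.adjoin K {z}).fixingSubgroup := by
      rw [← IntermediateField.le_iff_le, IntermediateField.adjoin_le_iff, Set.singleton_subset_iff,
        SetLike.mem_coe, IntermediateField.mem_fixedField_iff]
      have h2 : Subgroup.zpowers g ≤
          MulAction.stabilizer (AlgebraicClosure K ≃ₐ[K] AlgebraicClosure K) z := by
        rw [Subgroup.zpowers_le]
        exact hgz
      intro h hh
      exact h2 hh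
    exact h1 (Subgroup.mem_zpowers g)
  have hxE₁ : ∀ (x : 𝓞 E₁), ∀ g ∈ E.fixingSubgroup, g z = z →
      g ((algebraMap (𝓞 E₁) (𝓞 (AlgebraicClosure K)) x : 𝓞 (AlgebraicClosure K)) :
        AlgebraicClosure K) = (algebraMap (𝓞 E₁) (𝓞 (AlgebraicClosure K)) x :
          𝓞 (AlgebraicClosure K)) := by
    intro x g hg hgz
    exact (IntermediateField.mem_fixingSubgroup_iff E₁ g).1 (hfix g hg hgz) _ (x : E₁).2
  have htriv : ∀ s ∈ E.fixingSubgroup, s z = -z → ∀ x : 𝓞 E₁,
      s • algebraMap (𝓞 E₁) (𝓞 (AlgebraicClosure K)) x -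
        algebraMap (𝓞 E₁) (𝓞 (AlgebraicClosure K)) x ∈ 𝔓 := fun s hs hsz x =>
    unreven_triv E hw ha hodd hz hs hsz _ (hxE₁ x)
  -- the translate of `𝔓` lies above the same place of `E₁`
  have hcomap : (s₀ • 𝔓).comap (algebraMap (𝓞 E₁) (𝓞 (AlgebraicClosure K))) =
      ((1 : AlgebraicClosure K ≃ₐ[K] AlgebraicClosure K) • 𝔓).comap
        (algebraMap (𝓞 E₁) (𝓞 (AlgebraicClosure K))) := by
    rw [one_smul]
    ext x
    rw [Ideal.mem_comap, Ideal.mem_comap, Ideal.mem_pointwise_smul_iff_inv_smul_mem]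
    have h1 := htriv s₀⁻¹ (inv_mem hs₀E) hs₀i x
    constructor
    · intro h2
      have h3 := sub_mem h2 h1
      rwa [sub_sub_cancel] at h3
    · intro h2
      have h3 := add_mem h1 h2
      rwa [sub_add_cancel] at h3
  obtain ⟨h, hh, hh𝔓⟩ := (same_place_iff E₁ 𝔓 s₀ 1).1 hcomap
  rw [one_smul] at hh𝔓
  have hhz : h z = z := (IntermediateField.mem_fixingSubgroup_iff E₁ h).1 hh z hzE₁
  have hs₁𝔓 : (h * s₀) • 𝔓 = 𝔓 := by
    rw [mul_smul]
    exact hh𝔓
  have hs₁E : h * s₀ ∈ E.fixingSubgroup := mul_mem (hE₁le hh) hs₀E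
  have hs₁z : (h * s₀) z = -z := by
    rw [AlgEquiv.mul_apply, hs₀z, map_neg, hhz]
  obtain ⟨g, hg, hg𝔓, hgs⟩ := v8_res_surj E₁ 𝔓 (h * s₀) hs₁𝔓 (htriv _ hs₁E hs₁z)
  have hgz : g z = z := (IntermediateField.mem_fixingSubgroup_iff E₁ g).1 hg z hzE₁
  refine ⟨g⁻¹ * (h * s₀), ?_, mul_mem (inv_mem (hE₁le hg)) hs₁E, ?_⟩
  · intro x
    show (g⁻¹ * (h * s₀)) • x - x ∈ 𝔓
    have h1 := neg_mem (hgs x)
    rw [neg_sub, ← Ideal.smul_mem_pointwise_smul_iff (a := g⁻¹)] at h1
    have h2 : g⁻¹ • 𝔓 = 𝔓 := by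
      rw [inv_smul_eq_iff]
      exact hg𝔓.symm
    rw [h2, smul_sub, inv_smul_smul, ← mul_smul] at h1
    exact h1
  · rw [AlgEquiv.mul_apply, hs₁z, map_neg]
    have h1 : g⁻¹ z = z := by
      have h2 : g⁻¹ (g z) = z := by
        rw [← AlgEquiv.mul_apply, inv_mul_cancel, AlgEquiv.one_apply]
      rwa [hgz] at h2
    rw [h1]
    exact hzz

/-- If `E(√a) / E` is unramified at the place below `𝔓`, then `a` has even valuation there. -/
theorem v8_even_of_unr (E : IntermediateField K (AlgebraicClosure K)) [FiniteDimensional K E]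
    {𝔓 : Ideal (𝓞 (AlgebraicClosure K))} (h𝔓 : FinPrime 𝔓) {a : E} (ha : a ≠ 0)
    (h : UnrAt E 𝔓 (a : AlgebraicClosure K)) : EvenAt E 𝔓 (a : AlgebraicClosure K) := by
  have _ : NumberField E := NumberField.of_module_finite K E
  obtain ⟨v, hv⟩ := v2c_above 𝔓 h𝔓
  obtain ⟨w, hw⟩ := v2_place E hv
  rw [evenAt_iff E hw ha]
  by_contra hodd
  obtain ⟨z, hz⟩ := IsAlgClosed.exists_eq_mul_self (a : AlgebraicClosure K)
  obtain ⟨s, hs, hsE, hsz⟩ := v8_inertia_moves E hw ha hodd hz.symm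
  exact hsz (h s hs hsE z hz.symm)

/-- `frameClasses` is contained in finitely many classes modulo squares. -/
theorem v8_finite_frame (L F : IntermediateField K (AlgebraicClosure K)) [FiniteDimensional K L]
    [FiniteDimensional K F]
    (Rel : Set (Set ((AlgebraicClosure K ≃ₐ[K] AlgebraicClosure K) ⧸ F.fixingSubgroup)))
    (T : Set (HeightOneSpectrum (𝓞 F))) (R : Set (F →+* ℂ)) :
    ∃ ρ : ℕ, SquareClasses (frameClasses L F Rel T R) (2 ^ ρ) := by
  have _ : NumberField F := NumberField.of_module_finite K F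
  obtain ⟨ρ, T', hT', hT⟩ := v8_finite_classes (K := K) (L ⊔ F)
  refine ⟨ρ, T', hT', fun a ha => hT a ⟨ha.1, fun 𝔓 h𝔓 => ?_⟩⟩
  obtain ⟨ha0, -, -, hunr, heven, -⟩ := ha
  obtain ⟨v, hv⟩ := v2c_above 𝔓 h𝔓
  obtain ⟨w, hw⟩ := v2_place F hv
  by_cases h : 2 ∉ w.1.asIdeal ∨ w.1 ∈ T
  · exact v8_even_of_unr _ h𝔓 ha0 (hunr w.1 𝔓 hw h)
  · push Not at h
    exact heven w.1 𝔓 hw h.1 h.2

end move

end Pool.Agent.H.MP_ac3185_nt
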