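import Pool.Agent.H.MP_ac3185_nt.W.Cx
import Pool.Agent.H.MP_ac3185_nt.V8.Defs

/-! At almost all places there is a homomorphism which is constant on the orbits of the inertia groups
and injective on the torsion of order prime to the residue characteristic. -/

set_option autoImplicit false

open CategoryTheory AlgebraicGeometry NumberField IsDedekindDomain Filter
open scoped MonObj

namespace Pool.Agent.H.MP_ac3185_nt

universe u

section ultra

variable {K : Type u} [Field K] {A : Over (Spec (.of K))} [GrpObj A] {B E : Type u} [CommRing B]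
  [Algebra K B] [Field E] [Algebra K E]
  {V : ℕ → ValuationSubring E} (D : GdRing K E V) (j : spR K B ⟶ A) [IsOpenImmersion j.left]
  (ε : B →ₐ[K] K) (hε : (1 : spR K K ⟶ A) = spMap ε ≫ j) (G : Finset B)
  (hG : Algebra.adjoin K (G : Set B) = ⊤) (hG0 : ∀ g ∈ G, ε g = 0)

include hG hG0 in
/-- Points in the chart with coordinates in the maximal ideals. -/
theorem ea_lift (φ : ℕ → (B →ₐ[K] E)) (hφ : ∀ n, ∀ g ∈ G, (V n).valuation (φ n g) < 1) :
    ∃ φ' : B →ₐ[K] D.O,
      (IsScalarTower.toAlgHom K D.O D.F).comp φ' = D.gm.comp (Pi.algHom K (fun _ => E) φ) ∧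
        D.res.comp φ' = vdZero ε D.k := by
  let iO := IsScalarTower.toAlgHom K D.O D.F
  have hiO : Function.Injective iO := D.inj
  let Φ : B →ₐ[K] (ℕ → E) := Pi.algHom K (fun _ => E) φ
  have h1 : ∀ b, (D.gm.comp Φ) b ∈ iO.range := by
    intro b
    have h2 : (⊤ : Subalgebra K B) ≤ iO.range.comap (D.gm.comp Φ) := by
      rw [← hG, Algebra.adjoin_le_iff]
      intro g hg
      obtain ⟨a, ha⟩ := D.mem (Φ g) (Eventually.of_forall fun n => (hφ n g hg).le)
      exact ⟨a, ha⟩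
    exact h2 trivial
  let φ' : B →ₐ[K] D.O := ((AlgEquiv.ofInjective iO hiO).symm : iO.range →ₐ[K] D.O).comp
    ((D.gm.comp Φ).codRestrict iO.range h1)
  have h2 : iO.comp φ' = D.gm.comp Φ := by
    ext b
    have h3 := (AlgEquiv.ofInjective iO hiO).apply_symm_apply ⟨(D.gm.comp Φ) b, h1 b⟩
    exact congrArg Subtype.val h3
  refine ⟨φ', h2, ?_⟩
  apply vdZero_unique ε G hG hG0
  intro g hg
  show D.res (φ' g) = 0
  rw [D.res_zero (φ' g) (Φ g) (congrArg (fun m : B →ₐ[K] D.F => m g) h2).symm]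
  exact Eventually.of_forall fun n => hφ n g hg

include D hε hG hG0 in
/-- The difference of points near the origin. -/
theorem ea_sub (φ ψ : ℕ → (B →ₐ[K] E)) (hφ : ∀ n, ∀ g ∈ G, (V n).valuation (φ n g) < 1)
    (hψ : ∀ n, ∀ g ∈ G, (V n).valuation (ψ n g) < 1) :
    ∀ᶠ n in (vdU : Filter ℕ), NearV (V n) j G ((spMap (φ n) ≫ j) / (spMap (ψ n) ≫ j)) := by
  obtain ⟨φ', h1, h2⟩ := ea_lift D ε G hG hG0 φ hφ
  obtain ⟨ψ', h3, h4⟩ := ea_lift D ε G hG hG0 ψ hψ
  let Φ : B →ₐ[K] (ℕ → E) := Pi.algHom K (fun _ => E) φ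
  let Ψ : B →ₐ[K] (ℕ → E) := Pi.algHom K (fun _ => E) ψ
  have h5 := gd_near D j ε hε G hG0 ((spMap Φ ≫ j) / (spMap Ψ ≫ j))
    ((spMap φ' ≫ j) / (spMap ψ' ≫ j)) (by
      rw [GrpObj.comp_div, GrpObj.comp_div, ← Category.assoc, ← spMap_comp, ← Category.assoc,
        ← spMap_comp, ← Category.assoc, ← spMap_comp, ← Category.assoc, ← spMap_comp, h1, h3])
    (by
      rw [GrpObj.comp_div, ← Category.assoc, ← spMap_comp, ← Category.assoc, ← spMap_comp, h2, h4,
        div_self'])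
  filter_upwards [h5] with n hn
  have e1 : spMap (vdEv K E n) ≫ ((spMap Φ ≫ j) / (spMap Ψ ≫ j)) =
      (spMap (φ n) ≫ j) / (spMap (ψ n) ≫ j) := by
    rw [GrpObj.comp_div, ← Category.assoc, ← spMap_comp, ← Category.assoc, ← spMap_comp]
    rfl
  rw [e1] at hn
  exact hn

end ultra

variable {K : Type u} [Field K] [NumberField K]

/-- For almost all places the points near the origin form a group. -/
theorem ea_bad_sub {A : Over (Spec (.of K))} [GrpObj A] {B : Type u} [CommRing B] [Algebra K B]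
    (j : spR K B ⟶ A) [IsOpenImmersion j.left] (ε : B →ₐ[K] K)
    (hε : (1 : spR K K ⟶ A) = spMap ε ≫ j) (G : Finset B) (hG : Algebra.adjoin K (G : Set B) = ⊤)
    (hG0 : ∀ g ∈ G, ε g = 0) :
    {v : HeightOneSpectrum (𝓞 K) | ∃ 𝔓, ∃ h : Above 𝔓 v,
      ∃ x y : spR K (AlgebraicClosure K) ⟶ A, NearV (valAt 𝔓 v h) j G x ∧
        NearV (valAt 𝔓 v h) j G y ∧ ¬ NearV (valAt 𝔓 v h) j G (x / y)}.Finite := by
  by_contra hinf
  have hinf' : Set.Infinite _ := hinf
  let e := hinf'.natEmbedding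
  choose 𝔓 h x y hx hy hxy using fun n => (e n).2
  choose φ hφ hφ' using hx
  choose ψ hψ hψ' using hy
  obtain ⟨D⟩ := exists_gdRing K (AlgebraicClosure K) (fun n => valAt (𝔓 n) (e n).1 (h n))
    (gv_almost 𝔓 (fun n => (e n).1) (fun a b hab => e.injective (Subtype.ext hab)) h)
  obtain ⟨n, hn⟩ := (ea_sub D j ε hε G hG hG0 φ ψ hφ' hψ').exists
  rw [← hφ n, ← hψ n] at hn
  exact hxy n hn

/-- For almost all places `v` and all `𝔓` above `v` there is a homomorphism on `A(Kbar)` which is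
constant on the orbits of the inertia group and injective on the torsion of order prime to the residue
characteristic (the reduction map of a good model). -/
theorem ea_etale (A : Over (Spec (.of K))) [GrpObj A] [IsAbVar A] :
    ∃ S : Set (HeightOneSpectrum (𝓞 K)), S.Finite ∧ ∀ v ∉ S, ∀ 𝔓, Above 𝔓 v →
      ∃ (R : Type u) (_ : AddCommGroup R) (r : Pts A (AlgebraicClosure K) →+ R),
        (∀ s ∈ inertia K 𝔓, ∀ x, r (act A s x) = r x) ∧
        ∀ m : ℕ, (m : 𝓞 (AlgebraicClosure K)) ∉ 𝔓 → ∀ x, m • x = 0 → r x = 0 → x = 0 := by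
  obtain ⟨B, _, _, j, hj, ε, G, hε, hG, hG0⟩ := vd_origin A
  refine ⟨_, ((gd_bad_aut j ε hε G hG0).union (gd_bad_sum j ε hε G hG hG0)).union
    (ea_bad_sub j ε hε G hG hG0), ?_⟩
  intro v hv 𝔓 h
  rw [Set.mem_union, not_or, Set.mem_union, not_or] at hv
  obtain ⟨⟨hv1, hv2⟩, hv3⟩ := hv
  have hsum : SumV (valAt 𝔓 v h) j G := by
    by_contra hn
    exact hv2 ⟨𝔓, h, hn⟩
  have hone : NearV (valAt 𝔓 v h) j G (1 : spR K (AlgebraicClosure K) ⟶ A) := by
    refine ⟨vdZero ε _, vdZero_spec j ε hε _, fun g hg => ?_⟩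
    have e1 : vdZero ε (AlgebraicClosure K) g = 0 := by
      show algebraMap K (AlgebraicClosure K) (ε g) = 0
      rw [hG0 g hg, map_zero]
    rw [e1, map_zero]
    exact zero_lt_one
  have hsub : ∀ x y : spR K (AlgebraicClosure K) ⟶ A, NearV (valAt 𝔓 v h) j G x →
      NearV (valAt 𝔓 v h) j G y → NearV (valAt 𝔓 v h) j G (x / y) := by
    intro x y hx hy
    by_contra hn
    exact hv3 ⟨𝔓, h, x, y, hx, hy, hn⟩
  have hinv : ∀ x : spR K (AlgebraicClosure K) ⟶ A, NearV (valAt 𝔓 v h) j G x →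
      NearV (valAt 𝔓 v h) j G x⁻¹ := by
    intro x hx
    have h1 := hsub 1 x hone hx
    rwa [one_div] at h1
  have hmul : ∀ x y : spR K (AlgebraicClosure K) ⟶ A, NearV (valAt 𝔓 v h) j G x →
      NearV (valAt 𝔓 v h) j G y → NearV (valAt 𝔓 v h) j G (x * y) := by
    intro x y hx hy
    have h1 := hsub x y⁻¹ hx (hinv y hy)
    rwa [div_inv_eq_mul] at h1
  let M : AddSubgroup (Pts A (AlgebraicClosure K)) :=
    { carrier := {x | NearV (valAt 𝔓 v h) j G
        (Additive.toMul x : specOver K (AlgebraicClosure K) ⟶ A)}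
      zero_mem' := hone
      add_mem' := fun {x y} hx hy => hmul _ _ hx hy
      neg_mem' := fun {x} hx => hinv _ hx }
  refine ⟨Pts A (AlgebraicClosure K) ⧸ M, inferInstance, QuotientAddGroup.mk' M, ?_, ?_⟩
  · intro s hs x
    rw [QuotientAddGroup.mk'_apply, QuotientAddGroup.mk'_apply, QuotientAddGroup.eq_iff_sub_mem]
    let X : spR K (AlgebraicClosure K) ⟶ A :=
      (Additive.toMul x : specOver K (AlgebraicClosure K) ⟶ A)
    by_contra hn
    exact hv1 ⟨𝔓, h, s, hs, X, hn⟩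
  · intro m hm x hx hr
    have hmem : x ∈ M := by
      rwa [QuotientAddGroup.mk'_apply, QuotientAddGroup.eq_zero_iff] at hr
    let X : spR K (AlgebraicClosure K) ⟶ A :=
      (Additive.toMul x : specOver K (AlgebraicClosure K) ⟶ A)
    have hX : X ^ m = 1 := by
      have h1 : Additive.toMul (m • x) = Additive.toMul (0 : Pts A (AlgebraicClosure K)) :=
        congrArg Additive.toMul hx
      exact h1
    have h2 := NearV.torsion (valAt 𝔓 v h) j ε hε G hG hG0 hsum X hmem m (valAt_nat h m hm) hX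
    exact congrArg Additive.ofMul h2

end Pool.Agent.H.MP_ac3185_nt
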