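import Pool.Agent.H.MP_ac3185_nt.V8.Div
import Pool.Agent.H.MP_ac3185_nt.V6.Main

/-! The conclusions on the rank and the root number. -/

set_option autoImplicit false

open CategoryTheory AlgebraicGeometry NumberField IsDedekindDomain
open scoped MonObj

namespace Pool.Agent.H.MP_ac3185_nt

universe u

section numberField

variable {K : Type u} [Field K] [NumberField K]

/-- The conclusions on the rank and the root number from `MulBound`. -/
theorem v8_concl (L : IntermediateField K (AlgebraicClosure K)) [FiniteDimensional K L]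
    (hodd : Odd (Module.finrank K L))
    (A : Over (Spec (.of K))) [GrpObj A] [IsAbVar A]
    (m b : ℕ) (hq : MulBound A L (2 ^ m) b) :
    (b < m → ¬ NewPoint A L ∧ rk A L = rk A ⊥) ∧
    (Module.Finite ℤ (Pts A L) → rk A ⊥ ≤ rk A L ∧ m * (rk A L - rk A ⊥) ≤ b) ∧
    ∀ g : ℕ, topologicalKrullDim A.left = g → ∀ W : LocalSigns K, IsRootNumbers A W →
      ∀ (T : Finset (HeightOneSpectrum (𝓞 K))) (r : HeightOneSpectrum (𝓞 K) → ℕ),
      (∀ v ∈ T, SplitTorus A v (r v) ∨ (QuadTorus A v (r v) ∧ OddRam L v) ∨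
        (EvenSign W v (r v) ∧ UnrIn L v)) →
      (∀ v ∉ T, ∀ 𝔓, Above 𝔓 v → MildAt A L 𝔓) →
        signOver W g L = (-1) ^ signChange L g T r * signOver W g ⊥ ∧
        (b < m → ((ParityFor A g W L ↔ ParityFor A g W ⊥) ↔ Even (signChange L g T r))) ∧
        (b < 2 * m → Module.Finite ℤ (Pts A L) →
          ((ParityFor A g W L ↔ ParityFor A g W ⊥) ↔
            (Odd (signChange L g T r) ↔ NewPoint A L))) :=
  v6_concl L hodd A m b (mulMor A (2 ^ m)) ((v8_quotBound A L (2 ^ m) b).2 hq)
    (fun x => v8_mulMor A (2 ^ m) x)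

end numberField

end Pool.Agent.H.MP_ac3185_nt
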