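import Pool.Agent.H.MP_ac3185_nt.V8.Gen
import Pool.Agent.H.MP_ac3185_nt.V8.Chain
import Pool.Agent.H.MP_ac3185_nt.V8.Concl
import Pool.Agent.H.MP_ac3185_nt.W.DivPts

/-! The growth of the rank and the change of the root number, for all abelian varieties. -/

set_option autoImplicit false

open CategoryTheory AlgebraicGeometry NumberField IsDedekindDomain
open scoped MonObj

namespace Pool.Agent.H.MP_ac3185_nt

universe u

variable {K : Type u} [Field K] [NumberField K]

theorem v8_genFor (L F : IntermediateField K (AlgebraicClosure K)) [FiniteDimensional K L]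
    [FiniteDimensional K F] (hodd : Odd (Module.finrank K L)) {A : Over (Spec (.of K))} [GrpObj A]
    [IsAbVar A] {N N' H : AddSubgroup (Pts A (AlgebraicClosure K))} (hf : ModFrame F N N' H)
    (hlin : ∀ s, ∃ t ∈ L.fixingSubgroup, ∀ x ∈ N', act A (t⁻¹ * s) x - x ∈ N) :
    GenFor L F A N N' H := by
  obtain ⟨-, c, h0, h1, h2, h3, h4, h5, h6, h7⟩ := modGen L F hodd hf hlin
  refine ⟨c, h0, h1, fun Ω hΩ P hP => h2 P hP Ω hΩ, h3, h4, h5, h6, fun P hP hs => ?_⟩
  obtain ⟨y0, x, hy0, hx, rfl⟩ := h7 P hP hs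
  exact AddSubgroup.add_mem _ (AddSubgroup.mem_sup_left hy0) (AddSubgroup.mem_sup_right hx)

/-- For a chain `0 = N_0 ≤ ⋯ ≤ N_r = N`: the points which are rational over `L` modulo `N` are the
union of at most `2 ^ b` cosets of the group generated by the points which are rational over `K` modulo
`N` and by `A(L)`. -/
theorem v8_cover (L : IntermediateField K (AlgebraicClosure K)) [FiniteDimensional K L]
    (hodd : Odd (Module.finrank K L)) (A : Over (Spec (.of K))) [GrpObj A] [IsAbVar A]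
    (N : AddSubgroup (Pts A (AlgebraicClosure K))) (b : ℕ) (hc : ModChain L A N b) :
    CosetCover (ratPts A L.fixingSubgroup N)
      (ratPts A ⊤ N ⊔ ratPts A L.fixingSubgroup ⊥) (2 ^ b) :=
  v8_chain L hodd A (fun F _ _ _ _ hf hlin => v8_genFor L F hodd hf hlin) N b hc

/-- `A(L)` is the union of at most `2 ^ b` cosets `t + (A(K) + n A(L))`. -/
theorem v8_bound (L : IntermediateField K (AlgebraicClosure K)) [FiniteDimensional K L]
    (hodd : Odd (Module.finrank K L)) (A : Over (Spec (.of K))) [GrpObj A] [IsAbVar A]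
    (n : ℕ) (hn : n ≠ 0) (b : ℕ) (N : AddSubgroup (Pts A (AlgebraicClosure K)))
    (hN : ∀ x, x ∈ N ↔ n • x = 0) (hc : ModChain L A N b) : MulBound A L n b :=
  v8_mulBound A L n b N hN (gc_div A n hn) (v8_cover L hodd A N b hc)

/-- Let `L / K` be an extension of odd degree of number fields, `A / K` an abelian variety and
`0 = N_0 ≤ ⋯ ≤ N_r = A[2 ^ m]` Galois stable subgroups as in `ModChain`, with bound `b`. -/
theorem v8_main (L : IntermediateField K (AlgebraicClosure K)) [FiniteDimensional K L]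
    (hodd : Odd (Module.finrank K L))
    (A : Over (Spec (.of K))) [GrpObj A] [IsAbVar A]
    (m b : ℕ) (N : AddSubgroup (Pts A (AlgebraicClosure K)))
    (hN : ∀ x, x ∈ N ↔ (2 ^ m : ℕ) • x = 0) (hc : ModChain L A N b) :
    MulBound A L (2 ^ m) b ∧
    (b < m → ¬ NewPoint A L ∧ rk A L = rk A ⊥) ∧
    (Module.Finite ℤ (Pts A L) → rk A ⊥ ≤ rk A L ∧ m * (rk A L - rk A ⊥) ≤ b) ∧
    ∀ g : ℕ, topologicalKrullDim A.left = g → ∀ W : LocalSigns K, IsRootNumbers A W →
      ∀ (T : Finset (HeightOneSpectrum (𝓞 K))) (r : HeightOneSpectrum (𝓞 K) → ℕ),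
      (∀ v ∈ T, SplitTorus A v (r v) ∨ (QuadTorus A v (r v) ∧ OddRam L v) ∨
        (EvenSign W v (r v) ∧ UnrIn L v)) →
      (∀ v ∉ T, ∀ 𝔓, Above 𝔓 v → MildAt A L 𝔓) →
        signOver W g L = (-1) ^ signChange L g T r * signOver W g ⊥ ∧
        (b < m → ((ParityFor A g W L ↔ ParityFor A g W ⊥) ↔ Even (signChange L g T r))) ∧
        (b < 2 * m → Module.Finite ℤ (Pts A L) →
          ((ParityFor A g W L ↔ ParityFor A g W ⊥) ↔
            (Odd (signChange L g T r) ↔ NewPoint A L))) := by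
  have hq : MulBound A L (2 ^ m) b := v8_mulBound A L (2 ^ m) b N hN
    (gc_div A (2 ^ m) (pow_ne_zero m two_ne_zero)) (v8_cover L hodd A N b hc)
  exact ⟨hq, v8_concl L hodd A m b hq⟩

end Pool.Agent.H.MP_ac3185_nt
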