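import Pool.Agent.H.MP_ac3185_nt.V8.Sign

/-! The relation given by the set of all conjugates of `H`. -/

set_option autoImplicit false

open CategoryTheory AlgebraicGeometry NumberField IsDedekindDomain
open scoped MonObj

namespace Pool.Agent.H.MP_ac3185_nt

universe u

theorem v8_ncard_zmod {Q : Type*} [Fintype Q] (S : Set Q) [DecidablePred (· ∈ S)] :
    ((S.ncard : ℕ) : ZMod 2) = ∑ q : Q, if q ∈ S then (1 : ZMod 2) else 0 := by
  rw [Set.ncard_eq_toFinset_card', Finset.sum_boole]
  congr 2
  ext q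
  simp

section field

variable {K : Type u} [Field K] [CharZero K] {F : IntermediateField K (AlgebraicClosure K)}
  {A : Over (Spec (.of K))} [GrpObj A] [IsAbVar A]
  {N N' H : AddSubgroup (Pts A (AlgebraicClosure K))}

/-- If `N' / N` is simple and `F` is the field of the stabilizer of `H`, then `F = K` or the relation
given by the set of all conjugates of `H` holds. -/
theorem v8_univ_rel [FiniteDimensional K F] (hf : ModFrame F N N' H) (hne : H ≠ N')
    (hsimple : ∀ M : AddSubgroup (Pts A (AlgebraicClosure K)), N ≤ M → M ≤ N' →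
      (∀ s, ∀ x ∈ M, act A s x ∈ M) → M = N ∨ M = N')
    (hst : ∀ s, (∀ x, act A s x ∈ H ↔ x ∈ H) → s ∈ F.fixingSubgroup) :
    F = ⊥ ∨ ∀ x ∈ N', Even (Set.univ ∩ shadow F H x).ncard := by
  classical
  have hfi := vn_finiteIndex F
  let _ := F.fixingSubgroup.fintypeQuotientOfFiniteIndex
  have hmem : ∀ (x : Pts A (AlgebraicClosure K))
      (q : (AlgebraicClosure K ≃ₐ[K] AlgebraicClosure K) ⧸ F.fixingSubgroup),
      q ∈ shadow F H x ↔ act A q.out⁻¹ x ∉ H := by
    intro x q
    have h1 := v8_mem_shadow hf x q.out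
    rwa [QuotientGroup.out_eq'] at h1
  -- additivity
  have hadd : ∀ x ∈ N', ∀ y ∈ N', (((shadow F H (x + y)).ncard : ℕ) : ZMod 2) =
      ((shadow F H x).ncard : ℕ) + ((shadow F H y).ncard : ℕ) := by
    intro x hx y hy
    rw [v8_ncard_zmod, v8_ncard_zmod, v8_ncard_zmod, ← Finset.sum_add_distrib]
    refine Finset.sum_congr rfl fun q _ => ?_
    have e1 := hmem x q
    have e2 := hmem y q
    have e3 := hmem (x + y) q
    rw [v8_act_add] at e3
    have hx' := hf.stabN' q.out⁻¹ x hx
    have hy' := hf.stabN' q.out⁻¹ y hy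
    by_cases a : act A q.out⁻¹ x ∈ H
    · have a' : q ∉ shadow F H x := fun h => e1.1 h a
      rw [H.add_mem_cancel_left a] at e3
      rw [if_neg a', zero_add]
      by_cases b : act A q.out⁻¹ y ∈ H
      · rw [if_neg (fun h => e3.1 h b), if_neg (fun h => e2.1 h b)]
      · rw [if_pos (e3.2 b), if_pos (e2.2 b)]
    · have a' : q ∈ shadow F H x := e1.2 a
      rw [if_pos a']
      by_cases b : act A q.out⁻¹ y ∈ H
      · rw [H.add_mem_cancel_right b] at e3
        rw [if_pos (e3.2 a), if_neg (fun h => e2.1 h b), add_zero]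
      · have h3 := hf.index _ hx' _ hy' a b
        rw [if_neg (fun h => e3.1 h h3), if_pos (e2.2 b)]
        decide
  -- invariance
  have hinv : ∀ s x, (shadow F H (act A s x)).ncard = (shadow F H x).ncard := by
    intro s x
    have h1 : shadow F H (act A s x) = (fun q => s • q) '' shadow F H x := by
      ext q
      constructor
      · rintro ⟨g, rfl, hg⟩
        refine ⟨((s⁻¹ * g : AlgebraicClosure K ≃ₐ[K] AlgebraicClosure K) :
          (AlgebraicClosure K ≃ₐ[K] AlgebraicClosure K) ⧸ F.fixingSubgroup), ⟨s⁻¹ * g, rfl, ?_⟩, ?_⟩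
        · rw [mul_inv_rev, inv_inv, v2s_act_mul]
          exact hg
        · show ((s * (s⁻¹ * g) : AlgebraicClosure K ≃ₐ[K] AlgebraicClosure K) :
            (AlgebraicClosure K ≃ₐ[K] AlgebraicClosure K) ⧸ F.fixingSubgroup) = _
          rw [mul_inv_cancel_left]
      · rintro ⟨_, ⟨g, rfl, hg⟩, rfl⟩
        refine ⟨s * g, rfl, ?_⟩
        rw [mul_inv_rev, v2s_act_mul, ← v2s_act_mul A s⁻¹ s, inv_mul_cancel, v2s_act_one]
        exact hg
    rw [h1, Set.ncard_image_of_injective _ (MulAction.injective s)]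
  have h0 : ∀ x ∈ N, (shadow F H x).ncard = 0 := by
    intro x hx
    have h1 : shadow F H x = ∅ := by
      ext q
      rw [hmem]
      exact iff_of_false (fun h => h (hf.le (hf.stabN _ x hx))) (Set.notMem_empty q)
    rw [h1, Set.ncard_empty]
  let M : AddSubgroup (Pts A (AlgebraicClosure K)) :=
    { carrier := {x | x ∈ N' ∧ (((shadow F H x).ncard : ℕ) : ZMod 2) = 0}
      zero_mem' := ⟨N'.zero_mem, by rw [h0 0 N.zero_mem, Nat.cast_zero]⟩
      add_mem' := fun {x y} hx hy => ⟨N'.add_mem hx.1 hy.1, by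
        rw [hadd x hx.1 y hy.1, hx.2, hy.2, add_zero]⟩
      neg_mem' := fun {x} hx => ⟨N'.neg_mem hx.1, by
        have h1 := hadd x hx.1 (-x) (N'.neg_mem hx.1)
        rw [add_neg_cancel, h0 0 N.zero_mem, hx.2, zero_add, Nat.cast_zero] at h1
        exact h1.symm⟩ }
  have hM : ∀ x, x ∈ M ↔ x ∈ N' ∧ (((shadow F H x).ncard : ℕ) : ZMod 2) = 0 := fun _ => Iff.rfl
  rcases hsimple M (fun x hx => ⟨hf.le' (hf.le hx), by rw [h0 x hx, Nat.cast_zero]⟩)
    (fun x hx => hx.1) (fun s x hx => ⟨hf.stabN' s x hx.1, by rw [hinv]; exact hx.2⟩) with h | h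
  · left
    -- the quotient has order `2`
    have hodd : ∀ x ∈ N', x ∉ N → (((shadow F H x).ncard : ℕ) : ZMod 2) = 1 := by
      intro x hx hxN
      have h1 : (((shadow F H x).ncard : ℕ) : ZMod 2) ≠ 0 := by
        intro h2
        apply hxN
        rw [← h]
        exact ⟨hx, h2⟩
      have h2 : ∀ z : ZMod 2, z ≠ 0 → z = 1 := by decide
      exact h2 _ h1
    have hHN : H = N := by
      refine le_antisymm (fun x hx => ?_) hf.le
      by_contra hxN
      apply hne
      refine le_antisymm hf.le' fun y hy => ?_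
      by_cases hyN : y ∈ N
      · exact hf.le hyN
      · have h1 := hadd x (hf.le' hx) y hy
        rw [hodd x (hf.le' hx) hxN, hodd y hy hyN] at h1
        have h2 : x + y ∈ N := by
          rw [← h]
          refine ⟨N'.add_mem (hf.le' hx) hy, ?_⟩
          rw [h1]
          decide
        have h3 := H.sub_mem (hf.le h2) hx
        rwa [add_sub_cancel_left] at h3
    have htop : F.fixingSubgroup = ⊤ := by
      rw [eq_top_iff]
      intro s _
      refine hst s fun x => ?_
      rw [hHN]
      constructor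
      · intro h1
        have h2 := hf.stabN s⁻¹ _ h1
        rwa [← v2s_act_mul, inv_mul_cancel, v2s_act_one] at h2
      · exact hf.stabN s x
    have h1 : Module.finrank K F = 1 := by
      rw [← vn_index, htop, Subgroup.index_top]
    exact IntermediateField.finrank_eq_one_iff.1 h1
  · right
    intro x hx
    have h1 : x ∈ M := by
      rw [h]
      exact hx
    rw [Set.univ_inter]
    exact (ZMod.natCast_eq_zero_iff_even).1 h1.2

end field

end Pool.Agent.H.MP_ac3185_nt
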