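import Pool.Agent.H.MP_ac3185_nt.V8.Layers
import Pool.Agent.H.MP_ac3185_nt.V8.EtaleAll
import Pool.Agent.H.MP_ac3185_nt.V8.UnivRel
import Pool.Agent.H.MP_ac3185_nt.V8.Main

/-! Existence of the layers for every abelian variety, with data independent of `L`. -/

set_option autoImplicit false

open CategoryTheory AlgebraicGeometry NumberField IsDedekindDomain
open scoped MonObj

namespace Pool.Agent.H.MP_ac3185_nt

universe u

variable {K : Type u} [Field K] [NumberField K]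

/-- The places above `2` are finite in number. -/
theorem v8x_two : {v : HeightOneSpectrum (𝓞 K) | (2 : 𝓞 K) ∈ v.asIdeal}.Finite := by
  have h := Ideal.finite_factors (R := 𝓞 K) (I := Ideal.span {(2 : 𝓞 K)}) (by
    rw [Ne, Ideal.zero_eq_bot, Ideal.span_singleton_eq_bot]
    exact two_ne_zero)
  refine h.subset fun v hv => ?_
  exact Ideal.dvd_span_singleton.2 hv

omit [NumberField K] in
/-- The place of `K` below a place of `F`. -/
theorem v8x_under (F : IntermediateField K (AlgebraicClosure K)) [FiniteDimensional K F]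
    (v : HeightOneSpectrum (𝓞 F)) : ∃ v₀ : HeightOneSpectrum (𝓞 K), Divides F v v₀ := by
  have hint : Algebra.IsIntegral (𝓞 K) (𝓞 F) := inferInstance
  exact ⟨v.under (𝓞 K), rfl⟩

theorem v8x_above {F : IntermediateField K (AlgebraicClosure K)}
    {v : HeightOneSpectrum (𝓞 F)} {v₀ : HeightOneSpectrum (𝓞 K)} (h : Divides F v v₀)
    {𝔓 : Ideal (𝓞 (AlgebraicClosure K))} (h𝔓 : PrimeOver F 𝔓 v) : Above 𝔓 v₀ := by
  refine ⟨h𝔓.1, ?_⟩
  rw [← plb_comap_comap F 𝔓, h𝔓.2]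
  exact h

omit [NumberField K] in
theorem v8x_mem_two {F : IntermediateField K (AlgebraicClosure K)}
    {v : HeightOneSpectrum (𝓞 F)} {v₀ : HeightOneSpectrum (𝓞 K)} (h : Divides F v v₀) :
    (2 : 𝓞 K) ∈ v₀.asIdeal ↔ (2 : 𝓞 F) ∈ v.asIdeal := by
  have h1 : v.asIdeal.comap (algebraMap (𝓞 K) (𝓞 F)) = v₀.asIdeal := h
  rw [← h1, Ideal.mem_comap, map_ofNat]

/-- The places of `F` above a finite set of places of `K`. -/
theorem v8x_finite (F : IntermediateField K (AlgebraicClosure K)) [FiniteDimensional K F]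
    (S₀ : Finset (HeightOneSpectrum (𝓞 K))) :
    {v : HeightOneSpectrum (𝓞 F) | ∃ v₀ ∈ S₀, Divides F v v₀}.Finite := by
  have hnF : NumberField F := NumberField.of_module_finite K F
  have h1 : {v : HeightOneSpectrum (𝓞 F) | ∃ v₀ ∈ S₀, Divides F v v₀} =
      ⋃ v₀ ∈ S₀, {v : HeightOneSpectrum (𝓞 F) | Divides F v v₀} := by
    ext v
    simp
  rw [h1]
  refine Set.Finite.biUnion S₀.finite_toSet fun v₀ _ => ?_
  have h2 : Finite (PlacesOver F v₀) := inferInstance
  exact @Set.toFinite _ {v : HeightOneSpectrum (𝓞 F) | Divides F v v₀} h2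

/-- For every abelian variety `A` there are Galois stable subgroups `0 = N_0 < ⋯ < N_r = A[2]` with simple
quotients, subgroups `H_i` of index `2` of `N_(i+1)` above `N_i`, with stabilizers of odd index and fixed
fields `F_i`, such that `N_(i+1) / H_i` is etale at the places of `F_i` which do not lie above a finite
set `S₀` of places of `K`; and `F_i = K` or the set of all conjugates of `H_i` gives a relation. -/
theorem v8_exists (A : Over (Spec (.of K))) [GrpObj A] [IsAbVar A] :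
    ∃ (S₀ : Finset (HeightOneSpectrum (𝓞 K))) (r : ℕ)
      (N H : ℕ → AddSubgroup (Pts A (AlgebraicClosure K)))
      (F : ℕ → IntermediateField K (AlgebraicClosure K)), N 0 = ⊥ ∧
      (∀ x, x ∈ N r ↔ 2 • x = 0) ∧ (∀ i, ∀ x ∈ N i, 2 • x = 0) ∧
      (∀ i, FiniteDimensional K (F i)) ∧
      ∀ i < r, SimpleFrame (F i) (N i) (N (i + 1)) (H i) ∧
        (∀ s, (∀ x : Pts A (AlgebraicClosure K), 2 • x = 0 → act A s x = x) →
          s ∈ (F i).fixingSubgroup) ∧
        (F i = ⊥ ∨ ∀ x ∈ N (i + 1), Even (Set.univ ∩ shadow (F i) (H i) x).ncard) ∧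
        ∀ v : HeightOneSpectrum (𝓞 (F i)), (∀ v₀ ∈ S₀, ¬ Divides (F i) v v₀) →
          (2 : 𝓞 (F i)) ∉ v.asIdeal ∧
          ∀ 𝔓, PrimeOver (F i) 𝔓 v → EtaleQuot (F i) (N (i + 1)) (H i) 𝔓 := by
  classical
  obtain ⟨S1, hS1, hE⟩ := ea_etale A
  obtain ⟨r, N, H, F, h0, hr, h2, hF, hi⟩ := v8_layers A
  let S₀ : Finset (HeightOneSpectrum (𝓞 K)) := hS1.toFinset ∪ v8x_two.toFinset
  refine ⟨S₀, r, N, H, F, h0, hr, h2, hF, fun i hir => ?_⟩
  have hf := hi i hir
  have hFi' := hF i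
  refine ⟨hf, fun s hs => hf.sub s fun x hx => ?_,
    v8_univ_rel hf.toModFrame hf.ne hf.simple hf.stabF, fun v hv => ?_⟩
  · rw [hs x (h2 _ x hx), sub_self]
    exact (N i).zero_mem
  · have hFi := hF i
    obtain ⟨v₀, hv₀⟩ := v8x_under (F i) v
    have hn : v₀ ∉ S₀ := fun h => hv v₀ h hv₀
    have hn1 : v₀ ∉ S1 := fun h => hn (Finset.mem_union_left _ (hS1.mem_toFinset.2 h))
    have hn2 : (2 : 𝓞 K) ∉ v₀.asIdeal := fun h =>
      hn (Finset.mem_union_right _ (v8x_two.mem_toFinset.2 h))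
    have hv2 : (2 : 𝓞 (F i)) ∉ v.asIdeal := fun h => hn2 ((v8x_mem_two hv₀).2 h)
    refine ⟨hv2, fun 𝔓 h𝔓 => ?_⟩
    obtain ⟨R, hR, ρ, hρ, hρ'⟩ := hE v₀ hn1 𝔓 (v8x_above hv₀ h𝔓)
    refine ⟨R, hR, ρ, fun s hs _ x => hρ s hs x, fun x hx hx0 => ?_⟩
    have h3 : ((2 : ℕ) : 𝓞 (AlgebraicClosure K)) ∉ 𝔓 := by
      rw [Nat.cast_ofNat]
      exact fun h => hv2 ((v6_two_mem h𝔓).1 h)
    rw [hρ' 2 h3 x (h2 _ x hx) hx0]
    exact (H i).zero_mem

omit [NumberField K] in
/-- Composition of the layers. -/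
theorem v8_modChain (L : IntermediateField K (AlgebraicClosure K))
    (A : Over (Spec (.of K))) [GrpObj A] [IsAbVar A] (r : ℕ)
    (N H : ℕ → AddSubgroup (Pts A (AlgebraicClosure K)))
    (F : ℕ → IntermediateField K (AlgebraicClosure K))
    (Rel : ∀ i, Set (Set ((AlgebraicClosure K ≃ₐ[K] AlgebraicClosure K) ⧸ (F i).fixingSubgroup)))
    (T : ∀ i, Set (HeightOneSpectrum (𝓞 (F i)))) (R : ∀ i, Set (F i →+* ℂ))
    (S : ∀ i, Finset (HeightOneSpectrum (𝓞 (F i)))) (ρ : ℕ → ℕ) (h0 : N 0 = ⊥)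
    (hF : ∀ i, FiniteDimensional K (F i))
    (hl : ∀ i < r, LayerAt L (F i) (Rel i) (T i) (R i) (S i) (N i) (N (i + 1)) (H i))
    (hρ : ∀ i < r, SquareClasses (frameClasses L (F i) (Rel i) (T i) (R i)) (2 ^ ρ i)) :
    ModChain L A (N r) (∑ i ∈ Finset.range r, (ρ i + excessOver L (F i) (S i))) := by
  induction r with
  | zero =>
    rw [Finset.sum_range_zero, h0]
    exact ModChain.zero
  | succ r ih =>
    rw [Finset.sum_range_succ]
    have hFr := hF r
    exact ModChain.step (N r) (N (r + 1)) (H r) _ (ρ r) (F r) (Rel r) (T r) (R r) (S r)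
      (ih (fun i hi => hl i (Nat.lt_succ_of_lt hi)) (fun i hi => hρ i (Nat.lt_succ_of_lt hi)))
      (hl r (Nat.lt_succ_self r)) (hρ r (Nat.lt_succ_self r))

omit [NumberField K] in
/-- A layer, if `L` is linearly disjoint from the field of the points killed by `2`. -/
theorem v8_layerAt {L F : IntermediateField K (AlgebraicClosure K)}
    {A : Over (Spec (.of K))} [GrpObj A] [IsAbVar A]
    {N N' H : AddSubgroup (Pts A (AlgebraicClosure K))} (hf : ModFrame F N N' H)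
    (h2 : ∀ x ∈ N', 2 • x = 0)
    (hlin : ∀ s, ∃ t ∈ L.fixingSubgroup, ∀ x : Pts A (AlgebraicClosure K), 2 • x = 0 →
      act A (t⁻¹ * s) x = x)
    (Rel : Set (Set ((AlgebraicClosure K ≃ₐ[K] AlgebraicClosure K) ⧸ F.fixingSubgroup)))
    (T : Set (HeightOneSpectrum (𝓞 F))) (R : Set (F →+* ℂ)) (S : Finset (HeightOneSpectrum (𝓞 F)))
    (hRel : ∀ Ω ∈ Rel, ∀ x ∈ N', Even (Ω ∩ shadow F H x).ncard)
    (hT : ∀ v ∈ T, ∀ 𝔓, PrimeOver F 𝔓 v → EtaleQuot F N' H 𝔓)
    (hR : ∀ (e : AlgebraicClosure K →+* ℂ) (s : AlgebraicClosure K ≃ₐ[K] AlgebraicClosure K),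
      e.comp (algebraMap F (AlgebraicClosure K)) ∈ R → s ∈ F.fixingSubgroup →
      (∀ z, e (s z) = starRingEnd ℂ (e z)) →
      ∀ x, act A s x - x ∈ N' → act A s x - x ∈ H)
    (hS : ∀ v ∉ S, v ∉ T → (2 : 𝓞 F) ∉ v.asIdeal ∧
      ∀ 𝔓, PrimeOver F 𝔓 v → EtaleQuot F N' H 𝔓) :
    LayerAt L F Rel T R S N N' H where
  toModFrame := hf
  lin := fun s => by
    obtain ⟨t, ht, h⟩ := hlin s
    refine ⟨t, ht, fun x hx => ?_⟩
    rw [h x (h2 x hx), sub_self]
    exact N.zero_mem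
  rel := hRel
  etale := hT
  two := fun v hvS hvT hv2 => absurd hv2 (hS v hvS hvT).1
  away := fun v hvS _ => by
    by_cases hvT : v ∈ T
    · exact Or.inl (hT v hvT)
    · exact Or.inl (hS v hvS hvT).2
  real := hR

/-- For every abelian variety `A` over `K` there are a finite set `S₀` of places of `K`, fields `F_i`,
`i < r`, in `K(A[2])` of odd degree over `K` and the finite sets `S_i` of the places of `F_i` above `S₀`
such that for all `L / K` of odd degree, linearly disjoint from `K(A[2])`, the group `A(L)` is the union of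
at most `2 ^ b` cosets of `A(K) + 2 A(L)`, where `b` is the sum of the `ρ_i + ∑ (g_v - 1)`, `v ∈ S_i`. -/
theorem v8_uncond (A : Over (Spec (.of K))) [GrpObj A] [IsAbVar A] :
    ∃ (S₀ : Finset (HeightOneSpectrum (𝓞 K))) (r : ℕ)
      (F : ℕ → IntermediateField K (AlgebraicClosure K))
      (S : ∀ i, Finset (HeightOneSpectrum (𝓞 (F i)))),
      (∀ i, FiniteDimensional K (F i)) ∧ (∀ i v, v ∈ S i ↔ ∃ v₀ ∈ S₀, Divides (F i) v v₀) ∧
      (∀ i < r, Odd (Module.finrank K (F i)) ∧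
        ∀ s, (∀ x : Pts A (AlgebraicClosure K), 2 • x = 0 → act A s x = x) →
          s ∈ (F i).fixingSubgroup) ∧
      ∀ (L : IntermediateField K (AlgebraicClosure K)) [FiniteDimensional K L],
        Odd (Module.finrank K L) →
        (∀ s, ∃ t ∈ L.fixingSubgroup, ∀ x : Pts A (AlgebraicClosure K), 2 • x = 0 →
          act A (t⁻¹ * s) x = x) →
        (∀ i < r, TransOn L (F i).fixingSubgroup) ∧
        ∀ ρ : ℕ → ℕ, (∀ i < r, SquareClasses (frameClasses L (F i) ∅ ∅ ∅) (2 ^ ρ i)) →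
          MulBound A L 2 (∑ i ∈ Finset.range r, (ρ i + excessOver L (F i) (S i))) := by
  classical
  obtain ⟨S₀, r, N, H, F, h0, hr, h2, hF, hi⟩ := v8_exists A
  have hfin : ∀ i, {v : HeightOneSpectrum (𝓞 (F i)) | ∃ v₀ ∈ S₀, Divides (F i) v v₀}.Finite :=
    fun i => by
      have hFi := hF i
      exact v8x_finite (F i) S₀
  refine ⟨S₀, r, F, fun i => (hfin i).toFinset, hF, fun i v => (hfin i).mem_toFinset, fun i hir =>
    ⟨(hi i hir).1.odd, (hi i hir).2.1⟩, fun L _ hodd hlin => ⟨fun i hir => ?_, fun ρ hρ => ?_⟩⟩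
  · obtain ⟨hf, -⟩ := hi i hir
    refine v8_transOn L (F i) hf.toModFrame fun s => ?_
    obtain ⟨t, ht, h⟩ := hlin s
    refine ⟨t, ht, fun x hx => ?_⟩
    rw [h x (h2 _ x hx), sub_self]
    exact (N i).zero_mem
  · have hc : ModChain L A (N r)
        (∑ i ∈ Finset.range r, (ρ i + excessOver L (F i) (hfin i).toFinset)) := by
      refine v8_modChain L A r N H F (fun _ => ∅) (fun _ => ∅) (fun _ => ∅)
        (fun i => (hfin i).toFinset) ρ h0 hF (fun i hir => ?_) hρ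
      obtain ⟨hf, -, -, hE⟩ := hi i hir
      refine v8_layerAt hf.toModFrame (h2 _) hlin ∅ ∅ ∅ _ (fun Ω hΩ => absurd hΩ (Set.notMem_empty Ω))
        (fun v hv => absurd hv (Set.notMem_empty v))
        (fun e s he => absurd he (Set.notMem_empty _)) (fun v hv _ => hE v fun v₀ hv₀ hd => ?_)
      exact hv ((hfin i).mem_toFinset.2 ⟨v₀, hv₀, hd⟩)
    exact v8_bound L hodd A 2 two_ne_zero _ (N r) hr hc

end Pool.Agent.H.MP_ac3185_nt
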