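import Pool.Agent.H.MP_ac3185_nt.V8.Split

/-! The square class attached to a point which is rational over `L` modulo `N'`. -/

set_option autoImplicit false

open CategoryTheory AlgebraicGeometry NumberField IsDedekindDomain
open scoped MonObj

namespace Pool.Agent.H.MP_ac3185_nt

universe u

section gen

variable {K : Type u} [Field K] [CharZero K] {A : Over (Spec (.of K))} [GrpObj A] [IsAbVar A]
  {N N' H : AddSubgroup (Pts A (AlgebraicClosure K))}

/-- The element `u` with `u² = c(P)`, over the base `M`: there are functions `u` and `β` such that for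
all points `P` which are rational over `L M` modulo `N'`: `β(P)` is rational over `LM` modulo `N'`;
`s (u P) = ± u P` for `s` in `Gal(Kbar/LFM)`, with the sign of `s β(P) - β(P)` modulo `H`; the norm of
`u²` to `FM` is a square in `FM`; the relations; `u P * u Q * u (P + Q)` is in `LFM`; and `P` is in
`A(M) + A(LM)`, modulo `N'` and `N` respectively, if `u P` is in `LFM`. -/
theorem v8_gen (L F M : IntermediateField K (AlgebraicClosure K)) [FiniteDimensional K L]
    [FiniteDimensional K F] [FiniteDimensional K M] (hodd : Odd (Module.finrank K L))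
    (hf : ModFrame F N N' H)
    (hcore : ∀ x ∈ N', (∀ g ∈ M.fixingSubgroup, act A g x ∈ H) → x ∈ N)
    (hlin : ∀ s, ∃ t ∈ M.fixingSubgroup, (∀ x ∈ N', act A t x - x ∈ N) ∧
      t⁻¹ * s ∈ L.fixingSubgroup) :
    ∃ (u : Pts A (AlgebraicClosure K) → AlgebraicClosure K)
      (β : Pts A (AlgebraicClosure K) → Pts A (AlgebraicClosure K)), (∀ P, u P ≠ 0) ∧
      (∀ P Q, β (P + Q) = β P + β Q) ∧
      ∀ P ∈ ratPts A (L.fixingSubgroup ⊓ M.fixingSubgroup) N',
        β P ∈ ratPts A (L.fixingSubgroup ⊓ M.fixingSubgroup) N' ∧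
        (∀ s ∈ L.fixingSubgroup, s ∈ F.fixingSubgroup → s ∈ M.fixingSubgroup →
          s (u P) = sgH H (act A s (β P) - β P) * u P) ∧
        (∃ d, FixG (F.fixingSubgroup ⊓ M.fixingSubgroup) d ∧
          normG L (F.fixingSubgroup ⊓ M.fixingSubgroup) (u P * u P) = d * d) ∧
        (∀ Ω : Set ((AlgebraicClosure K ≃ₐ[K] AlgebraicClosure K) ⧸ F.fixingSubgroup),
          (∀ q ∈ Ω, ∃ g ∈ M.fixingSubgroup,
            (g : (AlgebraicClosure K ≃ₐ[K] AlgebraicClosure K) ⧸ F.fixingSubgroup) = q) →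
          (∀ x ∈ N', Even (Ω ∩ shadow F H x).ncard) →
          ∃ d : AlgebraicClosure K, (∀ s ∈ L.fixingSubgroup, s ∈ M.fixingSubgroup →
            (∀ q ∈ Ω, s • q ∈ Ω) → s d = d) ∧
            ∏ᶠ q ∈ Ω, repG F (L.fixingSubgroup ⊓ M.fixingSubgroup) q (u P * u P) = d * d) ∧
        (∀ Q ∈ ratPts A (L.fixingSubgroup ⊓ M.fixingSubgroup) N', ∀ s ∈ L.fixingSubgroup,
          s ∈ F.fixingSubgroup → s ∈ M.fixingSubgroup →
            s (u P * u Q * u (P + Q)) = u P * u Q * u (P + Q)) ∧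
        ((∀ s ∈ L.fixingSubgroup, s ∈ F.fixingSubgroup → s ∈ M.fixingSubgroup →
          s (u P) = u P) → ∃ y0 x, y0 ∈ ratPts A M.fixingSubgroup N' ∧
            x ∈ ratPts A (L.fixingSubgroup ⊓ M.fixingSubgroup) N ∧ P = y0 + x) := by
  classical
  have hT := v8_lin L F M.fixingSubgroup hf hlin
  set β : Pts A (AlgebraicClosure K) → Pts A (AlgebraicClosure K) := fun P =>
    P + v8Tr A L (F.fixingSubgroup ⊓ M.fixingSubgroup) P with hβdef
  have hβadd : ∀ P Q, β (P + Q) = β P + β Q := by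
    intro P Q
    show P + Q + _ = P + _ + (Q + _)
    rw [v8_tr_add]
    abel
  have hfi := vn_finiteIndex L
  let _ := L.fixingSubgroup.fintypeQuotientOfFiniteIndex
  have hpt : ∀ P : Pts A (AlgebraicClosure K), ∃ u : AlgebraicClosure K, u ≠ 0 ∧
      (P ∈ ratPts A (L.fixingSubgroup ⊓ M.fixingSubgroup) N' →
        (∀ s ∈ L.fixingSubgroup, s ∈ F.fixingSubgroup → s ∈ M.fixingSubgroup →
          s u = sgH H (act A s (β P) - β P) * u) ∧
        ∃ d, FixG (F.fixingSubgroup ⊓ M.fixingSubgroup) d ∧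
          normG L (F.fixingSubgroup ⊓ M.fixingSubgroup) (u * u) = d * d) := by
    intro P
    by_cases hP : P ∈ ratPts A (L.fixingSubgroup ⊓ M.fixingSubgroup) N'
    · obtain ⟨u, hu, -, hs, hd⟩ := v8_pt L F M hodd hT hf P hP
      exact ⟨u, hu, fun _ => ⟨hs, hd⟩⟩
    · exact ⟨1, one_ne_zero, fun h => absurd h hP⟩
  choose u hu0 hall using hpt
  -- the trace with other representatives
  have hM : ∀ q : (AlgebraicClosure K ≃ₐ[K] AlgebraicClosure K) ⧸ L.fixingSubgroup,
      repG L (F.fixingSubgroup ⊓ M.fixingSubgroup) q ∈ M.fixingSubgroup :=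
    fun q => (v4_rep L _ hT q).1.2
  have hTr : ∀ P ∈ ratPts A (L.fixingSubgroup ⊓ M.fixingSubgroup) N',
      v8Tr A L (F.fixingSubgroup ⊓ M.fixingSubgroup) P ∈ ratPts A M.fixingSubgroup N' := by
    intro P hP
    unfold v8Tr
    rw [finsum_eq_sum_of_fintype]
    exact v8_trace L M.fixingSubgroup hf.stabN' _ hM (fun q => (v4_rep L _ hT q).2) P hP
  have hβ : ∀ P ∈ ratPts A (L.fixingSubgroup ⊓ M.fixingSubgroup) N',
      β P ∈ ratPts A (L.fixingSubgroup ⊓ M.fixingSubgroup) N' := by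
    intro P hP
    exact (ratPts A (L.fixingSubgroup ⊓ M.fixingSubgroup) N').add_mem hP
      fun s hs => hTr P hP s hs.2
  refine ⟨u, β, hu0, hβadd, fun P hP => ?_⟩
  obtain ⟨h1, h2⟩ := hall P hP
  refine ⟨hβ P hP, h1, h2, ?_, ?_, ?_⟩
  · intro Ω hΩG hΩ
    exact v8_rel L F M.fixingSubgroup hf hlin Ω hΩG hΩ (hβ P hP) h1
  · intro Q hQ s hs hs' hs''
    have hPQ := (ratPts A (L.fixingSubgroup ⊓ M.fixingSubgroup) N').add_mem hP hQ
    obtain ⟨q1, -⟩ := hall Q hQ
    obtain ⟨w1, -⟩ := hall (P + Q) hPQ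
    have h3 : act A s (β (P + Q)) - β (P + Q) = (act A s (β P) - β P) +
        (act A s (β Q) - β Q) := by
      rw [hβadd, v8_act_add]
      abel
    rw [map_mul, map_mul, h1 s hs hs' hs'', q1 s hs hs' hs'', w1 s hs hs' hs'', h3,
      v8_sg_add hf (hβ P hP s ⟨hs, hs''⟩) (hβ Q hQ s ⟨hs, hs''⟩)]
    have h4 := sgH_mul_self (H := H) (act A s (β P) - β P)
    have h5 := sgH_mul_self (H := H) (act A s (β Q) - β Q)
    linear_combination (u P * u Q * u (P + Q) * sgH H (act A s (β Q) - β Q) *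
      sgH H (act A s (β Q) - β Q)) * h4 + (u P * u Q * u (P + Q)) * h5
  · intro h3
    obtain ⟨y0, x, hy0, hx, hyx⟩ := v8_split L F M.fixingSubgroup hodd hf hcore hlin (hβ P hP)
      (fun s hs hs' hs'' => by
        have h4 := h1 s hs hs' hs''
        rw [h3 s hs hs' hs''] at h4
        rw [← sgH_eq_one]
        exact (mul_right_cancel₀ (hu0 P) (by rw [one_mul]; exact h4)).symm)
    refine ⟨y0 - v8Tr A L (F.fixingSubgroup ⊓ M.fixingSubgroup) P, x,
      (ratPts A M.fixingSubgroup N').sub_mem hy0 (hTr P hP), hx, ?_⟩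
    have h4 : y0 + x - v8Tr A L (F.fixingSubgroup ⊓ M.fixingSubgroup) P = P := by
      rw [← hyx]
      exact add_sub_cancel_right P _
    calc P = y0 + x - v8Tr A L (F.fixingSubgroup ⊓ M.fixingSubgroup) P := h4.symm
      _ = _ := by abel

/-- For `N ≤ H ≤ N'` as in `ModFrame` there is a function `c` from `A(Kbar)` to `(LF)^*`, additive
modulo squares on the points which are rational over `L` modulo `N'`, whose values there have norms to
`F` which are squares, satisfy the relations and the local conditions, such that `c(P)` is a square only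
if `P` is the sum of a point rational over `K` modulo `N'` and a point rational over `L` modulo `N`. -/
theorem modGen (L F : IntermediateField K (AlgebraicClosure K)) [FiniteDimensional K L]
    [FiniteDimensional K F] (hodd : Odd (Module.finrank K L)) (hf : ModFrame F N N' H)
    (hlin : ∀ s, ∃ t ∈ L.fixingSubgroup, ∀ x ∈ N', act A (t⁻¹ * s) x - x ∈ N) :
    TransOn L F.fixingSubgroup ∧
    ∃ c : Pts A (AlgebraicClosure K) → (L ⊔ F : IntermediateField K (AlgebraicClosure K)),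
      (∀ P, c P ≠ 0) ∧
      (∀ P ∈ ratPts A L.fixingSubgroup N',
        ∃ d ∈ F, normG L F.fixingSubgroup (c P : AlgebraicClosure K) = d * d) ∧
      (∀ P ∈ ratPts A L.fixingSubgroup N',
        ∀ Ω : Set ((AlgebraicClosure K ≃ₐ[K] AlgebraicClosure K) ⧸ F.fixingSubgroup),
          (∀ x ∈ N', Even (Ω ∩ shadow F H x).ncard) → ∃ d : AlgebraicClosure K,
            (∀ s ∈ L.fixingSubgroup, (∀ q ∈ Ω, s • q ∈ Ω) → s d = d) ∧
            ∏ᶠ q ∈ Ω, repG F L.fixingSubgroup q (c P : AlgebraicClosure K) = d * d) ∧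
      (∀ P ∈ ratPts A L.fixingSubgroup N', ∀ Q ∈ ratPts A L.fixingSubgroup N',
        IsSquare (c P * c Q * c (P + Q))) ∧
      (∀ 𝔓, EtaleQuot F N' H 𝔓 → ∀ P ∈ ratPts A L.fixingSubgroup N',
        UnrAt (L ⊔ F) 𝔓 (c P)) ∧
      (∀ (S : Finset (HeightOneSpectrum (𝓞 F))) (𝔓 : Ideal (𝓞 (AlgebraicClosure K))),
        EvenQuot L F N' H S 𝔓 → ∀ P ∈ ratPts A L.fixingSubgroup N',
        (∀ v ∈ S, ∀ 𝔔, PrimeOver F 𝔔 v → EvenAt (L ⊔ F) 𝔔 (c P : AlgebraicClosure K)) →
        EvenAt (L ⊔ F) 𝔓 (c P)) ∧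
      (∀ e : AlgebraicClosure K →+* ℂ, (∀ x ∈ L ⊔ F, starRingEnd ℂ (e x) = e x) →
        (∀ s ∈ F.fixingSubgroup, (∀ z, e (s z) = starRingEnd ℂ (e z)) →
          ∀ x, act A s x - x ∈ N' → act A s x - x ∈ H) →
        ∀ P ∈ ratPts A L.fixingSubgroup N', ∃ t : ℝ, 0 < t ∧ e (c P) = t) ∧
      (∀ P ∈ ratPts A L.fixingSubgroup N', IsSquare (c P) →
        ∃ y0 x, y0 ∈ ratPts A ⊤ N' ∧ x ∈ ratPts A L.fixingSubgroup N ∧ P = y0 + x) := by
  classical
  have hbot : (⊥ : IntermediateField K (AlgebraicClosure K)).fixingSubgroup = ⊤ :=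
    IntermediateField.fixingSubgroup_bot
  have hlin' : ∀ s, ∃ t ∈ (⊤ : Subgroup (AlgebraicClosure K ≃ₐ[K] AlgebraicClosure K)),
      (∀ x ∈ N', act A t x - x ∈ N) ∧ t⁻¹ * s ∈ L.fixingSubgroup := by
    intro s
    obtain ⟨t, ht, hw⟩ := hlin s⁻¹
    have hw' : t⁻¹ * s⁻¹ ∈ v8Triv hf := hw
    refine ⟨(t⁻¹ * s⁻¹)⁻¹, Subgroup.mem_top _, inv_mem hw', ?_⟩
    have h1 : ((t⁻¹ * s⁻¹)⁻¹)⁻¹ * s = t⁻¹ := by group
    rw [h1]
    exact inv_mem ht
  have hT : TransOn L F.fixingSubgroup := by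
    have h1 := v8_lin L F ⊤ hf hlin'
    rwa [inf_top_eq] at h1
  refine ⟨hT, ?_⟩
  obtain ⟨u, β, hu0, hβadd, hall⟩ := v8_gen L F ⊥ hodd hf
    (fun x hx h => hf.core x hx fun g => h g (by rw [hbot]; exact Subgroup.mem_top g))
    (by rw [hbot]; exact hlin')
  simp only [hbot, inf_top_eq, Subgroup.mem_top, true_imp_iff, true_and] at hall
  have hsup : ∀ s, s ∈ (L ⊔ F : IntermediateField K (AlgebraicClosure K)).fixingSubgroup ↔
      s ∈ L.fixingSubgroup ∧ s ∈ F.fixingSubgroup := by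
    intro s
    rw [IntermediateField.fixingSubgroup_sup]
    exact Iff.rfl
  have hfix : ∀ P ∈ ratPts A L.fixingSubgroup N', ∀ s ∈ L.fixingSubgroup,
      s ∈ F.fixingSubgroup → s (u P * u P) = u P * u P := by
    intro P hP s hs hs'
    obtain ⟨-, h1, -⟩ := hall P hP
    have h3 := sgH_mul_self (H := H) (act A s (β P) - β P)
    rw [map_mul, h1 s hs hs']
    calc _ = sgH H (act A s (β P) - β P) * sgH H (act A s (β P) - β P) * (u P * u P) := by ring
      _ = u P * u P := by rw [h3, one_mul]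
  have hc : ∀ P : Pts A (AlgebraicClosure K),
      ∃ c : (L ⊔ F : IntermediateField K (AlgebraicClosure K)), c ≠ 0 ∧
        (P ∈ ratPts A L.fixingSubgroup N' → u P * u P = c) := by
    intro P
    by_cases hP : P ∈ ratPts A L.fixingSubgroup N'
    · have hmem : u P * u P ∈ (L ⊔ F : IntermediateField K (AlgebraicClosure K)) := by
        apply vn_mem
        intro s hs
        exact hfix P hP s ((hsup s).1 hs).1 ((hsup s).1 hs).2
      refine ⟨⟨u P * u P, hmem⟩, fun h => ?_, fun _ => rfl⟩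
      exact mul_ne_zero (hu0 P) (hu0 P) (congrArg Subtype.val h)
    · exact ⟨1, one_ne_zero, fun h => absurd h hP⟩
  choose c hc0 hcu using hc
  have hH : ∀ P ∈ ratPts A L.fixingSubgroup N', ∀ s ∈ L.fixingSubgroup,
      s ∈ F.fixingSubgroup → (act A s (β P) - β P ∈ H ↔ s (u P) = u P) := by
    intro P hP s hs hs'
    obtain ⟨-, h1, -⟩ := hall P hP
    rw [h1 s hs hs', ← sgH_eq_one]
    constructor
    · intro h
      rw [h, one_mul]
    · intro h
      exact mul_right_cancel₀ (hu0 P) (by rw [h, one_mul])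
  have hsqrt : ∀ P ∈ ratPts A L.fixingSubgroup N',
      ∀ s : AlgebraicClosure K ≃ₐ[K] AlgebraicClosure K, s (u P) = u P →
      ∀ z, z * z = (c P : AlgebraicClosure K) → s z = z := by
    intro P hP s hs z hz
    rw [← hcu P hP] at hz
    rcases mul_self_eq_mul_self_iff.1 hz with h6 | h6
    · rw [h6, hs]
    · rw [h6, map_neg, hs]
  refine ⟨c, hc0, ?_, ?_, ?_, ?_, ?_, ?_, ?_⟩
  · intro P hP
    obtain ⟨-, -, ⟨d, hd, hN⟩, -⟩ := hall P hP
    exact ⟨d, vn_mem F hd, by rw [← hcu P hP]; exact hN⟩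
  · intro P hP Ω hΩ
    obtain ⟨-, -, -, h1, -⟩ := hall P hP
    rw [← hcu P hP]
    exact h1 Ω (fun q _ => QuotientGroup.mk_surjective q) hΩ
  · intro P hP Q hQ
    obtain ⟨-, -, -, -, h1, -⟩ := hall P hP
    have hPQ := (ratPts A L.fixingSubgroup N').add_mem hP hQ
    have hmem : u P * u Q * u (P + Q) ∈ (L ⊔ F : IntermediateField K (AlgebraicClosure K)) := by
      apply vn_mem
      intro s hs
      exact h1 Q hQ s ((hsup s).1 hs).1 ((hsup s).1 hs).2
    refine ⟨⟨u P * u Q * u (P + Q), hmem⟩, ?_⟩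
    apply Subtype.ext
    show (c P : AlgebraicClosure K) * (c Q : AlgebraicClosure K) *
      (c (P + Q) : AlgebraicClosure K) = u P * u Q * u (P + Q) * (u P * u Q * u (P + Q))
    rw [← hcu P hP, ← hcu Q hQ, ← hcu _ hPQ]
    ring
  · intro 𝔓 hE P hP s hs hsL z hz
    obtain ⟨h1, h2⟩ := (hsup s).1 hsL
    obtain ⟨R, _, r, hr, hr'⟩ := hE
    have h3 : act A s (β P) - β P ∈ H := by
      apply hr' _ ((hall P hP).1 s h1)
      rw [map_sub, hr s hs h2, sub_self]
    exact hsqrt P hP s ((hH P hP s h1 h2).1 h3) z hz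
  · intro S 𝔓 hE P hP hS
    have h1 := hE (β P) (u P) (hu0 P) (by rw [hcu P hP]; exact (c P).2) (hall P hP).1
      (fun s hs => hH P hP s ((hsup s).1 hs).1 ((hsup s).1 hs).2)
      (fun v hv 𝔔 h𝔔 => by rw [hcu P hP]; exact hS v hv 𝔔 h𝔔)
    rw [hcu P hP] at h1
    exact h1
  · intro e he hR P hP
    obtain ⟨s, hs⟩ := v2s_conj e (fun x => he _ (algebraMap_mem _ x))
    have hsLF : s ∈ (L ⊔ F : IntermediateField K (AlgebraicClosure K)).fixingSubgroup := by
      rw [IntermediateField.mem_fixingSubgroup_iff]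
      intro x hx
      apply e.injective
      rw [hs]
      exact he x hx
    obtain ⟨h1, h2⟩ := (hsup s).1 hsLF
    have h5 : act A s (β P) - β P ∈ H := hR s h2 hs _ ((hall P hP).1 s h1)
    have h6 := (hH P hP s h1 h2).1 h5
    have h7 : starRingEnd ℂ (e (u P)) = e (u P) := by
      rw [← hs, h6]
    obtain ⟨y, hy⟩ := Complex.conj_eq_iff_real.1 h7
    refine ⟨y * y, ?_, ?_⟩
    · have hy0 : y ≠ 0 := by
        intro h
        rw [h] at hy
        exact hu0 P (e.injective (by rw [hy, map_zero]; rfl))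
      exact mul_self_pos.2 hy0
    · rw [← hcu P hP, map_mul, hy]
      push_cast
      rfl
  · intro P hP hsq
    obtain ⟨-, -, -, -, -, h1⟩ := hall P hP
    obtain ⟨z, hz⟩ := hsq
    have hz' : u P * u P = (z : AlgebraicClosure K) * z := by
      rw [hcu P hP]
      exact congrArg Subtype.val hz
    refine h1 fun s hs hs' => ?_
    have hzs : s (z : AlgebraicClosure K) = z := vn_fix _ z.2 ((hsup s).2 ⟨hs, hs'⟩)
    rcases mul_self_eq_mul_self_iff.1 hz' with h6 | h6
    · rw [h6, hzs]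
    · rw [h6, map_neg, hzs]

end gen

end Pool.Agent.H.MP_ac3185_nt
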