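import Pool.Agent.H.MP_ac3185_nt.V8.Split

/-! The relation given by all classes: it holds if `N' / N` is simple and not of order `2`. -/

set_option autoImplicit false

open CategoryTheory AlgebraicGeometry NumberField IsDedekindDomain
open scoped MonObj

namespace Pool.Agent.H.MP_ac3185_nt

universe u

variable {K : Type u} [Field K] [CharZero K] {A : Over (Spec (.of K))} [GrpObj A] [IsAbVar A]
  {F : IntermediateField K (AlgebraicClosure K)}
  {N N' H : AddSubgroup (Pts A (AlgebraicClosure K))}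

/-- The product of the signs of `g⁻¹ x` over all classes. -/
noncomputable def v8uP (F : IntermediateField K (AlgebraicClosure K))
    [Fintype ((AlgebraicClosure K ≃ₐ[K] AlgebraicClosure K) ⧸ F.fixingSubgroup)]
    {A : Over (Spec (.of K))} [GrpObj A] [IsAbVar A]
    (H : AddSubgroup (Pts A (AlgebraicClosure K))) (x : Pts A (AlgebraicClosure K)) :
    AlgebraicClosure K :=
  ∏ q : (AlgebraicClosure K ≃ₐ[K] AlgebraicClosure K) ⧸ F.fixingSubgroup,
    sgH H (act A q.out⁻¹ x)

omit [CharZero K] in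
theorem v8u_prod (hf : ModFrame F N N' H)
    [Fintype ((AlgebraicClosure K ≃ₐ[K] AlgebraicClosure K) ⧸ F.fixingSubgroup)]
    (x : Pts A (AlgebraicClosure K)) :
    v8uP F H x =
      (-1 : AlgebraicClosure K) ^ ((Set.univ : Set ((AlgebraicClosure K ≃ₐ[K]
        AlgebraicClosure K) ⧸ F.fixingSubgroup)) ∩ shadow F H x).ncard := by
  classical
  have h1 : ∀ q : (AlgebraicClosure K ≃ₐ[K] AlgebraicClosure K) ⧸ F.fixingSubgroup,
      sgH H (act A q.out⁻¹ x) = if q ∈ shadow F H x then (-1 : AlgebraicClosure K) else 1 := by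
    intro q
    have h2 := v8_mem_shadow hf x q.out
    rw [QuotientGroup.out_eq'] at h2
    by_cases h3 : act A q.out⁻¹ x ∈ H
    · rw [sgH_mem h3, if_neg (fun h => h2.1 h h3)]
    · rw [sgH_not h3, if_pos (h2.2 h3)]
  unfold v8uP
  rw [Finset.prod_congr rfl fun q _ => h1 q, Finset.prod_ite, Finset.prod_const_one, mul_one,
    Finset.prod_const]
  congr 1
  rw [← Set.ncard_coe_finset]
  congr 1
  ext q
  simp

omit [CharZero K] in
theorem v8u_act (hf : ModFrame F N N' H)
    [Fintype ((AlgebraicClosure K ≃ₐ[K] AlgebraicClosure K) ⧸ F.fixingSubgroup)]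
    (s : AlgebraicClosure K ≃ₐ[K] AlgebraicClosure K) (x : Pts A (AlgebraicClosure K)) :
    v8uP F H (act A s x) = v8uP F H x := by
  unfold v8uP
  refine Fintype.prod_equiv (MulAction.toPerm s⁻¹) _ _ fun q => ?_
  rw [MulAction.toPerm_apply]
  have h1 : ((s⁻¹ * q.out : AlgebraicClosure K ≃ₐ[K] AlgebraicClosure K) :
      (AlgebraicClosure K ≃ₐ[K] AlgebraicClosure K) ⧸ F.fixingSubgroup) = s⁻¹ • q := by
    rw [← smul_eq_mul, ← MulAction.Quotient.smul_coe, QuotientGroup.out_eq']
  have h2 : (s⁻¹ • q).out⁻¹ * (s⁻¹ * q.out) ∈ F.fixingSubgroup := by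
    rw [← QuotientGroup.eq, QuotientGroup.out_eq', h1]
  have h3 : (s⁻¹ • q).out⁻¹ = ((s⁻¹ • q).out⁻¹ * (s⁻¹ * q.out)) * (q.out⁻¹ * s) := by group
  have h4 : act A q.out⁻¹ (act A s x) = act A (q.out⁻¹ * s) x := (v2s_act_mul A _ _ x).symm
  rw [h4]
  conv_rhs => rw [h3, v2s_act_mul, v8_sg_act hf h2]

omit [CharZero K] in
theorem v8u_add (hf : ModFrame F N N' H)
    [Fintype ((AlgebraicClosure K ≃ₐ[K] AlgebraicClosure K) ⧸ F.fixingSubgroup)]
    {x y : Pts A (AlgebraicClosure K)} (hx : x ∈ N') (hy : y ∈ N') :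
    v8uP F H (x + y) = v8uP F H x * v8uP F H y := by
  unfold v8uP
  rw [← Finset.prod_mul_distrib]
  refine Finset.prod_congr rfl fun q _ => ?_
  rw [v8_act_add, v8_sg_add hf (hf.stabN' _ x hx) (hf.stabN' _ y hy)]

/-- If `N' / N` is simple, then `F = K` or the number of the classes `g Gal(Kbar/F)` with
`g⁻¹ x ∉ H` is even for all `x` in `N'`. -/
theorem v8_univ (hf : ModFrame F N N' H) [FiniteDimensional K F]
    (hFs : ∀ s, (∀ x, act A s x ∈ H ↔ x ∈ H) → s ∈ F.fixingSubgroup)
    (hmin : ∀ M : AddSubgroup (Pts A (AlgebraicClosure K)), N ≤ M → M ≤ N' →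
      (∀ s, ∀ x ∈ M, act A s x ∈ M) → M = N ∨ M = N') :
    F = ⊥ ∨ ∀ x ∈ N', Even ((Set.univ : Set ((AlgebraicClosure K ≃ₐ[K]
      AlgebraicClosure K) ⧸ F.fixingSubgroup)) ∩ shadow F H x).ncard := by
  classical
  have hfi := vn_finiteIndex F
  let _ := F.fixingSubgroup.fintypeQuotientOfFiniteIndex
  obtain ⟨p, hp⟩ : ∃ p : Pts A (AlgebraicClosure K) → AlgebraicClosure K,
    ∀ x, p x = v8uP F H x := ⟨_, fun _ => rfl⟩
  have hpe : ∀ x, p x = 1 ↔ Even ((Set.univ : Set ((AlgebraicClosure K ≃ₐ[K]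
      AlgebraicClosure K) ⧸ F.fixingSubgroup)) ∩ shadow F H x).ncard := by
    intro x
    rw [hp, v8u_prod hf x, neg_one_pow_eq_one_iff_even]
    norm_num
  have hpm : ∀ x, p x = 1 ∨ p x = -1 := by
    intro x
    rw [hp, v8u_prod hf x]
    exact neg_one_pow_eq_or _ _
  have hpadd : ∀ x ∈ N', ∀ y ∈ N', p (x + y) = p x * p y := by
    intro x hx y hy
    rw [hp, hp, hp, v8u_add hf hx hy]
  have hpH : ∀ x, (∀ g, act A g x ∈ H) → p x = 1 := by
    intro x hx
    rw [hp]
    refine Finset.prod_eq_one fun q _ => ?_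
    rw [sgH_mem (hx _)]
  have hpN : ∀ x ∈ N, p x = 1 := fun x hx => hpH x fun g => hf.le (hf.stabN g x hx)
  let M : AddSubgroup (Pts A (AlgebraicClosure K)) :=
    { carrier := {x | x ∈ N' ∧ p x = 1}
      zero_mem' := ⟨N'.zero_mem, hpN 0 N.zero_mem⟩
      add_mem' := fun {x y} hx hy => ⟨N'.add_mem hx.1 hy.1, by
        rw [hpadd x hx.1 y hy.1, hx.2, hy.2, one_mul]⟩
      neg_mem' := fun {x} hx => ⟨N'.neg_mem hx.1, by
        have h1 := hpadd x hx.1 (-x) (N'.neg_mem hx.1)
        rw [add_neg_cancel, hpN 0 N.zero_mem, hx.2, one_mul] at h1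
        exact h1.symm⟩ }
  rcases hmin M (fun x hx => ⟨hf.le' (hf.le hx), hpN x hx⟩) (fun x hx => hx.1)
    (fun s x hx => ⟨hf.stabN' s x hx.1, by
      have h1 : p (act A s x) = p x := by rw [hp, hp, v8u_act hf s x]
      rw [h1]
      exact hx.2⟩) with h | h
  · by_cases hH : ∃ y ∈ N', y ∉ H
    · left
      obtain ⟨y, hy, hyH⟩ := hH
      have hyN : y ∉ N := fun h' => hyH (hf.le h')
      have hneg : ∀ x ∈ N', x ∉ N → p x = -1 := by
        intro x hx hxN
        refine (hpm x).resolve_left fun h1 => hxN ?_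
        rw [← h]
        exact ⟨hx, h1⟩
      have hHN : H ≤ N := by
        intro x hx
        by_contra hxN
        have h1 : x + y ∈ M := ⟨N'.add_mem (hf.le' hx) hy, by
          rw [hpadd x (hf.le' hx) y hy, hneg x (hf.le' hx) hxN, hneg y hy hyN]
          ring⟩
        rw [h] at h1
        apply hyH
        have h2 := H.sub_mem (hf.le h1) hx
        rwa [add_sub_cancel_left] at h2
      rw [eq_bot_iff, ← InfiniteGalois.fixedField_fixingSubgroup
        (⊥ : IntermediateField K (AlgebraicClosure K))]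
      intro z hz
      rw [IntermediateField.mem_fixedField_iff]
      intro s _
      refine vn_fix F hz (hFs s fun x => ⟨fun hx => ?_, fun hx => hf.le (hf.stabN s x (hHN hx))⟩)
      have h1 := hf.le (hf.stabN s⁻¹ _ (hHN hx))
      rwa [← v2s_act_mul, inv_mul_cancel, v2s_act_one] at h1
    · right
      push Not at hH
      intro x hx
      rw [← hpe]
      exact hpH x fun g => hH _ (hf.stabN' g x hx)
  · right
    intro x hx
    rw [← hpe]
    rw [← h] at hx
    exact hx.2

end Pool.Agent.H.MP_ac3185_nt
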