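import Pool.Agent.H.MP_ac3185_nt.V8.Rho

/-! As `rho_main`, for the classes whose norms to `F` and to `L` are squares. -/

set_option autoImplicit false

open NumberField IsDedekindDomain

namespace Pool.Agent.H.MP_ac3185_nt

universe u

variable {K : Type u} [Field K] [NumberField K]

omit [NumberField K] in
theorem rho_trans {L F : IntermediateField K (AlgebraicClosure K)}
    (hT : TransOn L F.fixingSubgroup) : TransOn F L.fixingSubgroup := by
  intro s
  obtain ⟨t, ht, hl⟩ := hT s⁻¹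
  refine ⟨(t⁻¹ * s⁻¹)⁻¹, inv_mem hl, ?_⟩
  have h : ((t⁻¹ * s⁻¹)⁻¹)⁻¹ * s = t⁻¹ := by group
  rw [h]
  exact inv_mem ht

/-- The norm to the other field of an element of `L`. -/
theorem rho_cross (L F : IntermediateField K (AlgebraicClosure K)) [FiniteDimensional K L]
    (hT : TransOn L F.fixingSubgroup) (c : L) :
    normG L F.fixingSubgroup (c : AlgebraicClosure K) =
      algebraMap K (AlgebraicClosure K) (Algebra.norm K c) := by
  rw [← v4_norm_top L c]
  exact v4_norm_le L ⊤ _ le_top hT fun s hs => vn_fix L c.2 hs.1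

omit [NumberField K] in
/-- Two elements whose odd powers agree up to squares agree up to squares. -/
theorem rho_odd {E : Type u} [Field E] {b b' x y : E} (hb : b ≠ 0) (hb' : b' ≠ 0) (hx : x ≠ 0)
    (hy : y ≠ 0) {n : ℕ} (hn : Odd n) (h : x * x * b ^ n = y * y * b' ^ n) :
    ∃ u : E, u ≠ 0 ∧ b = b' * (u * u) := by
  obtain ⟨k, rfl⟩ := hn
  refine ⟨y / x * (b' / b) ^ k, mul_ne_zero (div_ne_zero hy hx)
    (pow_ne_zero _ (div_ne_zero hb' hb)), ?_⟩
  have e5 : b * (b ^ (2 * k) * (x * x)) = b' * (b' ^ (2 * k) * (y * y)) := by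
    linear_combination h
  have e6 : b ^ (2 * k) * (x * x) ≠ 0 := mul_ne_zero (pow_ne_zero _ hb) (mul_ne_zero hx hx)
  rw [← eq_div_iff e6] at e5
  have e9 : b' * (y / x * (b' / b) ^ k * (y / x * (b' / b) ^ k)) =
      b' * (b' ^ (2 * k) * (y * y)) / (b ^ (2 * k) * (x * x)) := by
    field_simp
    rw [div_pow, div_pow, ← pow_mul, ← pow_mul, mul_comm k 2,
      div_mul_cancel₀ _ (pow_ne_zero _ hb)]
  exact e5.trans e9.symm

/-- The classes whose norms are squares, the classes of `F` and those of `L` give different pairs of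
classes of `LF` and of `K`. -/
theorem rho_count2 (L F : IntermediateField K (AlgebraicClosure K)) [FiniteDimensional K L]
    [FiniteDimensional K F] [NumberField F] [NumberField L]
    [NumberField (L ⊔ F : IntermediateField K (AlgebraicClosure K))]
    (hodd : Odd (Module.finrank K L)) (hodd' : Odd (Module.finrank K F))
    (hT : TransOn L F.fixingSubgroup) (nF nL nK nM : ℕ)
    (hF : SelReps F nF) (hL : SelReps L nL) (hK : SelReps K nK)
    (hM : SelReps (L ⊔ F : IntermediateField K (AlgebraicClosure K)) nM)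
    (Y : Finset (L ⊔ F : IntermediateField K (AlgebraicClosure K)))
    (h1 : ∀ a ∈ Y, a ≠ 0 ∧ (∀ w : HeightOneSpectrum
      (𝓞 (L ⊔ F : IntermediateField K (AlgebraicClosure K))), Even (vOrd w a)) ∧
      (∃ d ∈ F, normG L F.fixingSubgroup (a : AlgebraicClosure K) = d * d) ∧
      ∃ d ∈ L, normG F L.fixingSubgroup (a : AlgebraicClosure K) = d * d)
    (h2 : ∀ a ∈ Y, ∀ a' ∈ Y, ∀ u : (L ⊔ F : IntermediateField K (AlgebraicClosure K)), u ≠ 0 →
      a = a' * (u * u) → a = a') : Y.card * nF * nL ≤ nM * nK := by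
  classical
  obtain ⟨TF, hTF, hF1, hF2, hF3⟩ := hF
  obtain ⟨TL, hTL, hL1, hL2, hL3⟩ := hL
  obtain ⟨TK, hTK, hK1, hK2, hK3⟩ := hK
  obtain ⟨TM, hTM, hM1, hM2, hM3⟩ := hM
  let j : F → (L ⊔ F : IntermediateField K (AlgebraicClosure K)) := fun b =>
    ⟨b.1, (le_sup_right : F ≤ L ⊔ F) b.2⟩
  let i : L → (L ⊔ F : IntermediateField K (AlgebraicClosure K)) := fun b =>
    ⟨b.1, (le_sup_left : L ≤ L ⊔ F) b.2⟩
  have hj0 : ∀ b : F, b ≠ 0 → j b ≠ 0 := fun b hb h =>
    hb (Subtype.ext (show (b : AlgebraicClosure K) = 0 from congrArg Subtype.val h))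
  have hi0 : ∀ b : L, b ≠ 0 → i b ≠ 0 := fun b hb h =>
    hb (Subtype.ext (show (b : AlgebraicClosure K) = 0 from congrArg Subtype.val h))
  have hjev : ∀ b ∈ TF, ∀ w : HeightOneSpectrum
      (𝓞 (L ⊔ F : IntermediateField K (AlgebraicClosure K))), Even (vOrd w (j b)) := by
    intro b hb
    rw [rho_even (L ⊔ F) (hj0 b (hF1 b hb).1)]
    intro 𝔓 h𝔓
    obtain ⟨d, hd, hd0, x, y, hx, hy, he⟩ :=
      (rho_even F (hF1 b hb).1).1 (hF1 b hb).2 𝔓 h𝔓
    exact ⟨d, (le_sup_right : F ≤ L ⊔ F) hd, hd0, x, y, hx, hy, he⟩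
  have hiev : ∀ b ∈ TL, ∀ w : HeightOneSpectrum
      (𝓞 (L ⊔ F : IntermediateField K (AlgebraicClosure K))), Even (vOrd w (i b)) := by
    intro b hb
    rw [rho_even (L ⊔ F) (hi0 b (hL1 b hb).1)]
    intro 𝔓 h𝔓
    obtain ⟨d, hd, hd0, x, y, hx, hy, he⟩ :=
      (rho_even L (hL1 b hb).1).1 (hL1 b hb).2 𝔓 h𝔓
    exact ⟨d, (le_sup_left : L ≤ L ⊔ F) hd, hd0, x, y, hx, hy, he⟩
  have hrep : ∀ p ∈ (Y ×ˢ TF) ×ˢ TL, ∃ t ∈ TM,
      ∃ u : (L ⊔ F : IntermediateField K (AlgebraicClosure K)),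
      u ≠ 0 ∧ p.1.1 * j p.1.2 * i p.2 = t * (u * u) := by
    intro p hp
    obtain ⟨hp0, hp3⟩ := Finset.mem_product.1 hp
    obtain ⟨hp1, hp2⟩ := Finset.mem_product.1 hp0
    have ha := (h1 _ hp1).1
    have hb := hj0 _ (hF1 _ hp2).1
    have hc := hi0 _ (hL1 _ hp3).1
    refine hM2 _ (mul_ne_zero (mul_ne_zero ha hb) hc) fun w => ?_
    rw [vOrd_mul w (mul_ne_zero ha hb) hc, vOrd_mul w ha hb]
    exact (((h1 _ hp1).2.1 w).add (hjev _ hp2 w)).add (hiev _ hp3 w)
  have hrepK : ∀ c ∈ TL, ∃ t ∈ TK, ∃ u : K, u ≠ 0 ∧ Algebra.norm K c = t * (u * u) := by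
    intro c hc
    refine hK2 _ ((Algebra.norm_ne_zero_iff).2 (hL1 c hc).1) fun v => ?_
    have _ : Fintype (PlacesOver L v) := Fintype.ofFinite _
    rw [vOrd_norm (M := L) v (hL1 c hc).1]
    exact Finset.even_sum _ fun w _ => ((hL1 c hc).2 w.1).mul_left _
  choose! t ht u hu0 hu using hrep
  choose! τ hτ ν hν0 hν using hrepK
  have hinj : Set.InjOn (fun p => (t p, τ p.2)) ((Y ×ˢ TF) ×ˢ TL : Finset _) := by
    rintro ⟨⟨a, b⟩, c⟩ hp ⟨⟨a', b'⟩, c'⟩ hp' heq'
    have heq : t ((a, b), c) = t ((a', b'), c') := congrArg Prod.fst heq'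
    have heqK : τ c = τ c' := congrArg Prod.snd heq'
    have hu1 := hu _ hp
    have hu2 := hu _ hp'
    have hu01 := hu0 _ hp
    have hu02 := hu0 _ hp'
    obtain ⟨hp0, hp3⟩ := Finset.mem_product.1 hp
    obtain ⟨hp0', hp3'⟩ := Finset.mem_product.1 hp'
    obtain ⟨hp1, hp2⟩ := Finset.mem_product.1 hp0
    obtain ⟨hp1', hp2'⟩ := Finset.mem_product.1 hp0'
    simp only at hu1 hu2 hp1 hp2 hp1' hp2' hp3 hp3'
    obtain ⟨ha0, -, ⟨d, hd, hdd⟩, ⟨e, he, hee⟩⟩ := h1 a hp1
    obtain ⟨ha0', -, ⟨d', hd', hdd'⟩, ⟨e', he', hee'⟩⟩ := h1 a' hp1'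
    have hb0 := (hF1 b hp2).1
    have hb0' := (hF1 b' hp2').1
    have hc0 := (hL1 c hp3).1
    have hc0' := (hL1 c' hp3').1
    set w := u ((a, b), c) / u ((a', b'), c') with hw
    have hw0 : w ≠ 0 := div_ne_zero hu01 hu02
    have e1 : a * j b * i c = a' * j b' * i c' * (w * w) := by
      rw [hu1, hu2, heq, hw]
      field_simp
    have e1' : (a : AlgebraicClosure K) * b * c = a' * b' * c' * (w * w) :=
      congrArg Subtype.val e1
    have hw0' : (w : AlgebraicClosure K) ≠ 0 := fun h => hw0 (Subtype.ext h)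
    have ha00 : (a : AlgebraicClosure K) ≠ 0 := fun h => ha0 (Subtype.ext h)
    have ha00' : (a' : AlgebraicClosure K) ≠ 0 := fun h => ha0' (Subtype.ext h)
    have hne : ∀ {x y z : AlgebraicClosure K}, x ≠ 0 → x = y * z → y ≠ 0 := by
      rintro x y z hx rfl h
      exact hx (by rw [h, zero_mul])
    have hd0 : d ≠ 0 := hne (v4_norm_ne L _ ha00) hdd
    have hd0' : d' ≠ 0 := hne (v4_norm_ne L _ ha00') hdd'
    have he0 : e ≠ 0 := hne (v4_norm_ne F _ ha00) hee
    have he0' : e' ≠ 0 := hne (v4_norm_ne F _ ha00') hee'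
    have hwfix : FixG (L ⊔ F).fixingSubgroup (w : AlgebraicClosure K) :=
      fun s hs => vn_fix (L ⊔ F) w.2 hs
    have hT' := rho_trans hT
    -- norms to `F`
    have hκ : ∃ κ : K, κ ≠ 0 ∧ Algebra.norm K c = Algebra.norm K c' * (κ * κ) := by
      have g1 := hν c hp3
      have g2 := hν c' hp3'
      have g3 := hν0 c' hp3'
      refine ⟨ν c / ν c', div_ne_zero (hν0 c hp3) g3, ?_⟩
      rw [g1, g2, heqK]
      field_simp
    obtain ⟨κ, hκ0, hκ⟩ := hκ
    have hmF : normG L F.fixingSubgroup (w : AlgebraicClosure K) ∈ F := by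
      apply rho_mem F
      apply v4_norm_fix L _ hT
      intro s hs
      rw [← IntermediateField.fixingSubgroup_sup] at hs
      exact hwfix s hs
    have hmL : normG F L.fixingSubgroup (w : AlgebraicClosure K) ∈ L := by
      apply rho_mem L
      apply v4_norm_fix F _ hT'
      intro s hs
      rw [inf_comm, ← IntermediateField.fixingSubgroup_sup] at hs
      exact hwfix s hs
    have hbb : b = b' := by
      have q1 := congrArg (normG L F.fixingSubgroup) e1'
      rw [v4_norm_mul, v4_norm_mul, v4_norm_mul, v4_norm_mul, v4_norm_mul, v4_norm_mul, hdd, hdd',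
        v4_norm_pow L _ hT (fun s hs => vn_fix F b.2 hs),
        v4_norm_pow L _ hT (fun s hs => vn_fix F b'.2 hs), rho_cross L F hT, rho_cross L F hT,
        hκ] at q1
      let dF : F := ⟨d, hd⟩
      let dF' : F := ⟨d', hd'⟩
      let mF : F := ⟨_, hmF⟩
      have z1 : dF ≠ 0 := fun h => hd0 (congrArg Subtype.val h)
      have z2 : dF' ≠ 0 := fun h => hd0' (congrArg Subtype.val h)
      have z3 : mF ≠ 0 := fun h => v4_norm_ne L _ hw0' (congrArg Subtype.val h)
      have hN0 : algebraMap K F (Algebra.norm K c') ≠ 0 :=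
        (map_ne_zero _).2 ((Algebra.norm_ne_zero_iff).2 hc0')
      have hκF : algebraMap K F κ ≠ 0 := (map_ne_zero _).2 hκ0
      have q2 : dF * dF * b ^ Module.finrank K L *
          (algebraMap K F (Algebra.norm K c') * (algebraMap K F κ * algebraMap K F κ)) =
          dF' * dF' * b' ^ Module.finrank K L * algebraMap K F (Algebra.norm K c') *
            (mF * mF) := by
        apply Subtype.ext
        rw [map_mul, map_mul] at q1
        exact q1
      have q3 : (dF * algebraMap K F κ) * (dF * algebraMap K F κ) * b ^ Module.finrank K L =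
          (dF' * mF) * (dF' * mF) * b' ^ Module.finrank K L := by
        apply mul_right_cancel₀ hN0
        linear_combination q2
      obtain ⟨x, hx0, hx⟩ := rho_odd hb0 hb0' (mul_ne_zero z1 hκF) (mul_ne_zero z2 z3) hodd q3
      exact hF3 b hp2 b' hp2' x hx0 hx
    have hcc : c = c' := by
      subst hbb
      have q1 := congrArg (normG F L.fixingSubgroup) e1'
      rw [v4_norm_mul, v4_norm_mul, v4_norm_mul, v4_norm_mul, v4_norm_mul, v4_norm_mul, hee, hee',
        v4_norm_pow F _ hT' (fun s hs => vn_fix L c.2 hs),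
        v4_norm_pow F _ hT' (fun s hs => vn_fix L c'.2 hs), rho_cross F L hT'] at q1
      let eL : L := ⟨e, he⟩
      let eL' : L := ⟨e', he'⟩
      let mL : L := ⟨_, hmL⟩
      have z1 : eL ≠ 0 := fun h => he0 (congrArg Subtype.val h)
      have z2 : eL' ≠ 0 := fun h => he0' (congrArg Subtype.val h)
      have z3 : mL ≠ 0 := fun h => v4_norm_ne F _ hw0' (congrArg Subtype.val h)
      have hN0 : algebraMap K L (Algebra.norm K b) ≠ 0 :=
        (map_ne_zero _).2 ((Algebra.norm_ne_zero_iff).2 hb0)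
      have q2 : eL * eL * algebraMap K L (Algebra.norm K b) * c ^ Module.finrank K F =
          eL' * eL' * algebraMap K L (Algebra.norm K b) * c' ^ Module.finrank K F *
            (mL * mL) := by
        apply Subtype.ext
        exact q1
      have q3 : eL * eL * c ^ Module.finrank K F =
          (eL' * mL) * (eL' * mL) * c' ^ Module.finrank K F := by
        apply mul_right_cancel₀ hN0
        linear_combination q2
      obtain ⟨x, hx0, hx⟩ := rho_odd hc0 hc0' z1 (mul_ne_zero z2 z3) hodd' q3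
      exact hL3 c hp3 c' hp3' x hx0 hx
    have haa : a = a' := by
      refine h2 a hp1 a' hp1' w hw0 ?_
      subst hbb
      subst hcc
      have e7 : j b * i c ≠ 0 := mul_ne_zero (hj0 b hb0) (hi0 c hc0)
      have e8 : a * (j b * i c) = a' * (w * w) * (j b * i c) := by linear_combination e1
      exact mul_right_cancel₀ e7 e8
    rw [haa, hbb, hcc]
  have hle := Finset.card_le_card_of_injOn (t := TM ×ˢ TK) (fun p => (t p, τ p.2))
    (fun p hp => Finset.mem_product.2 ⟨ht p hp, hτ p.2 (Finset.mem_product.1 hp).2⟩) hinj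
  rw [Finset.card_product, Finset.card_product, Finset.card_product, hTF, hTL, hTM, hTK] at hle
  exact hle

omit [NumberField K] in
/-- A set of elements with even valuations in which at most `n` elements are different modulo
squares. -/
theorem rho_classes (E : IntermediateField K (AlgebraicClosure K)) [NumberField E] (nE n : ℕ)
    (hE : SelReps E nE) (X : Set E)
    (hX : ∀ a ∈ X, a ≠ 0 ∧ ∀ w : HeightOneSpectrum (𝓞 E), Even (vOrd w a))
    (hn : ∀ Y : Finset E, (∀ a ∈ Y, a ∈ X) →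
      (∀ a ∈ Y, ∀ a' ∈ Y, ∀ u : E, u ≠ 0 → a = a' * (u * u) → a = a') → Y.card ≤ n) :
    SquareClasses X n := by
  classical
  obtain ⟨TM, hTM, hM1, hM2, hM3⟩ := hE
  let TX := TM.filter fun t => ∃ a ∈ X, ∃ u : E, u ≠ 0 ∧ a = t * (u * u)
  have hch : ∀ t ∈ TX, ∃ a ∈ X, ∃ u : E, u ≠ 0 ∧ a = t * (u * u) :=
    fun t ht => (Finset.mem_filter.1 ht).2
  choose! a haX u hu0 hu using hch
  have hainj : ∀ t ∈ TX, ∀ t' ∈ TX, ∀ w : E, w ≠ 0 → a t = a t' * (w * w) → t = t' := by
    intro t ht t' ht' w hw he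
    refine hM3 t (Finset.mem_filter.1 ht).1 t' (Finset.mem_filter.1 ht').1
      (u t' * w / u t) (div_ne_zero (mul_ne_zero (hu0 t' ht') hw) (hu0 t ht)) ?_
    have h3 := hu0 t ht
    rw [hu t ht, hu t' ht'] at he
    field_simp
    linear_combination he
  refine ⟨TX.image a, hn _ ?_ ?_, ?_⟩
  · intro b hb
    obtain ⟨t, ht, rfl⟩ := Finset.mem_image.1 hb
    exact haX t ht
  · intro b hb b' hb' w hw he
    obtain ⟨t, ht, rfl⟩ := Finset.mem_image.1 hb
    obtain ⟨t', ht', rfl⟩ := Finset.mem_image.1 hb'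
    rw [hainj t ht t' ht' w hw he]
  · intro c hc
    obtain ⟨hc0, hcev⟩ := hX c hc
    obtain ⟨t, ht, v, hv0, hv⟩ := hM2 c hc0 hcev
    have htX : t ∈ TX := Finset.mem_filter.2 ⟨ht, c, hc, v, hv0, hv⟩
    refine ⟨a t, Finset.mem_image_of_mem a htX, v / u t, div_ne_zero hv0 (hu0 t htX), ?_⟩
    have h3 := hu0 t htX
    rw [hu t htX, hv]
    field_simp

/-- The bound for the number of the classes in `frameClasses`, if the norms to `L` are squares. -/
theorem rho_main2 (L F : IntermediateField K (AlgebraicClosure K)) [FiniteDimensional K L]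
    [FiniteDimensional K F] [NumberField F] [NumberField L]
    [NumberField (L ⊔ F : IntermediateField K (AlgebraicClosure K))]
    (hodd : Odd (Module.finrank K L)) (hodd' : Odd (Module.finrank K F))
    (hT : TransOn L F.fixingSubgroup)
    (hF : SelReps F (selNum F)) (hL : SelReps L (selNum L)) (hK : SelReps K (selNum K))
    (hM : SelReps (L ⊔ F : IntermediateField K (AlgebraicClosure K))
      (selNum (L ⊔ F : IntermediateField K (AlgebraicClosure K)))) :
    ∃ ρ : ℕ, selNum (L ⊔ F : IntermediateField K (AlgebraicClosure K)) * selNum K =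
        2 ^ ρ * (selNum F * selNum L) ∧
      ∀ (Rel : Set (Set ((AlgebraicClosure K ≃ₐ[K] AlgebraicClosure K) ⧸ F.fixingSubgroup)))
        (T : Set (HeightOneSpectrum (𝓞 F))) (R : Set (F →+* ℂ)), Set.univ ∈ Rel →
        SquareClasses (frameClasses L F Rel T R) (2 ^ ρ) := by
  classical
  obtain ⟨kF, hkF⟩ := selNum_pow F
  obtain ⟨kL, hkL⟩ := selNum_pow L
  obtain ⟨kK, hkK⟩ := selNum_pow K
  obtain ⟨kM, hkM⟩ := selNum_pow (L ⊔ F : IntermediateField K (AlgebraicClosure K))
  have h1 : selNum F * selNum L ≤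
      selNum (L ⊔ F : IntermediateField K (AlgebraicClosure K)) * selNum K := by
    have h2 := rho_count2 L F hodd hodd' hT _ _ _ _ hF hL hK hM {1} (by
      intro a ha
      rw [Finset.mem_singleton] at ha
      subst ha
      refine ⟨one_ne_zero, fun w => ?_, ⟨1, F.one_mem, ?_⟩, 1, L.one_mem, ?_⟩
      · rw [vOrd_one]
        exact Even.zero
      · show normG L F.fixingSubgroup (1 : AlgebraicClosure K) = 1 * 1
        rw [v4_norm_pow L _ hT (fun s _ => map_one s), one_pow, one_mul]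
      · show normG F L.fixingSubgroup (1 : AlgebraicClosure K) = 1 * 1
        rw [v4_norm_pow F _ (rho_trans hT) (fun s _ => map_one s), one_pow, one_mul]) (by
      intro a ha a' ha' u _ _
      rw [Finset.mem_singleton] at ha ha'
      rw [ha, ha'])
    rwa [Finset.card_singleton, one_mul] at h2
  have hle : kF + kL ≤ kM + kK := by
    rw [hkF, hkM, hkL, hkK, ← pow_add, ← pow_add] at h1
    exact (Nat.pow_le_pow_iff_right (by norm_num)).1 h1
  refine ⟨kM + kK - (kF + kL), ?_, fun Rel T R hRel => ?_⟩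
  · rw [hkF, hkM, hkL, hkK, ← pow_add, ← pow_add, ← pow_add, Nat.sub_add_cancel hle]
  · have hX : ∀ a ∈ frameClasses L F Rel T R, a ≠ 0 ∧ (∀ w : HeightOneSpectrum
        (𝓞 (L ⊔ F : IntermediateField K (AlgebraicClosure K))), Even (vOrd w a)) ∧
        (∃ d ∈ F, normG L F.fixingSubgroup (a : AlgebraicClosure K) = d * d) ∧
        ∃ d ∈ L, normG F L.fixingSubgroup (a : AlgebraicClosure K) = d * d := by
      rintro a ⟨ha0, hd, hrel, hunr, heven, -⟩
      refine ⟨ha0, ?_, hd, ?_⟩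
      · rw [rho_even (L ⊔ F) ha0]
        intro 𝔓 h𝔓
        obtain ⟨v, hv⟩ := v2c_above 𝔓 h𝔓
        obtain ⟨w, hw⟩ := v2_place F hv
        by_cases h : 2 ∉ w.1.asIdeal ∨ w.1 ∈ T
        · exact v8_even_of_unr _ h𝔓 ha0 (hunr w.1 𝔓 hw h)
        · push Not at h
          exact heven w.1 𝔓 hw h.1 h.2
      · obtain ⟨d, hd1, hd2⟩ := hrel _ hRel
        rw [finprod_mem_univ] at hd2
        exact ⟨d, rho_mem L fun s hs => hd1 s hs fun q _ => Set.mem_univ _, hd2⟩
    refine rho_classes (L ⊔ F) _ _ hM _ (fun a ha => ⟨(hX a ha).1, (hX a ha).2.1⟩) ?_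
    intro Y hY hdist
    have h2 := rho_count2 L F hodd hodd' hT _ _ _ _ hF hL hK hM Y (fun a ha => hX a (hY a ha))
      hdist
    have h3 : Y.card * 2 ^ (kF + kL) ≤ 2 ^ (kM + kK - (kF + kL)) * 2 ^ (kF + kL) :=
      calc Y.card * 2 ^ (kF + kL) = Y.card * selNum F * selNum L := by
            rw [hkF, hkL, pow_add, mul_assoc]
        _ ≤ selNum (L ⊔ F : IntermediateField K (AlgebraicClosure K)) * selNum K := h2
        _ = 2 ^ (kM + kK - (kF + kL)) * 2 ^ (kF + kL) := by
            rw [hkM, hkK, ← pow_add, ← pow_add, Nat.sub_add_cancel hle]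
    exact Nat.le_of_mul_le_mul_right h3 (by positivity)

end Pool.Agent.H.MP_ac3185_nt
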