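import Pool.Agent.H.MP_ac3185_nt.V8.Defs

/-! Definitions for the unconditional part: the group `A[n]`, and the explicit bound in terms of class
groups. -/

set_option autoImplicit false

open CategoryTheory AlgebraicGeometry NumberField
open scoped MonObj

namespace Pool.Agent.H.MP_ac3185_nt

universe u

/-- The group `A[n]` of the points of `A(Kbar)` killed by `n`. -/
noncomputable def torSub {K : Type u} [Field K] (A : Over (Spec (.of K))) [GrpObj A] [IsAbVar A]
    (n : ℕ) : AddSubgroup (Pts A (AlgebraicClosure K)) :=
  (nsmulAddMonoidHom n).ker

/-- `L` is linearly disjoint from the field `K(A[2])`: every automorphism is the product of an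
automorphism over `L` and one which acts trivially on `A[2]`. -/
def DisjTwo {K : Type u} [Field K] (A : Over (Spec (.of K))) [GrpObj A] [IsAbVar A]
    (L : IntermediateField K (AlgebraicClosure K)) : Prop :=
  ∀ s, ∃ t ∈ L.fixingSubgroup, ∀ x, InSub (torSub A 2) x → act A (t⁻¹ * s) x = x

/-- `s(E)`: the `2`-rank of the class group of `E` plus the number of the infinite places of `E`. -/
noncomputable def selRank (E : Type u) [Field E] : ℕ :=
  Nat.log 2 (Nat.card {x : ClassGroup (𝓞 E) // x * x = 1}) + Nat.card (InfinitePlace E)

open Classical in
/-- The number `(s(LF) - s(F)) - (s(L) - s(K))`, if `F ≠ K`, and `s(L) - s(K)`, if `F = K`. -/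
noncomputable def rhoBound {K : Type u} [Field K] (L F : IntermediateField K (AlgebraicClosure K)) :
    ℕ :=
  if F = ⊥ then selRank (L ⊔ F : IntermediateField K (AlgebraicClosure K)) - selRank F
  else selRank (L ⊔ F : IntermediateField K (AlgebraicClosure K)) + selRank K -
    (selRank F + selRank L)

end Pool.Agent.H.MP_ac3185_nt
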