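import Pool.Agent.H.MP_ac3185_nt.V8.UnrEven
import Pool.Agent.H.MP_ac3185_nt.V6.Val

/-! The number of the classes in `frameClasses` is bounded by the numbers of the classes with even
valuations of `LF` and of `F`. -/

set_option autoImplicit false

open NumberField IsDedekindDomain

namespace Pool.Agent.H.MP_ac3185_nt

universe u

/-- The group of the `c ≠ 0` in `E` with even valuations, modulo squares, has exactly `n` elements. -/
def SelReps (E : Type u) [Field E] [NumberField E] (n : ℕ) : Prop :=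
  ∃ T : Finset E, T.card = n ∧
    (∀ t ∈ T, t ≠ 0 ∧ ∀ w : HeightOneSpectrum (𝓞 E), Even (vOrd w t)) ∧
    (∀ c : E, c ≠ 0 → (∀ w : HeightOneSpectrum (𝓞 E), Even (vOrd w c)) →
      ∃ t ∈ T, ∃ u : E, u ≠ 0 ∧ c = t * (u * u)) ∧
    ∀ t ∈ T, ∀ t' ∈ T, ∀ u : E, u ≠ 0 → t = t' * (u * u) → t = t'

variable {K : Type u} [Field K] [NumberField K]

omit [NumberField K] in
theorem rho_mem (F : IntermediateField K (AlgebraicClosure K)) [CharZero K] {x : AlgebraicClosure K}
    (hx : FixG F.fixingSubgroup x) : x ∈ F := by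
  rw [← InfiniteGalois.fixedField_fixingSubgroup F, IntermediateField.mem_fixedField_iff]
  exact hx

/-- Evenness at all places in terms of the primes of the algebraic closure. -/
theorem rho_even (E : IntermediateField K (AlgebraicClosure K)) [NumberField E]
    [FiniteDimensional K E] {c : E} (hc : c ≠ 0) :
    (∀ w : HeightOneSpectrum (𝓞 E), Even (vOrd w c)) ↔
      ∀ 𝔓 : Ideal (𝓞 (AlgebraicClosure K)), FinPrime 𝔓 → EvenAt E 𝔓 (c : AlgebraicClosure K) := by
  constructor
  · intro h 𝔓 h𝔓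
    obtain ⟨v, hv⟩ := v2c_above 𝔓 h𝔓
    obtain ⟨w, hw⟩ := v2_place E hv
    exact (evenAt_iff E hw hc).2 (h _)
  · intro h w
    obtain ⟨𝔓, h1, h2⟩ := v2_prime E (v := w.under (𝓞 K)) ⟨w, rfl⟩
    refine (evenAt_iff E h2 hc).1 (h 𝔓 ⟨h1.1, ?_⟩)
    rintro rfl
    apply w.ne_bot
    rw [← h2.2]
    exact Ideal.comap_bot_of_injective _
      (FaithfulSMul.algebraMap_injective (𝓞 E) (𝓞 (AlgebraicClosure K)))

/-- The classes of norm a square and the classes of `F` give different classes of `LF`. -/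
theorem rho_count (L F : IntermediateField K (AlgebraicClosure K)) [FiniteDimensional K L]
    [FiniteDimensional K F] [NumberField F]
    [NumberField (L ⊔ F : IntermediateField K (AlgebraicClosure K))]
    (hodd : Odd (Module.finrank K L)) (hT : TransOn L F.fixingSubgroup) (nF nM : ℕ)
    (hF : SelReps F nF) (hM : SelReps (L ⊔ F : IntermediateField K (AlgebraicClosure K)) nM)
    (Y : Finset (L ⊔ F : IntermediateField K (AlgebraicClosure K)))
    (h1 : ∀ a ∈ Y, a ≠ 0 ∧ (∀ w : HeightOneSpectrum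
      (𝓞 (L ⊔ F : IntermediateField K (AlgebraicClosure K))), Even (vOrd w a)) ∧
      ∃ d ∈ F, normG L F.fixingSubgroup (a : AlgebraicClosure K) = d * d)
    (h2 : ∀ a ∈ Y, ∀ a' ∈ Y, ∀ u : (L ⊔ F : IntermediateField K (AlgebraicClosure K)), u ≠ 0 →
      a = a' * (u * u) → a = a') : Y.card * nF ≤ nM := by
  classical
  obtain ⟨TF, hTF, hF1, hF2, hF3⟩ := hF
  obtain ⟨TM, hTM, hM1, hM2, hM3⟩ := hM
  let j : F → (L ⊔ F : IntermediateField K (AlgebraicClosure K)) := fun b =>
    ⟨b.1, (le_sup_right : F ≤ L ⊔ F) b.2⟩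
  have hj0 : ∀ b : F, b ≠ 0 → j b ≠ 0 := fun b hb h =>
    hb (Subtype.ext (show (b : AlgebraicClosure K) = 0 from congrArg Subtype.val h))
  have hjev : ∀ b ∈ TF, ∀ w : HeightOneSpectrum
      (𝓞 (L ⊔ F : IntermediateField K (AlgebraicClosure K))), Even (vOrd w (j b)) := by
    intro b hb
    rw [rho_even (L ⊔ F) (hj0 b (hF1 b hb).1)]
    intro 𝔓 h𝔓
    obtain ⟨d, hd, hd0, x, y, hx, hy, he⟩ :=
      (rho_even F (hF1 b hb).1).1 (hF1 b hb).2 𝔓 h𝔓
    exact ⟨d, (le_sup_right : F ≤ L ⊔ F) hd, hd0, x, y, hx, hy, he⟩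
  have hrep : ∀ p ∈ Y ×ˢ TF, ∃ t ∈ TM, ∃ u : (L ⊔ F : IntermediateField K (AlgebraicClosure K)),
      u ≠ 0 ∧ p.1 * j p.2 = t * (u * u) := by
    intro p hp
    obtain ⟨hp1, hp2⟩ := Finset.mem_product.1 hp
    have ha := (h1 _ hp1).1
    have hb := hj0 _ (hF1 _ hp2).1
    refine hM2 _ (mul_ne_zero ha hb) fun w => ?_
    rw [vOrd_mul w ha hb]
    exact ((h1 _ hp1).2.1 w).add (hjev _ hp2 w)
  choose! t ht u hu0 hu using hrep
  have hinj : Set.InjOn t (Y ×ˢ TF : Finset _) := by
    rintro ⟨a, b⟩ hp ⟨a', b'⟩ hp' heq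
    have hu1 := hu _ hp
    have hu2 := hu _ hp'
    have hu01 := hu0 _ hp
    have hu02 := hu0 _ hp'
    obtain ⟨hp1, hp2⟩ := Finset.mem_product.1 hp
    obtain ⟨hp1', hp2'⟩ := Finset.mem_product.1 hp'
    simp only at hu1 hu2 hp1 hp2 hp1' hp2'
    obtain ⟨ha0, -, d, hd, hdd⟩ := h1 a hp1
    obtain ⟨ha0', -, d', hd', hdd'⟩ := h1 a' hp1'
    have hb0 := (hF1 b hp2).1
    have hb0' := (hF1 b' hp2').1
    set w := u (a, b) / u (a', b') with hw
    have hw0 : w ≠ 0 := div_ne_zero hu01 hu02
    have e1 : a * j b = a' * j b' * (w * w) := by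
      rw [hu1, hu2, heq, hw]
      field_simp
    -- the norms
    have e2 : normG L F.fixingSubgroup ((a * j b : (L ⊔ F :
        IntermediateField K (AlgebraicClosure K))) : AlgebraicClosure K) =
        d * d * (b : AlgebraicClosure K) ^ Module.finrank K L := by
      show normG L F.fixingSubgroup ((a : AlgebraicClosure K) * (b : AlgebraicClosure K)) = _
      rw [v4_norm_mul, hdd, v4_norm_pow L _ hT (fun s hs => vn_fix F b.2 hs)]
    have e3 : normG L F.fixingSubgroup ((a' * j b' * (w * w) : (L ⊔ F :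
        IntermediateField K (AlgebraicClosure K))) : AlgebraicClosure K) =
        d' * d' * (b' : AlgebraicClosure K) ^ Module.finrank K L *
          (normG L F.fixingSubgroup (w : AlgebraicClosure K) *
            normG L F.fixingSubgroup (w : AlgebraicClosure K)) := by
      show normG L F.fixingSubgroup ((a' : AlgebraicClosure K) * (b' : AlgebraicClosure K) *
        ((w : AlgebraicClosure K) * (w : AlgebraicClosure K))) = _
      rw [v4_norm_mul, v4_norm_mul, v4_norm_mul, hdd',
        v4_norm_pow L _ hT (fun s hs => vn_fix F b'.2 hs)]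
    rw [e1, e3] at e2
    set m := normG L F.fixingSubgroup (w : AlgebraicClosure K) with hm
    have hmF : m ∈ F := by
      apply rho_mem F
      apply v4_norm_fix L _ hT
      intro s hs
      rw [← IntermediateField.fixingSubgroup_sup] at hs
      exact vn_fix (L ⊔ F) w.2 hs
    have hw0' : (w : AlgebraicClosure K) ≠ 0 := fun h => hw0 (Subtype.ext h)
    have hm0 : m ≠ 0 := v4_norm_ne L _ hw0'
    have ha00 : (a : AlgebraicClosure K) ≠ 0 := fun h => ha0 (Subtype.ext h)
    have ha00' : (a' : AlgebraicClosure K) ≠ 0 := fun h => ha0' (Subtype.ext h)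
    have hd0 : d ≠ 0 := by
      rintro rfl
      rw [zero_mul] at hdd
      exact v4_norm_ne L _ ha00 hdd
    have hd0' : d' ≠ 0 := by
      rintro rfl
      rw [zero_mul] at hdd'
      exact v4_norm_ne L _ ha00' hdd'
    have hbb : b = b' := by
      obtain ⟨k, hk⟩ := hodd
      let dF : F := ⟨d, hd⟩
      let dF' : F := ⟨d', hd'⟩
      let mF : F := ⟨m, hmF⟩
      have hdF : dF ≠ 0 := fun h => hd0 (congrArg Subtype.val h)
      have hdF' : dF' ≠ 0 := fun h => hd0' (congrArg Subtype.val h)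
      have hmF0 : mF ≠ 0 := fun h => hm0 (congrArg Subtype.val h)
      have e4 : dF' * dF' * b' ^ (2 * k + 1) * (mF * mF) = dF * dF * b ^ (2 * k + 1) := by
        apply Subtype.ext
        rw [hk] at e2
        exact e2
      refine hF3 b hp2 b' hp2' (dF' * mF / dF * (b' / b) ^ k) (mul_ne_zero
        (div_ne_zero (mul_ne_zero hdF' hmF0) hdF) (pow_ne_zero _ (div_ne_zero hb0' hb0))) ?_
      have e5 : b * (b ^ (2 * k) * (dF * dF)) = b' * (b' ^ (2 * k) * (dF' * dF') * (mF * mF)) := by
        linear_combination -e4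
      have e6 : b ^ (2 * k) * (dF * dF) ≠ 0 := mul_ne_zero (pow_ne_zero _ hb0)
        (mul_ne_zero hdF hdF)
      rw [← eq_div_iff e6] at e5
      have e9 : b' * (dF' * mF / dF * (b' / b) ^ k * (dF' * mF / dF * (b' / b) ^ k)) =
          b' * (b' ^ (2 * k) * (dF' * dF') * (mF * mF)) / (b ^ (2 * k) * (dF * dF)) := by
        field_simp
        rw [div_pow, div_pow, ← pow_mul, ← pow_mul, mul_comm k 2,
          div_mul_cancel₀ _ (pow_ne_zero _ hb0)]
      exact e5.trans e9.symm
    have haa : a = a' := by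
      refine h2 a hp1 a' hp1' w hw0 ?_
      have e7 : j b ≠ 0 := hj0 b hb0
      rw [← hbb] at e1
      have e8 : a * j b = a' * (w * w) * j b := by rw [e1]; ring
      exact mul_right_cancel₀ e7 e8
    rw [haa, hbb]
  have hle := Finset.card_le_card_of_injOn t ht hinj
  rw [Finset.card_product, hTF, hTM] at hle
  exact hle

/-- The number of the elements of the class group of `E` whose square is trivial, times `2 ^ u`, where
`u` is the number of the infinite places of `E`. -/
noncomputable def selNum (E : Type u) [Field E] : ℕ :=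
  Nat.card {x : ClassGroup (𝓞 E) // x * x = 1} * 2 ^ Nat.card (InfinitePlace E)

theorem selNum_pow (E : Type u) [Field E] [NumberField E] : ∃ k : ℕ, selNum E = 2 ^ k := by
  let G : Subgroup (ClassGroup (𝓞 E)) := (powMonoidHom 2 : ClassGroup (𝓞 E) →* _).ker
  have h1 : Nat.card {x : ClassGroup (𝓞 E) // x * x = 1} = Nat.card G := by
    refine Nat.card_congr (Equiv.subtypeEquivRight fun x => ?_)
    show x * x = 1 ↔ x ^ 2 = 1
    rw [sq]
  have h2 : IsPGroup 2 G := fun x => ⟨1, by
    apply Subtype.ext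
    have h3 : (x : ClassGroup (𝓞 E)) ^ 2 = 1 := x.2
    rw [pow_one]
    exact h3⟩
  have hp : Fact (Nat.Prime 2) := ⟨Nat.prime_two⟩
  obtain ⟨k, hk⟩ := (IsPGroup.iff_card (p := 2)).1 h2
  refine ⟨k + Nat.card (InfinitePlace E), ?_⟩
  unfold selNum
  rw [h1, hk, pow_add]

/-- If there are exactly `selNum` classes with even valuations in `F` and in `LF`, then `selNum F`
divides `selNum LF`, and the quotient bounds the number of the classes in `frameClasses`. -/
theorem rho_main (L F : IntermediateField K (AlgebraicClosure K)) [FiniteDimensional K L]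
    [FiniteDimensional K F] [NumberField F]
    [NumberField (L ⊔ F : IntermediateField K (AlgebraicClosure K))]
    (hodd : Odd (Module.finrank K L)) (hT : TransOn L F.fixingSubgroup)
    (hF : SelReps F (selNum F))
    (hM : SelReps (L ⊔ F : IntermediateField K (AlgebraicClosure K))
      (selNum (L ⊔ F : IntermediateField K (AlgebraicClosure K)))) :
    ∃ ρ : ℕ, selNum (L ⊔ F : IntermediateField K (AlgebraicClosure K)) = 2 ^ ρ * selNum F ∧
      ∀ (Rel : Set (Set ((AlgebraicClosure K ≃ₐ[K] AlgebraicClosure K) ⧸ F.fixingSubgroup)))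
        (T : Set (HeightOneSpectrum (𝓞 F))) (R : Set (F →+* ℂ)),
        SquareClasses (frameClasses L F Rel T R) (2 ^ ρ) := by
  classical
  obtain ⟨kF, hkF⟩ := selNum_pow F
  obtain ⟨kM, hkM⟩ := selNum_pow (L ⊔ F : IntermediateField K (AlgebraicClosure K))
  have h1 : selNum F ≤ selNum (L ⊔ F : IntermediateField K (AlgebraicClosure K)) := by
    have h2 := rho_count L F hodd hT _ _ hF hM {1} (by
      intro a ha
      rw [Finset.mem_singleton] at ha
      subst ha
      refine ⟨one_ne_zero, fun w => ?_, 1, F.one_mem, ?_⟩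
      · rw [vOrd_one]
        exact Even.zero
      · show normG L F.fixingSubgroup (1 : AlgebraicClosure K) = 1 * 1
        rw [v4_norm_pow L _ hT (fun s _ => map_one s), one_pow, one_mul]) (by
      intro a ha a' ha' u _ _
      rw [Finset.mem_singleton] at ha ha'
      rw [ha, ha'])
    rwa [Finset.card_singleton, one_mul] at h2
  have hle : kF ≤ kM := by
    rw [hkF, hkM] at h1
    exact (Nat.pow_le_pow_iff_right (by norm_num)).1 h1
  refine ⟨kM - kF, ?_, fun Rel T R => ?_⟩
  · rw [hkF, hkM, ← pow_add, Nat.sub_add_cancel hle]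
  · obtain ⟨TM, hTM, hM1, hM2, hM3⟩ := hM
    let X := frameClasses L F Rel T R
    have hX : ∀ a ∈ X, a ≠ 0 ∧ (∀ w : HeightOneSpectrum
        (𝓞 (L ⊔ F : IntermediateField K (AlgebraicClosure K))), Even (vOrd w a)) ∧
        ∃ d ∈ F, normG L F.fixingSubgroup (a : AlgebraicClosure K) = d * d := by
      rintro a ⟨ha0, hd, -, hunr, heven, -⟩
      refine ⟨ha0, ?_, hd⟩
      rw [rho_even (L ⊔ F) ha0]
      intro 𝔓 h𝔓
      obtain ⟨v, hv⟩ := v2c_above 𝔓 h𝔓
      obtain ⟨w, hw⟩ := v2_place F hv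
      by_cases h : 2 ∉ w.1.asIdeal ∨ w.1 ∈ T
      · exact v8_even_of_unr _ h𝔓 ha0 (hunr w.1 𝔓 hw h)
      · push Not at h
        exact heven w.1 𝔓 hw h.1 h.2
    let TX := TM.filter fun t => ∃ a ∈ X, ∃ u : (L ⊔ F : IntermediateField K (AlgebraicClosure K)),
      u ≠ 0 ∧ a = t * (u * u)
    have hch : ∀ t ∈ TX, ∃ a ∈ X, ∃ u : (L ⊔ F : IntermediateField K (AlgebraicClosure K)),
        u ≠ 0 ∧ a = t * (u * u) := fun t ht => (Finset.mem_filter.1 ht).2
    choose! a haX u hu0 hu using hch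
    have hainj : ∀ t ∈ TX, ∀ t' ∈ TX, ∀ w : (L ⊔ F : IntermediateField K (AlgebraicClosure K)),
        w ≠ 0 → a t = a t' * (w * w) → t = t' := by
      intro t ht t' ht' w hw he
      refine hM3 t (Finset.mem_filter.1 ht).1 t' (Finset.mem_filter.1 ht').1
        (u t' * w / u t) (div_ne_zero (mul_ne_zero (hu0 t' ht') hw) (hu0 t ht)) ?_
      have h3 := hu0 t ht
      rw [hu t ht, hu t' ht'] at he
      field_simp
      linear_combination he
    refine ⟨TX.image a, ?_, ?_⟩
    · have h2 := rho_count L F hodd hT _ _ hF ⟨TM, hTM, hM1, hM2, hM3⟩ (TX.image a) (by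
        intro b hb
        obtain ⟨t, ht, rfl⟩ := Finset.mem_image.1 hb
        exact hX _ (haX t ht)) (by
        intro b hb b' hb' w hw he
        obtain ⟨t, ht, rfl⟩ := Finset.mem_image.1 hb
        obtain ⟨t', ht', rfl⟩ := Finset.mem_image.1 hb'
        rw [hainj t ht t' ht' w hw he])
      rw [hkF, hkM, ← Nat.sub_add_cancel hle, pow_add] at h2
      exact Nat.le_of_mul_le_mul_right h2 (by positivity)
    · intro c hc
      obtain ⟨hc0, hcev, -⟩ := hX c hc
      obtain ⟨t, ht, v, hv0, hv⟩ := hM2 c hc0 hcev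
      have htX : t ∈ TX := Finset.mem_filter.2 ⟨ht, c, hc, v, hv0, hv⟩
      refine ⟨a t, Finset.mem_image_of_mem a htX, v / u t, div_ne_zero hv0 (hu0 t htX), ?_⟩
      have h3 := hu0 t htX
      rw [hu t htX, hv]
      field_simp

end Pool.Agent.H.MP_ac3185_nt
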