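import Pool.Agent.H.MP_ac3185_nt.V8.SelCard
import Pool.Agent.H.MP_ac3185_nt.V8.Rho

/-! Representatives of the square classes of the elements with even valuations. -/

set_option autoImplicit false

open NumberField IsDedekindDomain

namespace Pool.Agent.H.MP_ac3185_nt

universe u

/-- There are exactly `selNum E` square classes of elements with even valuations. -/
theorem selCard (E : Type u) [Field E] [NumberField E] : SelReps E (selNum E) := by
  classical
  have hc : (sqU E).relIndex (selU E) = selNum E := sc_card E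
  have hne : (sqU E).relIndex (selU E) ≠ 0 := by
    obtain ⟨k, hk⟩ := selNum_pow E
    rw [hc, hk]
    positivity
  have hfin : Finite (selU E ⧸ (sqU E).subgroupOf (selU E)) :=
    Nat.finite_of_card_ne_zero hne
  have hft : Fintype (selU E ⧸ (sqU E).subgroupOf (selU E)) := Fintype.ofFinite _
  let g : selU E ⧸ (sqU E).subgroupOf (selU E) → E := fun q => ((q.out : Eˣ) : E)
  have hg : ∀ q q', ∀ u : E, u ≠ 0 → g q = g q' * (u * u) → q = q' := by
    intro q q' u hu h
    have h1 : (q'.out)⁻¹ * q.out ∈ (sqU E).subgroupOf (selU E) := by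
      rw [Subgroup.mem_subgroupOf, mem_sqU]
      refine ⟨Units.mk0 u hu, ?_⟩
      apply Units.ext
      show (((q'.out : Eˣ)⁻¹ * (q.out : Eˣ) : Eˣ) : E) = u * u
      have h2 : ((q.out : Eˣ) : E) = ((q'.out : Eˣ) : E) * (u * u) := h
      rw [Units.val_mul, h2, Units.val_inv_eq_inv_val, inv_mul_cancel_left₀ (Units.ne_zero _)]
    have h3 := QuotientGroup.eq.2 h1
    rw [QuotientGroup.out_eq', QuotientGroup.out_eq'] at h3
    exact h3.symm
  have hinj : Function.Injective g := fun q q' h => hg q q' 1 one_ne_zero (by rw [h]; ring)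
  refine ⟨Finset.univ.image g, ?_, ?_, ?_, ?_⟩
  · rw [Finset.card_image_of_injective _ hinj, Finset.card_univ, ← Nat.card_eq_fintype_card]
    exact hc
  · intro t ht
    obtain ⟨q, -, rfl⟩ := Finset.mem_image.1 ht
    exact ⟨Units.ne_zero _, (q.out).2⟩
  · intro c hc0 hev
    let x : selU E := ⟨Units.mk0 c hc0, hev⟩
    refine ⟨g (x : selU E ⧸ (sqU E).subgroupOf (selU E)),
      Finset.mem_image_of_mem _ (Finset.mem_univ _), ?_⟩
    have h1 : ((x : selU E ⧸ (sqU E).subgroupOf (selU E)).out)⁻¹ * x ∈
        (sqU E).subgroupOf (selU E) := by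
      rw [← QuotientGroup.eq, QuotientGroup.out_eq']
    rw [Subgroup.mem_subgroupOf, mem_sqU] at h1
    obtain ⟨u, hu⟩ := h1
    refine ⟨(u : E), u.ne_zero, ?_⟩
    have h2 := congrArg Units.val hu
    rw [Units.val_mul] at h2
    rw [← h2]
    show c = (((x : selU E ⧸ (sqU E).subgroupOf (selU E)).out : Eˣ) : E) *
      ((((x : selU E ⧸ (sqU E).subgroupOf (selU E)).out : Eˣ)⁻¹ * (x : Eˣ) : Eˣ) : E)
    rw [Units.val_mul, Units.val_inv_eq_inv_val, mul_inv_cancel_left₀ (Units.ne_zero _)]
    rfl
  · intro t ht t' ht' u hu h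
    obtain ⟨q, -, rfl⟩ := Finset.mem_image.1 ht
    obtain ⟨q', -, rfl⟩ := Finset.mem_image.1 ht'
    rw [hg q q' u hu h]

/-- `frameClasses` for all `Rel`, `T`, `R` consists of at most `2 ^ ρ` classes, where
`selNum LF = 2 ^ ρ * selNum F`. -/
theorem v8_rho {K : Type u} [Field K] [NumberField K]
    (L F : IntermediateField K (AlgebraicClosure K)) [FiniteDimensional K L]
    [FiniteDimensional K F] (hodd : Odd (Module.finrank K L))
    (hT : TransOn L F.fixingSubgroup) :
    ∃ ρ : ℕ, selNum (L ⊔ F : IntermediateField K (AlgebraicClosure K)) = 2 ^ ρ * selNum F ∧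
      ∀ (Rel : Set (Set ((AlgebraicClosure K ≃ₐ[K] AlgebraicClosure K) ⧸ F.fixingSubgroup)))
        (T : Set (HeightOneSpectrum (𝓞 F))) (R : Set (F →+* ℂ)),
        SquareClasses (frameClasses L F Rel T R) (2 ^ ρ) := by
  have hnF : NumberField F := NumberField.of_module_finite K F
  have hfd : FiniteDimensional K (L ⊔ F : IntermediateField K (AlgebraicClosure K)) :=
    IntermediateField.finiteDimensional_sup L F
  have hnM : NumberField (L ⊔ F : IntermediateField K (AlgebraicClosure K)) :=
    NumberField.of_module_finite K _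
  exact rho_main L F hodd hT (selCard F) (selCard _)

end Pool.Agent.H.MP_ac3185_nt
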