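import Pool.Agent.H.MP_ac3185_nt.V8.Exist
import Pool.Agent.H.MP_ac3185_nt.V8.SelReps
import Pool.Agent.H.MP_ac3185_nt.V8.Rho2
import Pool.Agent.H.MP_ac3185_nt.V8.SignAll
import Pool.Agent.H.MP_ac3185_nt.V8.SelDefs

/-! The growth of the rank and the change of the root number in extensions of odd degree: the theorem
for all abelian varieties. -/

set_option autoImplicit false

open CategoryTheory AlgebraicGeometry NumberField IsDedekindDomain
open scoped MonObj

namespace Pool.Agent.H.MP_ac3185_nt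

universe u

theorem selNum_rank (E : Type u) [Field E] [NumberField E] : selNum E = 2 ^ selRank E := by
  let G : Subgroup (ClassGroup (𝓞 E)) := (powMonoidHom 2 : ClassGroup (𝓞 E) →* _).ker
  have h1 : Nat.card {x : ClassGroup (𝓞 E) // x * x = 1} = Nat.card G := by
    refine Nat.card_congr (Equiv.subtypeEquivRight fun x => ?_)
    show x * x = 1 ↔ x ^ 2 = 1
    rw [sq]
  have h2 : IsPGroup 2 G := fun x => ⟨1, by
    apply Subtype.ext
    have h3 : (x : ClassGroup (𝓞 E)) ^ 2 = 1 := x.2
    rw [pow_one]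
    exact h3⟩
  have hp : Fact (Nat.Prime 2) := ⟨Nat.prime_two⟩
  obtain ⟨k, hk⟩ := (IsPGroup.iff_card (p := 2)).1 h2
  unfold selNum selRank
  rw [h1, hk, Nat.log_pow (by norm_num), pow_add]

variable {K : Type u} [Field K] [NumberField K]

/-- The bound for the number of classes in terms of class groups. -/
theorem v8_rhoBound (L F : IntermediateField K (AlgebraicClosure K)) [FiniteDimensional K L]
    [FiniteDimensional K F] (hodd : Odd (Module.finrank K L)) (hodd' : Odd (Module.finrank K F))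
    (hT : TransOn L F.fixingSubgroup)
    (Rel : Set (Set ((AlgebraicClosure K ≃ₐ[K] AlgebraicClosure K) ⧸ F.fixingSubgroup)))
    (T : Set (HeightOneSpectrum (𝓞 F))) (R : Set (F →+* ℂ)) (hRel : F = ⊥ ∨ Set.univ ∈ Rel) :
    SquareClasses (frameClasses L F Rel T R) (2 ^ rhoBound L F) := by
  have hnF : NumberField F := NumberField.of_module_finite K F
  have hnL : NumberField L := NumberField.of_module_finite K L
  have hfd : FiniteDimensional K (L ⊔ F : IntermediateField K (AlgebraicClosure K)) :=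
    IntermediateField.finiteDimensional_sup L F
  have hnM : NumberField (L ⊔ F : IntermediateField K (AlgebraicClosure K)) :=
    NumberField.of_module_finite K _
  by_cases h : F = ⊥
  · obtain ⟨ρ, h1, h2⟩ := v8_rho L F hodd hT
    have h3 : rhoBound L F = ρ := by
      rw [selNum_rank, selNum_rank, ← pow_add] at h1
      have h4 := Nat.pow_right_injective (le_refl 2) h1
      unfold rhoBound
      rw [if_pos h, h4, Nat.add_sub_cancel]
    rw [h3]
    exact h2 Rel T R
  · obtain ⟨ρ, h1, h2⟩ := rho_main2 L F hodd hodd' hT (selCard F) (selCard L) (selCard K)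
      (selCard _)
    have h3 : rhoBound L F = ρ := by
      rw [selNum_rank, selNum_rank, selNum_rank, selNum_rank, ← pow_add, ← pow_add,
        ← pow_add] at h1
      have h4 := Nat.pow_right_injective (le_refl 2) h1
      unfold rhoBound
      rw [if_neg h, h4, Nat.add_sub_cancel]
    rw [h3]
    exact h2 Rel T R (hRel.resolve_left h)

/-- For every abelian variety `A` over `K` there are a finite set `S₀` of places of `K` and fields
`F_i`, `i < r`, in `K(A[2])` of odd degree over `K`, such that for all `L / K` of odd degree which are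
linearly disjoint from `K(A[2])` there is a chain for `A[2]` with an explicit bound. -/
theorem v8_final (A : Over (Spec (.of K))) [GrpObj A] [IsAbVar A] :
    ∃ (S₀ : Finset (HeightOneSpectrum (𝓞 K))) (r : ℕ)
      (F : ℕ → IntermediateField K (AlgebraicClosure K))
      (S : ∀ i, Finset (HeightOneSpectrum (𝓞 (F i)))),
      (∀ v ∉ S₀, ∀ 𝔓, Above 𝔓 v → GoodAt A 𝔓) ∧
      (∀ W : LocalSigns K, IsRootNumbers A W → ∀ v, ∃ a, EvenSign W v a) ∧
      (∀ i v, v ∈ S i ↔ ∃ v₀ ∈ S₀, Divides (F i) v v₀) ∧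
      (∀ i < r, FiniteDimensional K (F i) ∧ Odd (Module.finrank K (F i)) ∧
        ∀ s, (∀ x, InSub (torSub A 2) x → act A s x = x) → s ∈ (F i).fixingSubgroup) ∧
      ∀ (L : IntermediateField K (AlgebraicClosure K)) [FiniteDimensional K L],
        Odd (Module.finrank K L) → DisjTwo A L →
          ModChain L A (torSub A 2)
            (∑ i ∈ Finset.range r, (rhoBound L (F i) + excessOver L (F i) (S i))) := by
  classical
  obtain ⟨S₁, r, N, H, F, h0, hr, h2, hF, hi⟩ := v8_exists A
  obtain ⟨S₂, hS₂⟩ := v8_bad A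
  have hfin : ∀ i, {v : HeightOneSpectrum (𝓞 (F i)) | ∃ v₀ ∈ S₁ ∪ S₂, Divides (F i) v v₀}.Finite :=
    fun i => by
      have hFi := hF i
      exact v8x_finite (F i) (S₁ ∪ S₂)
  refine ⟨S₁ ∪ S₂, r, F, fun i => (hfin i).toFinset, fun v hv => hS₂ v fun h =>
    hv (Finset.mem_union_right _ h), v8_evenSign A, fun i v => (hfin i).mem_toFinset, fun i hir =>
    ⟨hF i, (hi i hir).1.odd, (hi i hir).2.1⟩, fun L _ hodd hlin => ?_⟩
  have hNr : torSub A 2 = N r := by
    ext x
    rw [hr]
    exact Iff.rfl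
  rw [hNr]
  refine v8_modChain L A r N H F
    (fun i => {Ω | ∀ x ∈ N (i + 1), Even (Ω ∩ shadow (F i) (H i) x).ncard})
    (fun _ => ∅) (fun _ => ∅) (fun i => (hfin i).toFinset) (fun i => rhoBound L (F i)) h0 hF
    (fun i hir => ?_) (fun i hir => ?_)
  · obtain ⟨hf, -, -, hE⟩ := hi i hir
    refine v8_layerAt hf.toModFrame (h2 _) hlin _ ∅ ∅ _ (fun Ω hΩ => hΩ)
      (fun v hv => absurd hv (Set.notMem_empty v))
      (fun e s he => absurd he (Set.notMem_empty _)) (fun v hv _ => hE v fun v₀ hv₀ hd => ?_)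
    exact hv ((hfin i).mem_toFinset.2 ⟨v₀, Finset.mem_union_left _ hv₀, hd⟩)
  · obtain ⟨hf, -, hu, -⟩ := hi i hir
    have hFi := hF i
    refine v8_rhoBound L (F i) hodd hf.odd ?_ _ _ _ hu
    refine v8_transOn L (F i) hf.toModFrame fun s => ?_
    obtain ⟨t, ht, h⟩ := hlin s
    refine ⟨t, ht, fun x hx => ?_⟩
    rw [h x (h2 _ x hx), sub_self]
    exact (N i).zero_mem

/-- The complete theorem. -/
theorem v8_all (A : Over (Spec (.of K))) [GrpObj A] [IsAbVar A] :
    (∀ (L : IntermediateField K (AlgebraicClosure K)) [FiniteDimensional K L],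
      Odd (Module.finrank K L) → ∀ m b : ℕ, ModChain L A (torSub A (2 ^ m)) b →
      MulBound A L (2 ^ m) b ∧
      (b < m → ¬ NewPoint A L ∧ rk A L = rk A ⊥) ∧
      (Module.Finite ℤ (Pts A L) → rk A ⊥ ≤ rk A L ∧ m * (rk A L - rk A ⊥) ≤ b) ∧
      ∀ g : ℕ, topologicalKrullDim A.left = g → ∀ W : LocalSigns K, IsRootNumbers A W →
        ∀ (T : Finset (HeightOneSpectrum (𝓞 K))) (r : HeightOneSpectrum (𝓞 K) → ℕ),
        (∀ v ∈ T, SplitTorus A v (r v) ∨ (QuadTorus A v (r v) ∧ OddRam L v) ∨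
          (EvenSign W v (r v) ∧ UnrIn L v)) →
        (∀ v ∉ T, ∀ 𝔓, Above 𝔓 v → MildAt A L 𝔓) →
          signOver W g L = (-1) ^ signChange L g T r * signOver W g ⊥ ∧
          (b < m → ((ParityFor A g W L ↔ ParityFor A g W ⊥) ↔ Even (signChange L g T r))) ∧
          (b < 2 * m → Module.Finite ℤ (Pts A L) →
            ((ParityFor A g W L ↔ ParityFor A g W ⊥) ↔
              (Odd (signChange L g T r) ↔ NewPoint A L)))) ∧
    ∃ (S₀ : Finset (HeightOneSpectrum (𝓞 K))) (r : ℕ)
      (F : ℕ → IntermediateField K (AlgebraicClosure K))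
      (S : ∀ i, Finset (HeightOneSpectrum (𝓞 (F i)))),
      (∀ v ∉ S₀, ∀ 𝔓, Above 𝔓 v → GoodAt A 𝔓) ∧
      (∀ W : LocalSigns K, IsRootNumbers A W → ∀ v, ∃ a, EvenSign W v a) ∧
      (∀ i v, v ∈ S i ↔ ∃ v₀ ∈ S₀, Divides (F i) v v₀) ∧
      (∀ i < r, FiniteDimensional K (F i) ∧ Odd (Module.finrank K (F i)) ∧
        ∀ s, (∀ x, InSub (torSub A 2) x → act A s x = x) → s ∈ (F i).fixingSubgroup) ∧
      ∀ (L : IntermediateField K (AlgebraicClosure K)) [FiniteDimensional K L],
        Odd (Module.finrank K L) → DisjTwo A L →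
          ModChain L A (torSub A 2)
            (∑ i ∈ Finset.range r, (rhoBound L (F i) + excessOver L (F i) (S i))) :=
  ⟨fun L _ hodd m b hc => v8_main L hodd A m b _ (fun _ => Iff.rfl) hc, v8_final A⟩

end Pool.Agent.H.MP_ac3185_nt
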