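import Mathlib

/-! Subgroups of index `2` above a given subgroup: their number is odd; orbits of odd length. -/

set_option autoImplicit false

namespace Pool.Agent.H.MP_ac3185_nt

/-- A group which acts on a set with an odd number of elements has an orbit of odd length. -/
theorem v8_odd_orbit {G Φ : Type*} [Group G] [MulAction G Φ] [Finite Φ] (h : Odd (Nat.card Φ)) :
    ∃ φ : Φ, Odd (MulAction.stabilizer G φ).index := by
  classical
  by_contra hne
  have hne' : ∀ φ : Φ, Even (MulAction.stabilizer G φ).index := fun φ => by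
    by_contra h1
    exact hne ⟨φ, Nat.not_even_iff_odd.1 h1⟩
  have e := MulAction.selfEquivSigmaOrbitsQuotientStabilizer G Φ
  have hfq : Finite (MulAction.orbitRel.Quotient G Φ) := Quotient.finite _
  let _ := Fintype.ofFinite (MulAction.orbitRel.Quotient G Φ)
  have hfs : ∀ φ : Φ, Finite (G ⧸ MulAction.stabilizer G φ) := fun φ =>
    Finite.of_equiv _ (MulAction.orbitEquivQuotientStabilizer G φ)
  have h1 : Nat.card Φ = ∑ ω : MulAction.orbitRel.Quotient G Φ,
      Nat.card (G ⧸ MulAction.stabilizer G ω.out) := by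
    rw [Nat.card_congr e, Nat.card_sigma]
  rw [h1] at h
  refine (Nat.not_even_iff_odd.2 h) ?_
  exact Finset.even_sum _ fun ω _ => hne' _

/-- A finite set with an involution without fixed points has an even number of elements. -/
theorem v8_even_inv {α : Type*} (s : Finset α) (g : α → α) (h1 : ∀ a ∈ s, g a ∈ s)
    (h2 : ∀ a ∈ s, g (g a) = a) (h3 : ∀ a ∈ s, g a ≠ a) : Even s.card := by
  have h4 : ∑ _x ∈ s, (1 : ZMod 2) = 0 :=
    Finset.sum_involution (fun a _ => g a) (fun a _ => by decide) (fun a ha _ => h3 a ha)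
      h1 h2
  rw [Finset.sum_const, nsmul_eq_mul, mul_one] at h4
  exact (ZMod.natCast_eq_zero_iff_even).1 h4

section hyper

variable {X : Type*} [AddCommGroup X]

/-- `H` is a subgroup of index `2` of `N'` which contains `N`. -/
structure Hyper (N N' H : AddSubgroup X) : Prop where
  le : N ≤ H
  le' : H ≤ N'
  ne : H ≠ N'
  index : ∀ x ∈ N', ∀ y ∈ N', x ∉ H → y ∉ H → x + y ∈ H

/-- The third subgroup. -/
def hyperThird {N N' H H₀ : AddSubgroup X} (h : Hyper N N' H) (h₀ : Hyper N N' H₀) :
    AddSubgroup X where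
  carrier := {x | x ∈ N' ∧ (x ∈ H ↔ x ∈ H₀)}
  zero_mem' := ⟨N'.zero_mem, iff_of_true H.zero_mem H₀.zero_mem⟩
  add_mem' := by
    rintro x y ⟨hx, hx'⟩ ⟨hy, hy'⟩
    refine ⟨N'.add_mem hx hy, ?_⟩
    by_cases h1 : x ∈ H
    · rw [H.add_mem_cancel_left h1, H₀.add_mem_cancel_left (hx'.1 h1)]
      exact hy'
    · by_cases h2 : y ∈ H
      · rw [H.add_mem_cancel_right h2, H₀.add_mem_cancel_right (hy'.1 h2)]
        exact hx'
      · exact iff_of_true (h.index x hx y hy h1 h2)
          (h₀.index x hx y hy (fun h3 => h1 (hx'.2 h3)) (fun h3 => h2 (hy'.2 h3)))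
  neg_mem' := by
    rintro x ⟨hx, hx'⟩
    refine ⟨N'.neg_mem hx, ?_⟩
    rw [H.neg_mem_iff, H₀.neg_mem_iff]
    exact hx'

theorem mem_hyperThird {N N' H H₀ : AddSubgroup X} (h : Hyper N N' H) (h₀ : Hyper N N' H₀)
    {x : X} : x ∈ hyperThird h h₀ ↔ x ∈ N' ∧ (x ∈ H ↔ x ∈ H₀) := Iff.rfl

theorem hyperThird_hyper {N N' H H₀ : AddSubgroup X} (h : Hyper N N' H) (h₀ : Hyper N N' H₀)
    (hne : H ≠ H₀) : Hyper N N' (hyperThird h h₀) := by
  refine ⟨fun x hx => ⟨h.le' (h.le hx), iff_of_true (h.le hx) (h₀.le hx)⟩, fun x hx => hx.1, ?_,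
    ?_⟩
  · intro h1
    apply hne
    ext x
    constructor
    · intro h2
      have h3 : x ∈ hyperThird h h₀ := by
        rw [h1]
        exact h.le' h2
      exact h3.2.1 h2
    · intro h2
      have h3 : x ∈ hyperThird h h₀ := by
        rw [h1]
        exact h₀.le' h2
      exact h3.2.2 h2
  · intro x hx y hy hx' hy'
    have h1 : ¬ (x ∈ H ↔ x ∈ H₀) := fun h2 => hx' ⟨hx, h2⟩
    have h2 : ¬ (y ∈ H ↔ y ∈ H₀) := fun h2 => hy' ⟨hy, h2⟩
    refine ⟨N'.add_mem hx hy, ?_⟩
    by_cases a : x ∈ H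
    · have a' : x ∉ H₀ := fun h3 => h1 (iff_of_true a h3)
      rw [H.add_mem_cancel_left a]
      by_cases b : y ∈ H
      · have b' : y ∉ H₀ := fun h3 => h2 (iff_of_true b h3)
        exact iff_of_true b (h₀.index x hx y hy a' b')
      · have b' : y ∈ H₀ := by
          by_contra h3
          exact h2 (iff_of_false b h3)
        rw [H₀.add_mem_cancel_right b']
        exact iff_of_false b a'
    · have a' : x ∈ H₀ := by
        by_contra h3
        exact h1 (iff_of_false a h3)
      rw [H₀.add_mem_cancel_left a']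
      by_cases b : y ∈ H
      · have b' : y ∉ H₀ := fun h3 => h2 (iff_of_true b h3)
        rw [H.add_mem_cancel_right b]
        exact iff_of_false a b'
      · have b' : y ∈ H₀ := by
          by_contra h3
          exact h2 (iff_of_false b h3)
        exact iff_of_true (h.index x hx y hy a b) b'

theorem Hyper.exists_not_mem {N N' H : AddSubgroup X} (h : Hyper N N' H) : ∃ x ∈ N', x ∉ H := by
  by_contra hne
  apply h.ne
  refine le_antisymm h.le' fun x hx => ?_
  by_contra h1
  exact hne ⟨x, hx, h1⟩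

theorem hyper_finite (N N' : AddSubgroup X) [Finite N'] : {H | Hyper N N' H}.Finite := by
  have h1 : {s : Set X | s ⊆ (N' : Set X)}.Finite :=
    (Set.toFinite (N' : Set X)).finite_subsets
  refine (h1.preimage (f := fun H : AddSubgroup X => (H : Set X))
    SetLike.coe_injective.injOn).subset fun H hH => ?_
  exact hH.le'

/-- The number of the subgroups of index `2` is odd. -/
theorem hyper_odd (N N' : AddSubgroup X) [Finite N'] (h₀ : ∃ H₀, Hyper N N' H₀) :
    Odd (Nat.card {H // Hyper N N' H}) := by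
  classical
  obtain ⟨H₀, h₀⟩ := h₀
  have hfin := hyper_finite N N'
  let s : Finset (AddSubgroup X) := hfin.toFinset
  have hs : ∀ H, H ∈ s ↔ Hyper N N' H := fun H => by
    show H ∈ hfin.toFinset ↔ _
    rw [Set.Finite.mem_toFinset]
    exact Iff.rfl
  have h1 : Nat.card {H // Hyper N N' H} = s.card := by
    have h2 : Nat.card {H // Hyper N N' H} = Nat.card s :=
      Nat.card_congr (Equiv.subtypeEquivRight fun H => (hs H).symm)
    rw [h2]
    simp
  have h2 : (s.erase H₀).card + 1 = s.card := Finset.card_erase_add_one ((hs H₀).2 h₀)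
  rw [h1, ← h2]
  refine Even.add_one ?_
  let g : AddSubgroup X → AddSubgroup X := fun H =>
    if h : Hyper N N' H then hyperThird h h₀ else H
  have hg : ∀ H (h : Hyper N N' H), g H = hyperThird h h₀ := fun H h => dif_pos h
  refine v8_even_inv _ g ?_ ?_ ?_
  · intro H hH
    obtain ⟨hne, h⟩ := Finset.mem_erase.1 hH
    rw [hs] at h
    rw [hg H h]
    refine Finset.mem_erase.2 ⟨?_, (hs _).2 (hyperThird_hyper h h₀ hne)⟩
    intro h3
    obtain ⟨x, hx, hxH⟩ := h.exists_not_mem
    by_cases h4 : x ∈ H₀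
    · rw [← h3] at h4
      have h5 := h4.2
      rw [h3] at h4
      exact hxH (h5.2 h4)
    · have h5 : x ∈ hyperThird h h₀ := ⟨hx, iff_of_false hxH h4⟩
      rw [h3] at h5
      exact h4 h5
  · intro H hH
    obtain ⟨hne, h⟩ := Finset.mem_erase.1 hH
    rw [hs] at h
    rw [hg H h, hg _ (hyperThird_hyper h h₀ hne)]
    ext x
    rw [mem_hyperThird, mem_hyperThird]
    constructor
    · rintro ⟨hx, h3⟩
      by_cases h4 : x ∈ H₀
      · exact (h3.2 h4).2.2 h4
      · by_contra h5
        exact h4 (h3.1 ⟨hx, iff_of_false h5 h4⟩)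
    · intro h3
      refine ⟨h.le' h3, ?_⟩
      constructor
      · rintro ⟨-, h4⟩
        exact h4.1 h3
      · intro h4
        exact ⟨h.le' h3, iff_of_true h3 h4⟩
  · intro H hH h3
    obtain ⟨hne, h⟩ := Finset.mem_erase.1 hH
    rw [hs] at h
    rw [hg H h] at h3
    obtain ⟨x, hx, hxH⟩ := h₀.exists_not_mem
    by_cases h4 : x ∈ H
    · rw [← h3] at h4
      have h5 := h4.2
      rw [h3] at h4
      exact hxH (h5.1 h4)
    · apply h4
      rw [← h3]
      exact ⟨hx, iff_of_false h4 hxH⟩

end hyper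

end Pool.Agent.H.MP_ac3185_nt
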