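import Pool.Agent.H.MP_ac3185_nt.V8.Defs
import Pool.Agent.H.MP_ac3185_nt.V8.Hyper
import Pool.Agent.H.MP_ac3185_nt.V.Norm
import Pool.Agent.H.MP_ac3185_nt.V2.Par
import Pool.Agent.H.MP_ac3185_nt.W.Cx

/-! The points of order `2` of an abelian variety: a composition series with the fields of the
stabilizers. -/

set_option autoImplicit false

open CategoryTheory AlgebraicGeometry NumberField IsDedekindDomain
open scoped MonObj

namespace Pool.Agent.H.MP_ac3185_nt

universe u

variable {K : Type u} [Field K] [NumberField K]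

omit [NumberField K] in
/-- A finite extension over which the points of a finite set are defined. -/
theorem v8l_finite (A : Over (Spec (.of K))) [GrpObj A] [IsAbVar A]
    {Z : Set (Pts A (AlgebraicClosure K))} (hZ : Z.Finite) :
    ∃ E : IntermediateField K (AlgebraicClosure K), FiniteDimensional K E ∧
      ∀ s ∈ E.fixingSubgroup, ∀ x ∈ Z, act A s x = x := by
  induction Z, hZ using Set.Finite.induction_on with
  | empty => exact ⟨⊥, inferInstance, fun s _ x hx => absurd hx (Set.notMem_empty x)⟩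
  | @insert a Z _ _ ih =>
    obtain ⟨E, hE, h⟩ := ih
    obtain ⟨E', hE', h'⟩ := vf_finite A a
    refine ⟨E ⊔ E', IntermediateField.finiteDimensional_sup E E', fun s hs x hx => ?_⟩
    rw [IntermediateField.fixingSubgroup_sup] at hs
    rcases hx with rfl | hx
    · exact h' s hs.2
    · exact h s hs.1 x hx

/-- The stabilizer of a subgroup of `A(Kbar)`. -/
noncomputable def v8lStab (A : Over (Spec (.of K))) [GrpObj A] [IsAbVar A]
    (H : AddSubgroup (Pts A (AlgebraicClosure K))) :
    Subgroup (AlgebraicClosure K ≃ₐ[K] AlgebraicClosure K) where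
  carrier := {s | ∀ x, act A s x ∈ H ↔ x ∈ H}
  one_mem' := fun x => by rw [v2s_act_one]
  mul_mem' := by
    intro s t hs ht x
    rw [v2s_act_mul, hs, ht]
  inv_mem' := by
    intro s hs x
    rw [← hs, ← v2s_act_mul, mul_inv_cancel, v2s_act_one]

theorem v8l_field (A : Over (Spec (.of K))) [GrpObj A] [IsAbVar A]
    (H : AddSubgroup (Pts A (AlgebraicClosure K)))
    (hH : (H : Set (Pts A (AlgebraicClosure K))).Finite) :
    ∃ F : IntermediateField K (AlgebraicClosure K), FiniteDimensional K F ∧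
      ∀ s, s ∈ F.fixingSubgroup ↔ ∀ x, act A s x ∈ H ↔ x ∈ H := by
  have hgal : IsGalois K (AlgebraicClosure K) := inferInstance
  obtain ⟨E, hE, h⟩ := v8l_finite A hH
  have hle : E.fixingSubgroup ≤ v8lStab A H := by
    intro s hs x
    constructor
    · intro hx
      have h1 := h s⁻¹ (inv_mem hs) _ hx
      rw [← v2s_act_mul, inv_mul_cancel, v2s_act_one] at h1
      rw [h1]
      exact hx
    · intro hx
      rw [h s hs x hx]
      exact hx
  have hopen : IsOpen (v8lStab A H : Set (AlgebraicClosure K ≃ₐ[K] AlgebraicClosure K)) :=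
    Subgroup.isOpen_mono hle (IntermediateField.fixingSubgroup_isOpen E)
  let C : ClosedSubgroup (AlgebraicClosure K ≃ₐ[K] AlgebraicClosure K) :=
    ⟨v8lStab A H, Subgroup.isClosed_of_isOpen _ hopen⟩
  have h2 : (IntermediateField.fixedField (v8lStab A H)).fixingSubgroup = v8lStab A H :=
    InfiniteGalois.fixingSubgroup_fixedField C
  have h3 : IntermediateField.fixedField (v8lStab A H) ≤ E := by
    rw [← InfiniteGalois.fixedField_fixingSubgroup E]
    exact IntermediateField.fixedField_antitone hle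
  refine ⟨IntermediateField.fixedField (v8lStab A H), ?_, fun s => ?_⟩
  · exact FiniteDimensional.of_injective (IntermediateField.inclusion h3).toLinearMap
      (IntermediateField.inclusion_injective h3)
  · rw [h2]
    exact Iff.rfl

/-- The Galois group acts on the subgroups of index `2` of `N'` which contain `N`. -/
@[reducible]
noncomputable def hyperAct (A : Over (Spec (.of K))) [GrpObj A] [IsAbVar A]
    {N N' : AddSubgroup (Pts A (AlgebraicClosure K))} (hN : ∀ s, ∀ x ∈ N, act A s x ∈ N)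
    (hN' : ∀ s, ∀ x ∈ N', act A s x ∈ N') :
    MulAction (AlgebraicClosure K ≃ₐ[K] AlgebraicClosure K) {H // Hyper N N' H} where
  smul s H := ⟨H.1.comap (galHom A s⁻¹), by
    have hinv : ∀ y : Pts A (AlgebraicClosure K), act A s (act A s⁻¹ y) = y := fun y => by
      rw [← v2s_act_mul, mul_inv_cancel, v2s_act_one]
    have hinv' : ∀ y : Pts A (AlgebraicClosure K), act A s⁻¹ (act A s y) = y := fun y => by
      rw [← v2s_act_mul, inv_mul_cancel, v2s_act_one]
    refine ⟨fun x hx => H.2.le (hN s⁻¹ x hx), fun x hx => ?_, fun h => ?_, fun x hx y hy hx' hy' => ?_⟩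
    · have h1 : act A s⁻¹ x ∈ H.1 := hx
      have h2 := hN' s _ (H.2.le' h1)
      rwa [hinv] at h2
    · obtain ⟨x, hx, hxH⟩ := H.2.exists_not_mem
      apply hxH
      have h1 : act A s x ∈ H.1.comap (galHom A s⁻¹) := by
        rw [h]
        exact hN' s x hx
      have h2 : act A s⁻¹ (act A s x) ∈ H.1 := h1
      rwa [hinv'] at h2
    · have h1 := H.2.index _ (hN' s⁻¹ x hx) _ (hN' s⁻¹ y hy) hx' hy'
      rw [← v8_act_add] at h1
      exact h1⟩
  one_smul H := by
    apply Subtype.ext
    ext x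
    show act A 1⁻¹ x ∈ H.1 ↔ x ∈ H.1
    rw [inv_one, v2s_act_one]
  mul_smul s t H := by
    apply Subtype.ext
    ext x
    show act A (s * t)⁻¹ x ∈ H.1 ↔ act A t⁻¹ (act A s⁻¹ x) ∈ H.1
    rw [mul_inv_rev, v2s_act_mul]

/-- `ModFrame F N N' H`, where `N' / N` is a simple Galois module, `H` is a subgroup of index `2` of `N'`,
and `F` is the field fixed by the stabilizer of `H`, of odd degree over `K`. -/
structure SimpleFrame (F : IntermediateField K (AlgebraicClosure K))
    {A : Over (Spec (.of K))} [GrpObj A] [IsAbVar A]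
    (N N' H : AddSubgroup (Pts A (AlgebraicClosure K))) : Prop extends ModFrame F N N' H where
  odd : Odd (Module.finrank K F)
  lt : N < N'
  ne : H ≠ N'
  simple : ∀ M : AddSubgroup (Pts A (AlgebraicClosure K)), N ≤ M → M ≤ N' →
    (∀ s, ∀ x ∈ M, act A s x ∈ M) → M = N ∨ M = N'
  stabF : ∀ s, (∀ x, act A s x ∈ H ↔ x ∈ H) → s ∈ F.fixingSubgroup

/-- The next layer above `N`. -/
theorem v8_next (A : Over (Spec (.of K))) [GrpObj A] [IsAbVar A]
    (N : AddSubgroup (Pts A (AlgebraicClosure K))) (hN : ∀ s, ∀ x ∈ N, act A s x ∈ N)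
    (h2 : ∀ x ∈ N, 2 • x = 0) (hne : ∃ x : Pts A (AlgebraicClosure K), 2 • x = 0 ∧ x ∉ N) :
    ∃ (N' H : AddSubgroup (Pts A (AlgebraicClosure K)))
      (F : IntermediateField K (AlgebraicClosure K)), (∀ x ∈ N', 2 • x = 0) ∧
      FiniteDimensional K F ∧ SimpleFrame F N N' H := by
  have hfin : {x : Pts A (AlgebraicClosure K) | 2 • x = 0}.Finite := gc_torsion A 2 two_ne_zero
  have hfinM : ∀ M : AddSubgroup (Pts A (AlgebraicClosure K)), (∀ x ∈ M, 2 • x = 0) →
      Finite M := fun M hM => (hfin.subset hM).to_subtype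
  -- the group `A[2]`
  let A2 : AddSubgroup (Pts A (AlgebraicClosure K)) :=
    { carrier := {x | 2 • x = 0}
      zero_mem' := smul_zero 2
      add_mem' := fun {x y} hx hy => by
        show 2 • (x + y) = 0
        rw [smul_add, hx, hy, add_zero]
      neg_mem' := fun {x} hx => by
        show 2 • (-x) = 0
        rw [smul_neg, hx, neg_zero] }
  have hA2 : ∀ s, ∀ x ∈ A2, act A s x ∈ A2 := by
    intro s x hx
    show 2 • galHom A s x = 0
    have hx' : 2 • x = 0 := hx
    rw [← map_nsmul, hx', map_zero]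
  -- a minimal stable subgroup above `N`
  let P : Set (AddSubgroup (Pts A (AlgebraicClosure K))) :=
    {M | N < M ∧ (∀ x ∈ M, 2 • x = 0) ∧ ∀ s, ∀ x ∈ M, act A s x ∈ M}
  have hP : P.Nonempty := by
    refine ⟨A2, ?_, fun x hx => hx, hA2⟩
    refine lt_of_le_of_ne (fun x hx => h2 x hx) ?_
    rintro rfl
    obtain ⟨x, hx, hx'⟩ := hne
    exact hx' hx
  obtain ⟨N', ⟨hlt, hN'2, hN's⟩, hmin⟩ :=
    (measure fun M : AddSubgroup (Pts A (AlgebraicClosure K)) => Nat.card M).wf.has_min P hP
  have hN'f : Finite N' := hfinM N' hN'2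
  have hmin' : ∀ M ∈ P, M ≤ N' → M = N' := by
    intro M hM hle
    refine AddSubgroup.eq_of_le_of_card_ge hle ?_
    exact not_lt.1 (hmin M hM)
  obtain ⟨x0, hx0, hx0N⟩ := SetLike.exists_of_lt hlt
  -- a maximal subgroup which does not contain `x0`
  let Q : Set (AddSubgroup (Pts A (AlgebraicClosure K))) := {M | N ≤ M ∧ M ≤ N' ∧ x0 ∉ M}
  obtain ⟨H0, ⟨hNH, hHN', hx0H⟩, hmax⟩ :=
    (measure fun M : AddSubgroup (Pts A (AlgebraicClosure K)) =>
      Nat.card N' - Nat.card M).wf.has_min Q ⟨N, le_refl N, hlt.le, hx0N⟩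
  have hmax' : ∀ M ∈ Q, H0 ≤ M → H0 = M := by
    intro M hM hle
    have hMf : Finite M := hfinM M fun x hx => hN'2 x (hM.2.1 hx)
    refine AddSubgroup.eq_of_le_of_card_ge hle ?_
    have h3 : ¬ (Nat.card N' - Nat.card M < Nat.card N' - Nat.card H0) := hmax M hM
    have h4 : Nat.card M ≤ Nat.card N' := AddSubgroup.card_le_of_le hM.2.1
    have h5 : Nat.card H0 ≤ Nat.card N' := AddSubgroup.card_le_of_le hHN'
    omega
  have hrep : ∀ y ∈ N', y ∉ H0 → ∃ h ∈ H0, x0 = h + y := by
    intro y hy hyH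
    have h3 : x0 ∈ H0 ⊔ AddSubgroup.zmultiples y := by
      by_contra h4
      have h5 := hmax' (H0 ⊔ AddSubgroup.zmultiples y) ⟨hNH.trans le_sup_left,
        sup_le hHN' (AddSubgroup.zmultiples_le_of_mem hy), h4⟩ le_sup_left
      apply hyH
      rw [h5]
      exact AddSubgroup.mem_sup_right (AddSubgroup.mem_zmultiples y)
    obtain ⟨h, hh, z, hz, h4⟩ := AddSubgroup.mem_sup.1 h3
    obtain ⟨k, rfl⟩ := AddSubgroup.mem_zmultiples_iff.1 hz
    have hy2 : y + y = 0 := by
      rw [← two_nsmul]
      exact hN'2 y hy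
    rcases Int.even_or_odd k with ⟨j, rfl⟩ | ⟨j, rfl⟩
    · exfalso
      rw [add_smul, ← smul_add, hy2, smul_zero, add_zero] at h4
      exact hx0H (h4 ▸ hh)
    · refine ⟨h, hh, ?_⟩
      rw [add_smul, one_smul, two_mul, add_smul, ← smul_add, hy2, smul_zero, zero_add] at h4
      exact h4.symm
  -- a subgroup of index `2`, with an orbit of odd length
  have hH0 : Hyper N N' H0 := by
    refine ⟨hNH, hHN', ?_, ?_⟩
    · rintro rfl
      exact hx0H hx0
    · intro x hx y hy hxH hyH
      obtain ⟨h, hh, h3⟩ := hrep x hx hxH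
      obtain ⟨h', hh', h4⟩ := hrep y hy hyH
      have h5 : x + y = -(h + h') := by
        have h6 : x0 + x0 = 0 := by
          rw [← two_nsmul]
          exact hN'2 x0 hx0
        have h7 : (h + x) + (h' + y) = 0 := by
          rw [← h3, ← h4, h6]
        rw [eq_neg_iff_add_eq_zero, ← h7]
        abel
      rw [h5]
      exact H0.neg_mem (H0.add_mem hh hh')
  let _ := hyperAct A hN hN's
  have hfinH : Finite {H // Hyper N N' H} := (hyper_finite N N').to_subtype
  obtain ⟨⟨H, hH⟩, hodd⟩ := v8_odd_orbit (G := AlgebraicClosure K ≃ₐ[K] AlgebraicClosure K)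
    (hyper_odd N N' ⟨H0, hH0⟩)
  obtain ⟨F, hF, hFs⟩ := v8l_field A H
    (hfin.subset fun x hx => hN'2 x (hH.le' hx))
  have hst : MulAction.stabilizer (AlgebraicClosure K ≃ₐ[K] AlgebraicClosure K)
      (⟨H, hH⟩ : {H // Hyper N N' H}) = F.fixingSubgroup := by
    ext s
    rw [MulAction.mem_stabilizer_iff]
    have h3 : s ∈ F.fixingSubgroup ↔ s⁻¹ ∈ F.fixingSubgroup := inv_mem_iff.symm
    rw [h3, hFs]
    constructor
    · intro h4 x
      have h5 : H.comap (galHom A s⁻¹) = H := congrArg Subtype.val h4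
      have h6 : x ∈ H.comap (galHom A s⁻¹) ↔ x ∈ H := by rw [h5]
      exact h6
    · intro h4
      apply Subtype.ext
      ext x
      exact h4 x
  have hFodd : Odd (Module.finrank K F) := by
    rw [← vn_index, ← hst]
    exact hodd
  refine ⟨N', H, F, hN'2, hF, ⟨⟨hN, hN's, hH.le, hH.le', hH.index,
    fun s hs x hx => ((hFs s).1 hs x).2 hx, ?_, ?_⟩, hFodd, hlt, hH.ne, ?_,
    fun s hs => (hFs s).2 hs⟩⟩
  · -- the intersection of the conjugates
    let M : AddSubgroup (Pts A (AlgebraicClosure K)) :=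
      { carrier := {x | x ∈ N' ∧ ∀ g, act A g x ∈ H}
        zero_mem' := ⟨N'.zero_mem, fun g => by
          rw [v2s_act_zero]
          exact H.zero_mem⟩
        add_mem' := fun {x y} hx hy => ⟨N'.add_mem hx.1 hy.1, fun g => by
          rw [v8_act_add]
          exact H.add_mem (hx.2 g) (hy.2 g)⟩
        neg_mem' := fun {x} hx => ⟨N'.neg_mem hx.1, fun g => by
          rw [v2s_act_neg]
          exact H.neg_mem (hx.2 g)⟩ }
    have hNM : N ≤ M := fun x hx => ⟨hlt.le hx, fun g => hH.le (hN g x hx)⟩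
    have hMN' : M ≤ N' := fun x hx => hx.1
    intro x hx hxH
    by_contra hxN
    have h3 : M ∈ P := by
      refine ⟨lt_of_le_of_ne hNM ?_, fun y hy => hN'2 y hy.1, fun s y hy => ⟨hN's s y hy.1,
        fun g => ?_⟩⟩
      · intro h4
        apply hxN
        rw [h4]
        exact ⟨hx, hxH⟩
      · rw [← v2s_act_mul]
        exact hy.2 (g * s)
    have h4 : M = N' := hmin' M h3 hMN'
    obtain ⟨y0, hy0, hy0H⟩ := hH.exists_not_mem
    have h5 : y0 ∈ M := by
      rw [h4]
      exact hy0
    have h6 := h5.2 1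
    rw [v2s_act_one] at h6
    exact hy0H h6
  · intro s hs
    rw [hFs]
    intro x
    have key : ∀ y ∈ N', (act A s y ∈ H ↔ y ∈ H) := by
      intro y hy
      have h3 := hs y hy
      constructor
      · intro h4
        have h5 := H.sub_mem h4 (hH.le h3)
        rwa [sub_sub_cancel] at h5
      · intro h4
        have h5 := H.add_mem (hH.le h3) h4
        rwa [sub_add_cancel] at h5
    constructor
    · intro h3
      have h4 : x ∈ N' := by
        have h5 := hN's s⁻¹ _ (hH.le' h3)
        rwa [← v2s_act_mul, inv_mul_cancel, v2s_act_one] at h5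
      exact (key x h4).1 h3
    · intro h3
      exact (key x (hH.le' h3)).2 h3
  · intro M hNM hMN' hMs
    by_cases h : M = N
    · exact Or.inl h
    · exact Or.inr (hmin' M ⟨lt_of_le_of_ne hNM (Ne.symm h), fun x hx => hN'2 x (hMN' hx), hMs⟩
        hMN')

/-- A composition series of the group of the points killed by `2`, with its data. -/
theorem v8_layers (A : Over (Spec (.of K))) [GrpObj A] [IsAbVar A] :
    ∃ (r : ℕ) (N H : ℕ → AddSubgroup (Pts A (AlgebraicClosure K)))
      (F : ℕ → IntermediateField K (AlgebraicClosure K)), N 0 = ⊥ ∧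
      (∀ x, x ∈ N r ↔ 2 • x = 0) ∧ (∀ i, ∀ x ∈ N i, 2 • x = 0) ∧
      (∀ i, FiniteDimensional K (F i)) ∧
      ∀ i < r, SimpleFrame (F i) (N i) (N (i + 1)) (H i) := by
  classical
  have hfin : {x : Pts A (AlgebraicClosure K) | 2 • x = 0}.Finite := gc_torsion A 2 two_ne_zero
  -- by induction on the number of the missing points
  have key : ∀ (n : ℕ) (M : AddSubgroup (Pts A (AlgebraicClosure K))),
      (∀ s, ∀ x ∈ M, act A s x ∈ M) → (∀ x ∈ M, 2 • x = 0) →
      {x : Pts A (AlgebraicClosure K) | 2 • x = 0 ∧ x ∉ M}.ncard = n →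
      ∃ (r : ℕ) (N H : ℕ → AddSubgroup (Pts A (AlgebraicClosure K)))
        (F : ℕ → IntermediateField K (AlgebraicClosure K)), N 0 = M ∧
        (∀ x, x ∈ N r ↔ 2 • x = 0) ∧ (∀ i, ∀ x ∈ N i, 2 • x = 0) ∧
        (∀ i, FiniteDimensional K (F i)) ∧
        ∀ i < r, SimpleFrame (F i) (N i) (N (i + 1)) (H i) := by
    intro n
    induction n using Nat.strong_induction_on with
    | _ n ih =>
      intro M hM hM2 hn
      by_cases hne : ∃ x : Pts A (AlgebraicClosure K), 2 • x = 0 ∧ x ∉ M
      · obtain ⟨N', H, F, hN'2, hF, hfr⟩ := v8_next A M hM hM2 hne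
        have hlt := hfr.lt
        have hlt' : {x : Pts A (AlgebraicClosure K) | 2 • x = 0 ∧ x ∉ N'}.ncard < n := by
          rw [← hn]
          refine Set.ncard_lt_ncard ⟨fun x hx => ⟨hx.1, fun h => hx.2 (hlt.le h)⟩, ?_⟩
            (hfin.subset fun x hx => hx.1)
          intro h
          obtain ⟨x, hx, hx'⟩ := SetLike.exists_of_lt hlt
          exact (h ⟨hN'2 x hx, hx'⟩).2 hx
        obtain ⟨r, N1, H1, F1, h0, hr, h12, h1F, hi⟩ := ih _ hlt' N' hfr.stabN' hN'2 rfl
        refine ⟨r + 1, fun i => Nat.casesOn i M N1, fun i => Nat.casesOn i H H1,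
          fun i => Nat.casesOn i F F1, rfl, hr, ?_, ?_, ?_⟩
        · intro i
          cases i with
          | zero => exact hM2
          | succ i => exact h12 i
        · intro i
          cases i with
          | zero => exact hF
          | succ i => exact h1F i
        · intro i hir
          cases i with
          | zero =>
            show SimpleFrame F M (N1 0) H
            rw [h0]
            exact hfr
          | succ i => exact hi i (by omega)
      · refine ⟨0, fun _ => M, fun _ => M, fun _ => ⊥, rfl, fun x => ⟨hM2 x, fun hx => ?_⟩,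
          fun _ => hM2, fun _ => inferInstance, fun i hi => absurd hi (Nat.not_lt_zero i)⟩
        by_contra h
        exact hne ⟨x, hx, h⟩
  exact key _ ⊥ (fun s x hx => by
    rw [AddSubgroup.mem_bot] at hx ⊢
    rw [hx, v2s_act_zero]) (fun x hx => by
    rw [AddSubgroup.mem_bot] at hx
    rw [hx, smul_zero]) rfl

end Pool.Agent.H.MP_ac3185_nt
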