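import Pool.Agent.H.MP_ac3185_nt.V8.FinCl

/-! The number of the square classes of the elements of a number field with even valuations:
`|Cl[2]| 2 ^ (r₁ + r₂)`. -/

set_option autoImplicit false

open NumberField IsDedekindDomain UniqueFactorizationMonoid
open scoped nonZeroDivisors

namespace Pool.Agent.H.MP_ac3185_nt

universe u

section group

/-- The index of the subgroup of the squares of `ℤ ^ r`. -/
theorem sc_free (r : ℕ) :
    (powMonoidHom 2 : Multiplicative (Fin r → ℤ) →* Multiplicative (Fin r → ℤ)).range.index =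
      2 ^ r := by
  let g : Multiplicative (Fin r → ℤ) →* Multiplicative (Fin r → ZMod 2) :=
    AddMonoidHom.toMultiplicative
      { toFun := fun f i => ((f i : ℤ) : ZMod 2)
        map_zero' := by
          funext i
          simp
        map_add' := fun f f' => by
          funext i
          simp }
  have hg : Function.Surjective g := by
    intro z
    choose w hw using fun i => ZMod.intCast_surjective (Multiplicative.toAdd z i)
    exact ⟨Multiplicative.ofAdd w, congrArg Multiplicative.ofAdd (funext hw)⟩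
  have hker : (powMonoidHom 2 : Multiplicative (Fin r → ℤ) →* _).range = g.ker := by
    ext f
    rw [MonoidHom.mem_ker]
    constructor
    · rintro ⟨h, rfl⟩
      refine congrArg Multiplicative.ofAdd (funext fun i => ?_)
      show (((2 • Multiplicative.toAdd h) i : ℤ) : ZMod 2) = 0
      rw [Pi.smul_apply, nsmul_eq_mul]
      push_cast
      have h2 : (2 : ZMod 2) = 0 := rfl
      rw [h2, zero_mul]
    · intro h
      have h1 : ∀ i, ∃ k, Multiplicative.toAdd f i = 2 * k := by
        intro i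
        have h2 : ((Multiplicative.toAdd f i : ℤ) : ZMod 2) = 0 :=
          congrFun (congrArg Multiplicative.toAdd h) i
        exact (ZMod.intCast_zmod_eq_zero_iff_dvd _ 2).1 h2
      choose k hk using h1
      refine ⟨Multiplicative.ofAdd k, ?_⟩
      refine congrArg Multiplicative.ofAdd (funext fun i => ?_)
      show (2 • k) i = Multiplicative.toAdd f i
      rw [hk, Pi.smul_apply, nsmul_eq_mul]
      rfl
  rw [hker, Subgroup.index_ker, MonoidHom.range_eq_top.2 hg, Subgroup.card_top]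
  show Nat.card (Fin r → ZMod 2) = 2 ^ r
  rw [Nat.card_fun, Nat.card_zmod, Nat.card_fin]

end group

section field

variable (M : Type u) [Field M] [NumberField M]

/-- The index of the subgroup of the squares of units. -/
theorem sc_units : (powMonoidHom 2 : (𝓞 M)ˣ →* (𝓞 M)ˣ).range.index =
    2 ^ Nat.card (InfinitePlace M) := by
  classical
  let Ψ : Units.torsion M × Multiplicative (Fin (Units.rank M) → ℤ) →* (𝓞 M)ˣ :=
    { toFun := fun p => p.1 * ∏ i, (Units.fundSystem M i) ^ (Multiplicative.toAdd p.2 i)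
      map_one' := by simp
      map_mul' := fun p q => by
        have h1 : ∀ i, (Units.fundSystem M i) ^ (Multiplicative.toAdd (p * q).2 i) =
            (Units.fundSystem M i) ^ (Multiplicative.toAdd p.2 i) *
              (Units.fundSystem M i) ^ (Multiplicative.toAdd q.2 i) := fun i => by
          rw [← zpow_add]
          rfl
        rw [Finset.prod_congr rfl fun i _ => h1 i, Finset.prod_mul_distrib]
        show ((p.1 * q.1 : Units.torsion M) : (𝓞 M)ˣ) * _ = _
        rw [Subgroup.coe_mul]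
        exact mul_mul_mul_comm _ _ _ _ }
  have hinj : Function.Injective Ψ := by
    intro p q h
    have h1 := (Units.exist_unique_eq_mul_prod M (Ψ p)).unique
      (y₁ := (p.1, Multiplicative.toAdd p.2)) (y₂ := (q.1, Multiplicative.toAdd q.2)) rfl h
    exact h1
  have hsurj : Function.Surjective Ψ := by
    intro x
    obtain ⟨ζe, h, -⟩ := Units.exist_unique_eq_mul_prod M x
    exact ⟨(ζe.1, Multiplicative.ofAdd ζe.2), h.symm⟩
  have hcomap : (powMonoidHom 2 : (𝓞 M)ˣ →* (𝓞 M)ˣ).range.comap Ψ =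
      ((powMonoidHom 2 : Units.torsion M →* Units.torsion M).range).prod
        ((powMonoidHom 2 : Multiplicative (Fin (Units.rank M) → ℤ) →* _).range) := by
    ext p
    rw [Subgroup.mem_comap, Subgroup.mem_prod]
    constructor
    · rintro ⟨y, hy⟩
      obtain ⟨q, rfl⟩ := hsurj y
      have h1 : q ^ 2 = p := hinj (by rw [map_pow]; exact hy)
      rw [← h1]
      exact ⟨⟨q.1, rfl⟩, ⟨q.2, rfl⟩⟩
    · rintro ⟨⟨a, ha⟩, ⟨b, hb⟩⟩
      refine ⟨Ψ (a, b), ?_⟩
      show Ψ (a, b) ^ 2 = Ψ p
      rw [← map_pow]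
      congr 1
      exact Prod.ext ha hb
  rw [← Subgroup.index_comap_of_surjective _ hsurj, hcomap, Subgroup.index_prod, sc_free,
    IsCyclic.index_powMonoidHom_range]
  have h1 : (Nat.card (Units.torsion M)).gcd 2 = 2 :=
    Nat.gcd_eq_right (even_iff_two_dvd.1 (Units.even_torsionOrder M))
  have h2 : Units.rank M + 1 = Nat.card (InfinitePlace M) := by
    have h3 : 0 < Fintype.card (InfinitePlace M) := Fintype.card_pos
    have h4 : Units.rank M = Fintype.card (InfinitePlace M) - 1 := rfl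
    rw [Nat.card_eq_fintype_card]
    omega
  rw [h1, ← h2, pow_succ, mul_comm]

/-- The elements all of whose valuations are even. -/
noncomputable def selU : Subgroup Mˣ where
  carrier := {x | ∀ w : HeightOneSpectrum (𝓞 M), Even (vOrd w (x : M))}
  one_mem' := by
    intro w
    rw [Units.val_one, vOrd_one]
    exact Even.zero
  mul_mem' := by
    intro x y hx hy w
    rw [Units.val_mul, vOrd_mul w x.ne_zero y.ne_zero]
    exact (hx w).add (hy w)
  inv_mem' := by
    intro x hx w
    rw [Units.val_inv_eq_inv_val, vOrd_inv]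
    exact (hx w).neg

/-- The squares. -/
def sqU : Subgroup Mˣ := (powMonoidHom 2 : Mˣ →* Mˣ).range

variable {M}

theorem mem_selU {x : Mˣ} : x ∈ selU M ↔ ∀ w : HeightOneSpectrum (𝓞 M), Even (vOrd w (x : M)) :=
  Iff.rfl

theorem mem_sqU {x : Mˣ} : x ∈ sqU M ↔ IsSquare x := by
  constructor
  · rintro ⟨y, hy⟩
    have h : y ^ 2 = x := hy
    exact ⟨y, by rw [← h, sq]⟩
  · rintro ⟨y, rfl⟩
    exact ⟨y, sq y⟩

/-- Ideals with the same square are equal. -/
theorem sc_ideal {I J : Ideal (𝓞 M)} (hI : I ≠ 0) (hJ : J ≠ 0) (h : I * I = J * J) : I = J := by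
  classical
  have h1 : normalizedFactors I = normalizedFactors J := by
    have h2 := congrArg normalizedFactors h
    rw [normalizedFactors_mul hI hI, normalizedFactors_mul hJ hJ] at h2
    ext P
    have h3 := congrArg (Multiset.count P) h2
    rw [Multiset.count_add, Multiset.count_add] at h3
    omega
  rw [← associated_iff_eq.1 (prod_normalizedFactors hI),
    ← associated_iff_eq.1 (prod_normalizedFactors hJ), h1]

/-- `x = c / y²` with `(c) = J²` and `J` in the class `κ`. -/
def ScRel (x : Mˣ) (κ : ClassGroup (𝓞 M)) : Prop :=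
  ∃ (c y : 𝓞 M) (J : (Ideal (𝓞 M))⁰), c ≠ 0 ∧ y ≠ 0 ∧ (x : M) * ((y : M) * y) = c ∧
    Ideal.span {c} = (J : Ideal (𝓞 M)) * J ∧ ClassGroup.mk0 J = κ

theorem sc_coe_ne {y : 𝓞 M} (hy : y ≠ 0) : (y : M) ≠ 0 := fun h => hy (RingOfIntegers.ext h)

theorem sc_exists {x : Mˣ} (hx : x ∈ selU M) : ∃ κ, ScRel x κ := by
  obtain ⟨z, y, hy, hzy⟩ := IsFractionRing.div_surjective (A := 𝓞 M) (x : M)
  have hy0 : y ≠ 0 := nonZeroDivisors.ne_zero hy
  have hz0 : z ≠ 0 := by
    rintro rfl
    exact x.ne_zero (by rw [← hzy, map_zero, zero_div])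
  have hyM := sc_coe_ne hy0
  have hzy' : (x : M) = (z : M) / (y : M) := hzy.symm
  have hco : (x : M) * ((y : M) * y) = ((z * y : 𝓞 M) : M) := by
    have : ((z * y : 𝓞 M) : M) = (z : M) * y := rfl
    rw [this, hzy']
    field_simp
  obtain ⟨J, hJ0, hJ⟩ := fincl_sqrt (mul_ne_zero hz0 hy0) (fun w => by
    rw [← hco, vOrd_mul w x.ne_zero (mul_ne_zero hyM hyM), vOrd_mul w hyM hyM]
    exact (hx w).add ⟨_, rfl⟩)
  exact ⟨_, z * y, y, ⟨J, mem_nonZeroDivisors_iff_ne_zero.2 hJ0⟩, mul_ne_zero hz0 hy0, hy0, hco,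
    hJ, rfl⟩

theorem sc_unique {x : Mˣ} {κ κ' : ClassGroup (𝓞 M)} (h : ScRel x κ) (h' : ScRel x κ') :
    κ = κ' := by
  obtain ⟨c, y, J, hc, hy, h1, h2, rfl⟩ := h
  obtain ⟨c', y', J', hc', hy', h1', h2', rfl⟩ := h'
  rw [ClassGroup.mk0_eq_mk0_iff]
  refine ⟨y', y, hy', hy, ?_⟩
  have hJ : (J : Ideal (𝓞 M)) ≠ 0 := nonZeroDivisors.ne_zero J.2
  have hJ' : (J' : Ideal (𝓞 M)) ≠ 0 := nonZeroDivisors.ne_zero J'.2
  have hs : ∀ {z : 𝓞 M}, z ≠ 0 → Ideal.span {z} ≠ 0 := fun hz => by
    rwa [Ne, Ideal.zero_eq_bot, Ideal.span_singleton_eq_bot]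
  apply sc_ideal (mul_ne_zero (hs hy') hJ) (mul_ne_zero (hs hy) hJ')
  have h3 : c * (y' * y') = c' * (y * y) := by
    apply RingOfIntegers.ext
    show (c : M) * ((y' : M) * y') = (c' : M) * ((y : M) * y)
    rw [← h1, ← h1']
    ring
  calc Ideal.span {y'} * (J : Ideal (𝓞 M)) * (Ideal.span {y'} * J) =
      (J * J) * (Ideal.span {y'} * Ideal.span {y'}) := by ring
    _ = Ideal.span {c * (y' * y')} := by
        rw [← h2, Ideal.span_singleton_mul_span_singleton, Ideal.span_singleton_mul_span_singleton]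
    _ = Ideal.span {c' * (y * y)} := by rw [h3]
    _ = (J' * J') * (Ideal.span {y} * Ideal.span {y}) := by
        rw [← h2', Ideal.span_singleton_mul_span_singleton, Ideal.span_singleton_mul_span_singleton]
    _ = _ := by ring

theorem sc_mul {x x' : Mˣ} {κ κ' : ClassGroup (𝓞 M)} (h : ScRel x κ) (h' : ScRel x' κ') :
    ScRel (x * x') (κ * κ') := by
  obtain ⟨c, y, J, hc, hy, h1, h2, rfl⟩ := h
  obtain ⟨c', y', J', hc', hy', h1', h2', rfl⟩ := h'
  refine ⟨c * c', y * y', J * J', mul_ne_zero hc hc', mul_ne_zero hy hy', ?_, ?_, map_mul _ _ _⟩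
  · show ((x * x' : Mˣ) : M) * (((y : M) * y') * ((y : M) * y')) = (c : M) * c'
    rw [← h1, ← h1', Units.val_mul]
    ring
  · rw [← Ideal.span_singleton_mul_span_singleton, h2, h2', Submonoid.coe_mul]
    ring

variable (M)

/-- The class of the square root of the ideal of an element with even valuations. -/
noncomputable def scHom : selU M →* ClassGroup (𝓞 M) where
  toFun x := (sc_exists x.2).choose
  map_one' := by
    have h : ScRel (1 : Mˣ) (1 : ClassGroup (𝓞 M)) :=
      ⟨1, 1, 1, one_ne_zero, one_ne_zero, by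
        rw [Units.val_one]
        show (1 : M) * ((1 : M) * 1) = 1
        ring, by
        rw [Ideal.span_singleton_one, Submonoid.coe_one, mul_one]
        exact Ideal.one_eq_top.symm, map_one _⟩
    exact sc_unique (sc_exists (1 : selU M).2).choose_spec h
  map_mul' x y := sc_unique (sc_exists (x * y).2).choose_spec
    (sc_mul (sc_exists x.2).choose_spec (sc_exists y.2).choose_spec)

variable {M}

theorem scHom_rel (x : selU M) : ScRel (x : Mˣ) (scHom M x) := (sc_exists x.2).choose_spec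

theorem scHom_eq {x : selU M} {κ : ClassGroup (𝓞 M)} (h : ScRel (x : Mˣ) κ) : scHom M x = κ :=
  sc_unique (scHom_rel x) h

/-- The image consists of the classes of order at most `2`. -/
theorem sc_range (κ : ClassGroup (𝓞 M)) : κ ∈ (scHom M).range ↔ κ * κ = 1 := by
  classical
  constructor
  · rintro ⟨x, rfl⟩
    obtain ⟨c, y, J, hc, hy, h1, h2, h3⟩ := scHom_rel x
    rw [← h3, ← map_mul, ClassGroup.mk0_eq_one_iff, Submonoid.coe_mul, ← h2]
    exact ⟨⟨c, rfl⟩⟩
  · intro h
    obtain ⟨J, rfl⟩ := ClassGroup.mk0_surjective κ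
    rw [← map_mul, ClassGroup.mk0_eq_one_iff] at h
    obtain ⟨c, hc⟩ := h
    have hJ : (J : Ideal (𝓞 M)) ≠ 0 := nonZeroDivisors.ne_zero J.2
    have hc' : Ideal.span {c} = (J : Ideal (𝓞 M)) * J := hc.symm
    have hc0 : c ≠ 0 := by
      rintro rfl
      rw [Ideal.span_singleton_eq_bot.2 rfl] at hc'
      exact mul_ne_zero hJ hJ hc'.symm
    have hsel : Units.mk0 (c : M) (sc_coe_ne hc0) ∈ selU M := by
      intro w
      rw [Units.val_mk0, vOrd_int w hc0, hc', normalizedFactors_mul hJ hJ, Multiset.count_add]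
      exact ⟨_, by push_cast; rfl⟩
    refine ⟨⟨_, hsel⟩, scHom_eq ⟨c, 1, J, hc0, one_ne_zero, ?_, hc', rfl⟩⟩
    show (c : M) * ((1 : M) * 1) = c
    ring

/-- The kernel consists of the products of units and squares. -/
theorem sc_ker : (scHom M).ker.map (selU M).subtype =
    ((⊤ : Subgroup (𝓞 M)ˣ).map (Units.map (algebraMap (𝓞 M) M).toMonoidHom)) ⊔ sqU M := by
  classical
  apply le_antisymm
  · rintro _ ⟨x, hx, rfl⟩
    obtain ⟨c, y, J, hc, hy, h1, h2, h3⟩ := scHom_rel x
    rw [MonoidHom.mem_ker.1 hx, ClassGroup.mk0_eq_one_iff] at h3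
    obtain ⟨z, hz⟩ := h3
    have hz' : (J : Ideal (𝓞 M)) = Ideal.span {z} := hz
    rw [hz', Ideal.span_singleton_mul_span_singleton] at h2
    obtain ⟨ε, hε⟩ := Ideal.span_singleton_eq_span_singleton.1 h2.symm
    have hz0 : z ≠ 0 := by
      rintro rfl
      rw [mul_zero, zero_mul] at hε
      exact hc hε.symm
    have hyM := sc_coe_ne hy
    have hzM := sc_coe_ne hz0
    rw [Subgroup.mem_sup]
    refine ⟨Units.map (algebraMap (𝓞 M) M).toMonoidHom ε, ⟨ε, Subgroup.mem_top ε, rfl⟩,
      (Units.mk0 ((z : M) / y) (div_ne_zero hzM hyM)) ^ 2, ⟨_, rfl⟩, ?_⟩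
    apply Units.ext
    show ((ε : 𝓞 M) : M) * (Units.mk0 ((z : M) / y) _ ^ 2 : Mˣ) = ((x : Mˣ) : M)
    rw [Units.val_pow_eq_pow_val, Units.val_mk0]
    have h4 : (z : M) * z * ((ε : 𝓞 M) : M) = (c : M) := congrArg (algebraMap (𝓞 M) M) hε
    rw [← h1] at h4
    field_simp
    linear_combination h4
  · rw [sup_le_iff]
    constructor
    · rintro _ ⟨ε, -, rfl⟩
      have hrel : ScRel (Units.map (algebraMap (𝓞 M) M).toMonoidHom ε) 1 :=
        ⟨ε, 1, 1, ε.ne_zero, one_ne_zero, by
          show ((ε : 𝓞 M) : M) * ((1 : M) * 1) = ((ε : 𝓞 M) : M)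
          ring, by
          rw [Ideal.span_singleton_eq_top.2 ε.isUnit, Submonoid.coe_one, mul_one]
          exact Ideal.one_eq_top.symm, map_one _⟩
      have hsel : Units.map (algebraMap (𝓞 M) M).toMonoidHom ε ∈ selU M := by
        intro w
        show Even (vOrd w ((ε : 𝓞 M) : M))
        rw [vOrd_unit w (x := (ε : 𝓞 M)) (fun h => w.isPrime.ne_top
          (Ideal.eq_top_of_isUnit_mem _ h ε.isUnit))]
        exact Even.zero
      exact ⟨⟨_, hsel⟩, MonoidHom.mem_ker.2 (scHom_eq hrel), rfl⟩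
    · rintro _ ⟨y, rfl⟩
      obtain ⟨a, b, hb, hab⟩ := IsFractionRing.div_surjective (A := 𝓞 M) (y : M)
      have hb0 : b ≠ 0 := nonZeroDivisors.ne_zero hb
      have ha0 : a ≠ 0 := by
        rintro rfl
        exact y.ne_zero (by rw [← hab, map_zero, zero_div])
      have hbM := sc_coe_ne hb0
      have hab' : (y : M) = (a : M) / (b : M) := hab.symm
      have hs : Ideal.span {a} ≠ 0 := by
        rwa [Ne, Ideal.zero_eq_bot, Ideal.span_singleton_eq_bot]
      have hrel : ScRel (y ^ 2) 1 :=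
        ⟨a * a, b, ⟨Ideal.span {a}, mem_nonZeroDivisors_iff_ne_zero.2 hs⟩, mul_ne_zero ha0 ha0, hb0,
          by
          show ((y ^ 2 : Mˣ) : M) * ((b : M) * b) = (a : M) * a
          rw [Units.val_pow_eq_pow_val, hab']
          field_simp, Ideal.span_singleton_mul_span_singleton a a |>.symm,
          (ClassGroup.mk0_eq_one_iff _).2 ⟨⟨a, rfl⟩⟩⟩
      have hsel : y ^ 2 ∈ selU M := by
        intro w
        rw [Units.val_pow_eq_pow_val, vOrd_pow]
        exact ⟨vOrd w (y : M), by push_cast; ring⟩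
      exact ⟨⟨_, hsel⟩, MonoidHom.mem_ker.2 (scHom_eq hrel), rfl⟩

variable (M)

/-- The number of the square classes of the elements with even valuations. -/
theorem sc_card : (sqU M).relIndex (selU M) =
    Nat.card {x : ClassGroup (𝓞 M) // x * x = 1} * 2 ^ Nat.card (InfinitePlace M) := by
  classical
  have h1 : sqU M ≤ (scHom M).ker.map (selU M).subtype := by
    rw [sc_ker]
    exact le_sup_right
  have h2 : (scHom M).ker.map (selU M).subtype ≤ selU M := by
    rintro _ ⟨x, -, rfl⟩
    exact x.2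
  rw [← Subgroup.relIndex_mul_relIndex _ _ _ h1 h2]
  have h3 : ((scHom M).ker.map (selU M).subtype).relIndex (selU M) =
      Nat.card {x : ClassGroup (𝓞 M) // x * x = 1} := by
    have h4 : ((scHom M).ker.map (selU M).subtype).relIndex (selU M) = (scHom M).ker.index := by
      rw [Subgroup.relIndex]
      congr 1
      exact Subgroup.comap_map_eq_self_of_injective (selU M).subtype_injective _
    rw [h4, Subgroup.index_ker]
    exact Nat.card_congr (Equiv.subtypeEquivRight sc_range)
  have h5 : (sqU M).relIndex ((scHom M).ker.map (selU M).subtype) =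
      2 ^ Nat.card (InfinitePlace M) := by
    rw [sc_ker, Subgroup.relIndex_sup_right, ← Subgroup.relIndex_comap,
      Subgroup.relIndex_top_right, ← sc_units M]
    congr 1
    ext ε
    rw [Subgroup.mem_comap, mem_sqU]
    constructor
    · rintro ⟨y, hy⟩
      -- `y` is a unit
      have hy2 : (y : M) * y = ((ε : 𝓞 M) : M) := (congrArg Units.val hy).symm
      have hint : ∀ (z : M) (δ : (𝓞 M)ˣ), z * z = ((δ : 𝓞 M) : M) → IsIntegral ℤ z := by
        intro z δ hz
        apply IsIntegral.of_pow (n := 2) (by norm_num)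
        rw [sq, hz]
        exact RingOfIntegers.isIntegral_coe _
      have hy3 : ((y⁻¹ : Mˣ) : M) * ((y⁻¹ : Mˣ) : M) = (((ε⁻¹ : (𝓞 M)ˣ) : 𝓞 M) : M) := by
        have h6 : (Units.map (algebraMap (𝓞 M) M).toMonoidHom ε)⁻¹ = y⁻¹ * y⁻¹ := by
          rw [hy, mul_inv]
        rw [← map_inv] at h6
        exact (congrArg Units.val h6).symm
      let a : 𝓞 M := ⟨(y : M), hint _ ε hy2⟩
      let b : 𝓞 M := ⟨((y⁻¹ : Mˣ) : M), hint _ ε⁻¹ hy3⟩
      have hab : a * b = 1 := by
        apply RingOfIntegers.ext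
        show (y : M) * ((y⁻¹ : Mˣ) : M) = 1
        exact Units.mul_inv y
      refine ⟨⟨a, b, hab, by rw [mul_comm]; exact hab⟩, ?_⟩
      apply Units.ext
      apply RingOfIntegers.ext
      show (((_ : (𝓞 M)ˣ) ^ 2 : (𝓞 M)ˣ) : 𝓞 M) = ((ε : 𝓞 M) : M)
      rw [Units.val_pow_eq_pow_val]
      show ((a ^ 2 : 𝓞 M) : M) = _
      rw [sq]
      exact hy2
    · rintro ⟨δ, rfl⟩
      refine ⟨Units.map (algebraMap (𝓞 M) M).toMonoidHom δ, ?_⟩
      rw [← map_mul, ← sq]
      rfl
  rw [h3, h5, mul_comm]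

end field

end Pool.Agent.H.MP_ac3185_nt
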