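import Pool.Agent.H.MP_ac3185_nt.V8.Pt

/-! Relations between the conjugates, and the points with trivial square class. -/

set_option autoImplicit false

open CategoryTheory AlgebraicGeometry NumberField IsDedekindDomain
open scoped MonObj

namespace Pool.Agent.H.MP_ac3185_nt

universe u

section split

variable {K : Type u} [Field K] {A : Over (Spec (.of K))} [GrpObj A] [IsAbVar A]
  (L F : IntermediateField K (AlgebraicClosure K))
  (G : Subgroup (AlgebraicClosure K ≃ₐ[K] AlgebraicClosure K))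
  {N N' H : AddSubgroup (Pts A (AlgebraicClosure K))}

/-- A representative, if there is one. -/
theorem v8_rep {q : (AlgebraicClosure K ≃ₐ[K] AlgebraicClosure K) ⧸ L.fixingSubgroup}
    (h : ∃ g ∈ G,
      (g : (AlgebraicClosure K ≃ₐ[K] AlgebraicClosure K) ⧸ L.fixingSubgroup) = q) :
    repG L G q ∈ G ∧
      (repG L G q : (AlgebraicClosure K ≃ₐ[K] AlgebraicClosure K) ⧸ L.fixingSubgroup) = q := by
  unfold repG
  rw [dif_pos h]
  exact h.choose_spec

/-- `L` and `F` are linearly disjoint over the field of `G`. -/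
theorem v8_lin (hf : ModFrame F N N' H)
    (hlin : ∀ s, ∃ t ∈ G, (∀ x ∈ N', act A t x - x ∈ N) ∧ t⁻¹ * s ∈ L.fixingSubgroup) :
    TransOn L (F.fixingSubgroup ⊓ G) := by
  intro s
  obtain ⟨t, ht, hw, hts⟩ := hlin s
  exact ⟨t, ⟨hf.sub t hw, ht⟩, hts⟩

/-- Representatives in `Gal(Kbar/L)`. -/
theorem v8_repL (hf : ModFrame F N N' H)
    (hlin : ∀ s, ∃ t ∈ G, (∀ x ∈ N', act A t x - x ∈ N) ∧ t⁻¹ * s ∈ L.fixingSubgroup)
    {q : (AlgebraicClosure K ≃ₐ[K] AlgebraicClosure K) ⧸ F.fixingSubgroup}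
    (h : ∃ g ∈ G,
      (g : (AlgebraicClosure K ≃ₐ[K] AlgebraicClosure K) ⧸ F.fixingSubgroup) = q) :
    ∃ g ∈ L.fixingSubgroup ⊓ G,
      (g : (AlgebraicClosure K ≃ₐ[K] AlgebraicClosure K) ⧸ F.fixingSubgroup) = q := by
  obtain ⟨g, hg, rfl⟩ := h
  obtain ⟨t, ht, hw, hts⟩ := hlin g
  refine ⟨t⁻¹ * g, Subgroup.mem_inf.2 ⟨hts, G.mul_mem (G.inv_mem ht) hg⟩, ?_⟩
  rw [QuotientGroup.eq]
  have h1 : (t⁻¹ * g)⁻¹ * g = g⁻¹ * t * (g⁻¹)⁻¹ := by group
  rw [h1]
  exact hf.sub _ (v8_triv_conj hf hw)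

/-- The product of the signs of `g⁻¹ x` over a relation is `1`. -/
theorem v8_even_prod (hf : ModFrame F N N' H)
    [Fintype ((AlgebraicClosure K ≃ₐ[K] AlgebraicClosure K) ⧸ F.fixingSubgroup)]
    (Ω : Finset ((AlgebraicClosure K ≃ₐ[K] AlgebraicClosure K) ⧸ F.fixingSubgroup))
    (τ : (AlgebraicClosure K ≃ₐ[K] AlgebraicClosure K) ⧸ F.fixingSubgroup →
      AlgebraicClosure K ≃ₐ[K] AlgebraicClosure K)
    (hτ : ∀ q ∈ Ω,
      (τ q : (AlgebraicClosure K ≃ₐ[K] AlgebraicClosure K) ⧸ F.fixingSubgroup) = q)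
    (x : Pts A (AlgebraicClosure K)) (hΩ : Even (↑Ω ∩ shadow F H x).ncard) :
    ∏ q ∈ Ω, sgH H (act A (τ q)⁻¹ x) = 1 := by
  classical
  have h1 : ∀ q ∈ Ω, sgH H (act A (τ q)⁻¹ x) = if q ∈ shadow F H x then
      (-1 : AlgebraicClosure K) else 1 := by
    intro q hq
    have h2 := v8_mem_shadow hf x (τ q)
    rw [hτ q hq] at h2
    by_cases h3 : act A (τ q)⁻¹ x ∈ H
    · rw [sgH_mem h3, if_neg (fun h => h2.1 h h3)]
    · rw [sgH_not h3, if_pos (h2.2 h3)]
  rw [Finset.prod_congr rfl h1, Finset.prod_ite, Finset.prod_const_one, mul_one,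
    Finset.prod_const]
  have h5 : (Ω.filter fun q => q ∈ shadow F H x).card = (↑Ω ∩ shadow F H x).ncard := by
    rw [← Set.ncard_coe_finset]
    congr 1
    ext q
    simp
  rw [h5]
  exact hΩ.neg_one_pow

/-- The product of the conjugates of `u²` over a relation is a square. -/
theorem v8_rel [CharZero K] [FiniteDimensional K F] (hf : ModFrame F N N' H)
    (hlin : ∀ s, ∃ t ∈ G, (∀ x ∈ N', act A t x - x ∈ N) ∧ t⁻¹ * s ∈ L.fixingSubgroup)
    (Ω : Set ((AlgebraicClosure K ≃ₐ[K] AlgebraicClosure K) ⧸ F.fixingSubgroup))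
    (hΩG : ∀ q ∈ Ω, ∃ g ∈ G,
      (g : (AlgebraicClosure K ≃ₐ[K] AlgebraicClosure K) ⧸ F.fixingSubgroup) = q)
    (hΩ : ∀ x ∈ N', Even (Ω ∩ shadow F H x).ncard)
    {β : Pts A (AlgebraicClosure K)} {u : AlgebraicClosure K}
    (hβ : β ∈ ratPts A (L.fixingSubgroup ⊓ G) N')
    (hu : ∀ s ∈ L.fixingSubgroup, s ∈ F.fixingSubgroup → s ∈ G →
      s u = sgH H (act A s β - β) * u) :
    ∃ d : AlgebraicClosure K,
      (∀ s ∈ L.fixingSubgroup, s ∈ G → (∀ q ∈ Ω, s • q ∈ Ω) → s d = d) ∧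
      ∏ᶠ q ∈ Ω, repG F (L.fixingSubgroup ⊓ G) q (u * u) = d * d := by
  classical
  have hfi := vn_finiteIndex F
  let _ := F.fixingSubgroup.fintypeQuotientOfFiniteIndex
  set τ := repG F (L.fixingSubgroup ⊓ G) with hτ
  have hrep : ∀ q ∈ Ω, τ q ∈ L.fixingSubgroup ⊓ G ∧
      (τ q : (AlgebraicClosure K ≃ₐ[K] AlgebraicClosure K) ⧸ F.fixingSubgroup) = q :=
    fun q hq => v8_rep F _ (v8_repL L F G hf hlin (hΩG q hq))
  have hΩ' : (↑Ω.toFinset : Set _) = Ω := Set.coe_toFinset Ω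
  refine ⟨∏ q ∈ Ω.toFinset, τ q u, ?_, ?_⟩
  swap
  · rw [finprod_mem_eq_toFinset_prod, ← Finset.prod_mul_distrib]
    exact Finset.prod_congr rfl fun q _ => map_mul (τ q) u u
  intro s hs hsG hsΩ
  rw [map_prod]
  let w : (AlgebraicClosure K ≃ₐ[K] AlgebraicClosure K) ⧸ F.fixingSubgroup →
    AlgebraicClosure K ≃ₐ[K] AlgebraicClosure K := fun q => (τ (s • q))⁻¹ * (s * τ q)
  have hsw : ∀ q, s * τ q = τ (s • q) * w q := fun q => by
    show s * τ q = τ (s • q) * ((τ (s • q))⁻¹ * (s * τ q))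
    rw [mul_inv_cancel_left]
  have hwF : ∀ q ∈ Ω, w q ∈ F.fixingSubgroup := by
    intro q hq
    show (τ (s • q))⁻¹ * (s * τ q) ∈ F.fixingSubgroup
    have h1 : ((s * τ q : AlgebraicClosure K ≃ₐ[K] AlgebraicClosure K) :
        (AlgebraicClosure K ≃ₐ[K] AlgebraicClosure K) ⧸ F.fixingSubgroup) = s • q := by
      rw [← smul_eq_mul, ← MulAction.Quotient.smul_coe, (hrep q hq).2]
    rw [← QuotientGroup.eq, (hrep _ (hsΩ q hq)).2, h1]
  have hwL : ∀ q ∈ Ω, w q ∈ L.fixingSubgroup ⊓ G := fun q hq =>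
    mul_mem (inv_mem (hrep _ (hsΩ q hq)).1) (mul_mem ⟨hs, hsG⟩ (hrep q hq).1)
  have h1 : ∀ q ∈ Ω, s (τ q u) = sgH H (act A (w q) β - β) * τ (s • q) u := by
    intro q hq
    rw [← AlgEquiv.mul_apply, hsw, AlgEquiv.mul_apply, hu _ (hwL q hq).1 (hwF q hq) (hwL q hq).2,
      map_mul, sgH_gal]
  -- reindexing over `Ω`
  have himg : Ω.toFinset.image (fun q => s • q) = Ω.toFinset := by
    apply Finset.eq_of_subset_of_card_le
    · intro q hq
      obtain ⟨q', hq', rfl⟩ := Finset.mem_image.1 hq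
      exact Set.mem_toFinset.2 (hsΩ q' (Set.mem_toFinset.1 hq'))
    · rw [Finset.card_image_of_injective _ (MulAction.injective s)]
  have hre : ∀ φ : (AlgebraicClosure K ≃ₐ[K] AlgebraicClosure K) ⧸ F.fixingSubgroup →
      AlgebraicClosure K, ∏ q ∈ Ω.toFinset, φ (s • q) = ∏ q ∈ Ω.toFinset, φ q := by
    intro φ
    conv_rhs => rw [← himg]
    rw [Finset.prod_image fun _ _ _ _ h => MulAction.injective s h]
  -- the signs
  obtain ⟨y, hy⟩ : ∃ y, y = act A s β - β := ⟨_, rfl⟩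
  have hyN : y ∈ N' := by
    rw [hy]
    exact hβ s ⟨hs, hsG⟩
  have h2 : ∀ q ∈ Ω, sgH H (act A (w q) β - β) = sgH H (act A (τ (s • q))⁻¹ y) *
      (sgH H (act A (τ q)⁻¹ β - β) * sgH H (act A (τ (s • q))⁻¹ β - β)) := by
    intro q hq
    have h3 : (τ (s • q))⁻¹ * s = w q * (τ q)⁻¹ := by
      show (τ (s • q))⁻¹ * s = (τ (s • q))⁻¹ * (s * τ q) * (τ q)⁻¹
      group
    have h4 : act A (τ (s • q))⁻¹ y = (act A (w q * (τ q)⁻¹) β - β) -
        (act A (τ (s • q))⁻¹ β - β) := by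
      rw [hy, v2s_act_sub, ← v2s_act_mul, h3]
      abel
    have k1 := hβ _ (inv_mem (hrep q hq).1)
    have k2 := hβ _ (inv_mem (hrep _ (hsΩ q hq)).1)
    have k3 := hβ _ (hwL q hq)
    have k4 := hβ _ (mul_mem (hwL q hq) (inv_mem (hrep q hq).1))
    have h5 : sgH H (act A (w q * (τ q)⁻¹) β - β) =
        sgH H (act A (τ q)⁻¹ β - β) * sgH H (act A (w q) β - β) := by
      rw [v6_act_diff, v8_sg_add hf (hf.stabN' _ _ k1) k3, v8_sg_act hf (hwF q hq)]
    rw [h4, v8_sg_sub hf k4 k2, h5]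
    have h6 := sgH_mul_self (H := H) (act A (τ q)⁻¹ β - β)
    have h7 := sgH_mul_self (H := H) (act A (τ (s • q))⁻¹ β - β)
    linear_combination (-(sgH H (act A (w q) β - β)) * sgH H (act A (τ (s • q))⁻¹ β - β) *
      sgH H (act A (τ (s • q))⁻¹ β - β)) * h6 - (sgH H (act A (w q) β - β)) * h7
  have hmem : ∀ q, q ∈ Ω.toFinset → q ∈ Ω := fun q hq => Set.mem_toFinset.1 hq
  have h3 : ∏ q ∈ Ω.toFinset, sgH H (act A (w q) β - β) = 1 := by
    rw [Finset.prod_congr rfl fun q hq => h2 q (hmem q hq), Finset.prod_mul_distrib,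
      Finset.prod_mul_distrib]
    rw [hre (fun q => sgH H (act A (τ q)⁻¹ y)), hre (fun q => sgH H (act A (τ q)⁻¹ β - β)),
      v8_even_prod F hf Ω.toFinset τ (fun q hq => (hrep q (hmem q hq)).2) y
        (by rw [hΩ']; exact hΩ y hyN), one_mul, ← Finset.prod_mul_distrib]
    exact Finset.prod_eq_one fun q _ => sgH_mul_self _
  rw [Finset.prod_congr rfl fun q hq => h1 q (hmem q hq), Finset.prod_mul_distrib, h3, one_mul,
    hre (fun q => τ q u)]

/-- If `β` is rational over `L` modulo `N'` and `s β - β` is in `H` for all `s` in `Gal(Kbar/LF)`, then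
`β` is the sum of a point which is rational over the base modulo `N'` and a point which is rational
over `L` modulo `N`. -/
theorem v8_split [CharZero K] [FiniteDimensional K L] (hodd : Odd (Module.finrank K L))
    (hf : ModFrame F N N' H) (hcore : ∀ x ∈ N', (∀ g ∈ G, act A g x ∈ H) → x ∈ N)
    (hlin : ∀ s, ∃ t ∈ G, (∀ x ∈ N', act A t x - x ∈ N) ∧ t⁻¹ * s ∈ L.fixingSubgroup)
    {β : Pts A (AlgebraicClosure K)} (hβ : β ∈ ratPts A (L.fixingSubgroup ⊓ G) N')
    (hH : ∀ s ∈ L.fixingSubgroup, s ∈ F.fixingSubgroup → s ∈ G → act A s β - β ∈ H) :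
    ∃ y0 x, y0 ∈ ratPts A G N' ∧ x ∈ ratPts A (L.fixingSubgroup ⊓ G) N ∧ β = y0 + x := by
  classical
  have hfi := vn_finiteIndex L
  let _ := L.fixingSubgroup.fintypeQuotientOfFiniteIndex
  -- modulo `N`, `β` is fixed by the elements which act trivially on `N' / N`
  have hfix : ∀ v ∈ L.fixingSubgroup ⊓ G, v ∈ v8Triv hf → act A v β - β ∈ N := by
    intro v hv hvW
    refine hcore _ (hβ v hv) fun g0 hg0 => ?_
    obtain ⟨t, htG, ht, hts⟩ := hlin g0⁻¹
    -- `g0 = (t⁻¹ g0⁻¹)⁻¹ t⁻¹`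
    set l := t⁻¹ * g0⁻¹ with hl
    have hlG : l ∈ G := mul_mem (inv_mem htG) (inv_mem hg0)
    have hlL : l⁻¹ ∈ L.fixingSubgroup ⊓ G := inv_mem ⟨hts, hlG⟩
    have hv' : l⁻¹ * v * l ∈ v8Triv hf := by
      have h2 := v8_triv_conj hf (s := l⁻¹) hvW
      rwa [inv_inv] at h2
    have hvL : l⁻¹ * v * l ∈ L.fixingSubgroup ⊓ G :=
      mul_mem (mul_mem hlL hv) (by simpa using inv_mem hlL)
    have e1 : act A l⁻¹ (act A v β - β) ∈ H := by
      have h4 : act A l⁻¹ (act A v β - β) = (act A (l⁻¹ * v * l) β - β) +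
          (act A (l⁻¹ * v * l) (act A l⁻¹ β - β) - (act A l⁻¹ β - β)) := by
        have h5 : act A (l⁻¹ * v * l) (act A l⁻¹ β) = act A l⁻¹ (act A v β) := by
          rw [← v2s_act_mul, ← v2s_act_mul]
          congr 1
          group
        rw [v2s_act_sub, v2s_act_sub, h5]
        abel
      rw [h4]
      exact H.add_mem (hH _ hvL.1 (hf.sub _ hv') hvL.2) (hf.le (hv' _ (hβ _ hlL)))
    -- pass from `l⁻¹` to `g0`
    have e2 : act A g0 (act A v β - β) - act A l⁻¹ (act A v β - β) ∈ N := by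
      have h5 : g0 = l⁻¹ * t⁻¹ := by
        rw [hl]
        group
      have h6 : t⁻¹ ∈ v8Triv hf := inv_mem ht
      have h7 := hf.stabN l⁻¹ _ (h6 _ (hβ v hv))
      rw [v2s_act_sub, ← v2s_act_mul, ← h5] at h7
      exact h7
    have h8 := H.add_mem (hf.le e2) e1
    rwa [sub_add_cancel] at h8
  -- representatives which act trivially on `N' / N`
  have hrep : ∀ q : (AlgebraicClosure K ≃ₐ[K] AlgebraicClosure K) ⧸ L.fixingSubgroup,
      ∃ w, (w ∈ v8Triv hf ∧ w ∈ G) ∧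
        (w : (AlgebraicClosure K ≃ₐ[K] AlgebraicClosure K) ⧸ L.fixingSubgroup) = q := by
    intro q
    obtain ⟨g, rfl⟩ := QuotientGroup.mk_surjective q
    obtain ⟨t, htG, ht, hts⟩ := hlin g
    refine ⟨t, ⟨ht, htG⟩, ?_⟩
    rw [QuotientGroup.eq]
    exact hts
  choose ρ hρ hρq using hrep
  obtain ⟨β2, hβ2⟩ : ∃ β2, β2 = ∑ q, act A (ρ q) β := ⟨_, rfl⟩
  have hβ2G : β2 ∈ ratPts A G N' := by
    rw [hβ2]
    exact v8_trace L G hf.stabN' ρ (fun q => (hρ q).2) hρq β hβ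
  have hcard : Fintype.card ((AlgebraicClosure K ≃ₐ[K] AlgebraicClosure K) ⧸
      L.fixingSubgroup) = Module.finrank K L := vn_card L
  have hdiff : ∀ g ∈ L.fixingSubgroup ⊓ G, (act A g β2 - β2) - (act A g β - β) ∈ N := by
    intro g hg
    let w : (AlgebraicClosure K ≃ₐ[K] AlgebraicClosure K) ⧸ L.fixingSubgroup →
      AlgebraicClosure K ≃ₐ[K] AlgebraicClosure K := fun q => (ρ (g • q))⁻¹ * (g * ρ q)
    have hgw : ∀ q, g * ρ q = ρ (g • q) * w q := fun q => by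
      show g * ρ q = ρ (g • q) * ((ρ (g • q))⁻¹ * (g * ρ q))
      rw [mul_inv_cancel_left]
    have hwL : ∀ q, w q ∈ L.fixingSubgroup ⊓ G := by
      intro q
      refine Subgroup.mem_inf.2 ⟨?_, G.mul_mem (G.inv_mem (hρ _).2) (G.mul_mem hg.2 (hρ q).2)⟩
      show (ρ (g • q))⁻¹ * (g * ρ q) ∈ L.fixingSubgroup
      have h1 : ((g * ρ q : AlgebraicClosure K ≃ₐ[K] AlgebraicClosure K) :
          (AlgebraicClosure K ≃ₐ[K] AlgebraicClosure K) ⧸ L.fixingSubgroup) = g • q := by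
        rw [← smul_eq_mul, ← MulAction.Quotient.smul_coe, hρq]
      rw [← QuotientGroup.eq, hρq, h1]
    have hwg : ∀ q, act A (w q) β - act A g β ∈ N := by
      intro q
      have h1 : w q * g⁻¹ ∈ v8Triv hf := by
        have h2 : w q * g⁻¹ = (ρ (g • q))⁻¹ * (g * ρ q * g⁻¹) := by
          show (ρ (g • q))⁻¹ * (g * ρ q) * g⁻¹ = _
          group
        rw [h2]
        exact mul_mem (inv_mem (hρ _).1) (v8_triv_conj hf (hρ q).1)
      have h2 : w q * g⁻¹ ∈ L.fixingSubgroup ⊓ G := mul_mem (hwL q) (inv_mem hg)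
      have h3 : w q = (w q * g⁻¹) * g := by group
      have h4 := N.add_mem (h1 _ (hβ g hg)) (hfix _ h2 h1)
      rw [v2s_act_sub, ← v2s_act_mul, ← h3] at h4
      have h5 : act A (w q) β - act A (w q * g⁻¹) β - (act A g β - β) +
          (act A (w q * g⁻¹) β - β) = act A (w q) β - act A g β := by abel
      rwa [h5] at h4
    have h1 : ∀ q, act A g (act A (ρ q) β) - (act A (ρ (g • q)) β + (act A g β - β)) ∈ N := by
      intro q
      have h2 := N.add_mem ((hρ (g • q)).1 _ (hβ g hg)) (hf.stabN (ρ (g • q)) _ (hwg q))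
      rw [v2s_act_sub, v2s_act_sub, ← v2s_act_mul _ _ (w q), ← hgw, v2s_act_mul] at h2
      have h5 : act A (ρ (g • q)) (act A g β) - act A (ρ (g • q)) β - (act A g β - β) +
          (act A g (act A (ρ q) β) - act A (ρ (g • q)) (act A g β)) =
          act A g (act A (ρ q) β) - (act A (ρ (g • q)) β + (act A g β - β)) := by abel
      rwa [h5] at h2
    have e2 : ∑ q, act A (ρ (g • q)) β = ∑ q, act A (ρ q) β :=
      Equiv.sum_comp (MulAction.toPerm g) (fun q : (AlgebraicClosure K ≃ₐ[K]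
        AlgebraicClosure K) ⧸ L.fixingSubgroup => act A (ρ q) β)
    have h2 := N.sum_mem (t := Finset.univ) fun q _ => h1 q
    rw [Finset.sum_sub_distrib, Finset.sum_add_distrib, e2, Finset.sum_const, Finset.card_univ,
      hcard, ← v2s_act_sum, ← hβ2] at h2
    obtain ⟨k, hk⟩ := hodd
    have h3 : (2 * k) • (act A g β - β) ∈ N := by
      rw [mul_comm, mul_smul, two_smul]
      exact N.nsmul_mem (v8_two hf (hβ g hg)) k
    rw [hk, add_smul, one_smul] at h2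
    have h4 := N.add_mem h2 h3
    have h5 : act A g β2 - (β2 + ((2 * k) • (act A g β - β) + (act A g β - β))) +
        (2 * k) • (act A g β - β) = (act A g β2 - β2) - (act A g β - β) := by abel
    rwa [h5] at h4
  refine ⟨β2, β - β2, hβ2G, fun s hs => ?_, by abel⟩
  have h1 := N.neg_mem (hdiff s hs)
  have h2 : -(act A s β2 - β2 - (act A s β - β)) = act A s (β - β2) - (β - β2) := by
    rw [v2s_act_sub]
    abel
  rwa [h2] at h1

end split

end Pool.Agent.H.MP_ac3185_nt
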