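import Mathlib.NumberTheory.NumberField.Units.DirichletTheorem
import Mathlib.GroupTheory.SpecificGroups.Cyclic
import Mathlib.Tactic

/-! The number of classes of units modulo squares (Dirichlet's theorem). -/

set_option autoImplicit false

open NumberField NumberField.Units

namespace Pool.Agent.H.MP_ac3185_nt

universe u

/-- There are exactly `2 ^ n` classes of units modulo squares, `n` the number of infinite places. -/
theorem unitSq (E : Type u) [Field E] [NumberField E] :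
    ∃ T : Finset (𝓞 E)ˣ, T.card = 2 ^ Nat.card (InfinitePlace E) ∧
      (∀ ε : (𝓞 E)ˣ, ∃ t ∈ T, ∃ u : (𝓞 E)ˣ, ε = t * (u * u)) ∧
      ∀ t ∈ T, ∀ t' ∈ T, ∀ u : (𝓞 E)ˣ, t = t' * (u * u) → t = t' := by
  classical
  obtain ⟨ζ, hζ⟩ := IsCyclic.exists_generator (α := torsion E)
  have hord : orderOf ζ = Nat.card (torsion E) := orderOf_eq_card_of_forall_mem_zpowers hζ
  have heven : (2 : ℤ) ∣ orderOf ζ := by
    rw [hord]
    exact_mod_cast even_iff_two_dvd.1 (even_torsionOrder E)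
  let g : Fin 2 × (Fin (rank E) → Fin 2) → (𝓞 E)ˣ := fun p =>
    ((ζ ^ (p.1 : ℤ) : torsion E) : (𝓞 E)ˣ) * ∏ i, fundSystem E i ^ ((p.2 i : ℕ) : ℤ)
  have hform : ∀ u : (𝓞 E)ˣ, ∃ (k : ℤ) (m : Fin (rank E) → ℤ),
      u = ((ζ ^ k : torsion E) : (𝓞 E)ˣ) * ∏ i, fundSystem E i ^ m i := fun u => by
    obtain ⟨⟨z, m⟩, h, -⟩ := exist_unique_eq_mul_prod E u
    obtain ⟨k, hk⟩ := Subgroup.mem_zpowers_iff.1 (hζ z)
    exact ⟨k, m, by rw [hk]; exact h⟩
  have huniq : ∀ (k k' : ℤ) (m m' : Fin (rank E) → ℤ),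
      ((ζ ^ k : torsion E) : (𝓞 E)ˣ) * ∏ i, fundSystem E i ^ m i =
        ((ζ ^ k' : torsion E) : (𝓞 E)ˣ) * ∏ i, fundSystem E i ^ m' i →
      (2 : ℤ) ∣ k - k' ∧ m = m' := fun k k' m m' h => by
    have h1 := (exist_unique_eq_mul_prod E
      (((ζ ^ k : torsion E) : (𝓞 E)ˣ) * ∏ i, fundSystem E i ^ m i)).unique
      (y₁ := (ζ ^ k, m)) (y₂ := (ζ ^ k', m')) rfl h
    have h2 : ζ ^ k = ζ ^ k' := congrArg Prod.fst h1
    have h3 : m = m' := congrArg Prod.snd h1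
    refine ⟨heven.trans ?_, h3⟩
    rw [orderOf_dvd_iff_zpow_eq_one, zpow_sub, h2, mul_inv_cancel]
  have hprod : ∀ (k k' : ℤ) (m m' : Fin (rank E) → ℤ),
      (((ζ ^ k : torsion E) : (𝓞 E)ˣ) * ∏ i, fundSystem E i ^ m i) *
        ((((ζ ^ k' : torsion E) : (𝓞 E)ˣ) * ∏ i, fundSystem E i ^ m' i) *
        (((ζ ^ k' : torsion E) : (𝓞 E)ˣ) * ∏ i, fundSystem E i ^ m' i)) =
      ((ζ ^ (k + 2 * k') : torsion E) : (𝓞 E)ˣ) * ∏ i, fundSystem E i ^ (m i + 2 * m' i) :=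
    fun k k' m m' => by
    have h1 : ((ζ ^ (k + 2 * k') : torsion E) : (𝓞 E)ˣ) =
        ((ζ ^ k : torsion E) : (𝓞 E)ˣ) * (((ζ ^ k' : torsion E) : (𝓞 E)ˣ) *
          ((ζ ^ k' : torsion E) : (𝓞 E)ˣ)) := by
      rw [zpow_add, two_mul, zpow_add]
      rfl
    have h2 : ∏ i, fundSystem E i ^ (m i + 2 * m' i) =
        (∏ i, fundSystem E i ^ m i) * ((∏ i, fundSystem E i ^ m' i) *
          ∏ i, fundSystem E i ^ m' i) := by
      rw [← Finset.prod_mul_distrib, ← Finset.prod_mul_distrib]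
      refine Finset.prod_congr rfl fun i _ => ?_
      rw [zpow_add, two_mul, zpow_add]
    rw [h1, h2]
    generalize ((ζ ^ k : torsion E) : (𝓞 E)ˣ) = a
    generalize ((ζ ^ k' : torsion E) : (𝓞 E)ˣ) = b
    generalize ∏ i, fundSystem E i ^ m i = c
    generalize ∏ i, fundSystem E i ^ m' i = d
    rw [mul_mul_mul_comm b d b d, mul_mul_mul_comm a c]
  have hsep : ∀ p p' (u : (𝓞 E)ˣ), g p = g p' * (u * u) → p = p' := fun p p' u h => by
    obtain ⟨k, m, rfl⟩ := hform u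
    have h1 := huniq _ _ _ _ (h.trans (hprod _ _ _ _))
    refine Prod.ext ?_ (funext fun i => ?_)
    · have h2 := h1.1
      have h3 := p.1.isLt
      have h4 := p'.1.isLt
      apply Fin.ext
      omega
    · have h2 : ((p.2 i : ℕ) : ℤ) = (p'.2 i : ℕ) + 2 * m i := congrFun h1.2 i
      have h3 := (p.2 i).isLt
      have h4 := (p'.2 i).isLt
      apply Fin.ext
      omega
  have hinj : Function.Injective g := fun p p' h => hsep p p' 1 (by rw [mul_one, mul_one]; exact h)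
  refine ⟨Finset.univ.image g, ?_, fun ε => ?_, ?_⟩
  · rw [Finset.card_image_of_injective _ hinj, Finset.card_univ, Fintype.card_prod,
      Fintype.card_fun, Fintype.card_fin, Fintype.card_fin, ← pow_succ', Nat.card_eq_fintype_card]
    congr 1
    have h1 : 0 < Fintype.card (InfinitePlace E) := Fintype.card_pos
    show Fintype.card (InfinitePlace E) - 1 + 1 = _
    omega
  · obtain ⟨k, m, rfl⟩ := hform ε
    have hmod : ∀ n : ℤ, ∃ (j : Fin 2) (q : ℤ), n = ((j : ℕ) : ℤ) + 2 * q := fun n => by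
      refine ⟨⟨(n % 2).toNat, ?_⟩, n / 2, ?_⟩
      · omega
      · show n = (((n % 2).toNat : ℕ) : ℤ) + 2 * (n / 2)
        omega
    obtain ⟨j, q, hj⟩ := hmod k
    choose J Q hJ using fun i => hmod (m i)
    refine ⟨g (j, J), Finset.mem_image_of_mem _ (Finset.mem_univ _),
      ((ζ ^ q : torsion E) : (𝓞 E)ˣ) * ∏ i, fundSystem E i ^ Q i, ?_⟩
    have h1 := hprod (j : ℕ) q (fun i => ((J i : ℕ) : ℤ)) Q
    refine Eq.trans ?_ h1.symm
    rw [← hj]
    congr 1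
    exact Finset.prod_congr rfl fun i _ => by rw [← hJ i]
  · intro t ht t' ht' u h
    obtain ⟨p, -, rfl⟩ := Finset.mem_image.1 ht
    obtain ⟨p', -, rfl⟩ := Finset.mem_image.1 ht'
    rw [hsep p p' u h]

end Pool.Agent.H.MP_ac3185_nt
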